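import Mathlib

/-!
# Strict Jung inequality and a logarithmic colouring

* `jung`: a finite nonempty set whose pairwise squared distances are at most `32` lies in an open
  ball of radius `4`.
* `logcolor`: a finite colouring `χ` of the reals such that two positive reals of the same colour
  are nearly equal or very different.
-/

set_option autoImplicit false

namespace Pool.Agent.Helper61.NotDR

open Finset

section Jung

variable {E : Type*} [NormedAddCommGroup E] [InnerProductSpace ℝ E]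

/-- Weighted parallel-axis identity (with total weight one), doubled form. -/
lemma double_sum {ι : Type*} (s : Finset ι) (μ : ι → ℝ) (x : ι → E) (h1 : ∑ i ∈ s, μ i = 1) :
    ∑ i ∈ s, ∑ j ∈ s, μ i * μ j * ‖x i - x j‖ ^ 2
      = 2 * (∑ i ∈ s, μ i * ‖x i‖ ^ 2 - ‖∑ i ∈ s, μ i • x i‖ ^ 2) := by
  have e1 : ∀ i ∈ s, ∀ j ∈ s, μ i * μ j * ‖x i - x j‖ ^ 2
      = μ j * (μ i * ‖x i‖ ^ 2) + μ i * (μ j * ‖x j‖ ^ 2)
        - 2 * (inner ℝ (μ i • x i) (μ j • x j)) := by
    intro i _ j _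
    rw [@norm_sub_sq_real, inner_smul_left, inner_smul_right]
    simp only [conj_trivial]
    ring
  rw [Finset.sum_congr rfl (fun i hi => Finset.sum_congr rfl (fun j hj => e1 i hi j hj))]
  rw [← real_inner_self_eq_norm_sq (∑ i ∈ s, μ i • x i), sum_inner]
  simp only [inner_sum, Finset.sum_sub_distrib, Finset.sum_add_distrib, ← Finset.mul_sum,
    ← Finset.sum_mul, h1]
  ring

lemma sum_smul_sub {ι : Type*} (s : Finset ι) (μ : ι → ℝ) (x : ι → E) (o : E)
    (h1 : ∑ i ∈ s, μ i = 1) :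
    ∑ i ∈ s, μ i • (x i - o) = (∑ i ∈ s, μ i • x i) - o := by
  simp only [smul_sub, Finset.sum_sub_distrib, ← Finset.sum_smul, h1, one_smul]

/-- Weighted parallel-axis identity about an arbitrary point `o`. -/
lemma parallel_axis {ι : Type*} (s : Finset ι) (μ : ι → ℝ) (x : ι → E) (o : E)
    (h1 : ∑ i ∈ s, μ i = 1) :
    ∑ i ∈ s, μ i * ‖x i - o‖ ^ 2 = ‖(∑ i ∈ s, μ i • x i) - o‖ ^ 2
      + (1 / 2) * ∑ i ∈ s, ∑ j ∈ s, μ i * μ j * ‖x i - x j‖ ^ 2 := by
  have h := double_sum s μ (fun i => x i - o) h1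
  simp only [sub_sub_sub_cancel_right] at h
  rw [h, sum_smul_sub s μ x o h1]
  ring

theorem jung (R : Finset E) (hne : R.Nonempty)
    (h : ∀ x ∈ R, ∀ y ∈ R, dist x y ^ 2 ≤ 32) :
    ∃ o : E, ∀ x ∈ R, dist x o ^ 2 < 16 := by
  classical
  have : Nonempty R := hne.to_subtype
  -- the function to maximise on the simplex
  let Φ : (R → ℝ) → ℝ := fun μ =>
    ∑ i, μ i * ‖(i : E)‖ ^ 2 - ‖∑ i, μ i • (i : E)‖ ^ 2
  have hcont : Continuous Φ := by
    refine Continuous.sub ?_ ?_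
    · exact continuous_finsetSum _ (fun i _ => (continuous_apply i).mul continuous_const)
    · exact ((continuous_finsetSum _
        (fun i _ => (continuous_apply i).smul continuous_const)).norm).pow 2
  obtain ⟨μ, hμ, hmax⟩ := (isCompact_stdSimplex ℝ R).exists_isMaxOn
    ⟨_, single_mem_stdSimplex ℝ (Classical.arbitrary R)⟩ hcont.continuousOn
  obtain ⟨hμ0, hμ1⟩ := hμ
  set c : E := ∑ i, μ i • (i : E) with hc
  set S : ℝ := ∑ i, μ i * ‖(i : E)‖ ^ 2 with hS
  -- the value of the maximum is less than 16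
  have hval : S - ‖c‖ ^ 2 < 16 := by
    have h2 := double_sum Finset.univ μ (fun i : R => (i : E)) hμ1
    have h3 : ∑ i : R, ∑ j : R, μ i * μ j * ‖(i : E) - (j : E)‖ ^ 2
        ≤ ∑ i : R, ∑ j : R, (32 * (μ i * μ j) - (if i = j then 32 * (μ i * μ i) else 0)) := by
      refine Finset.sum_le_sum (fun i _ => Finset.sum_le_sum (fun j _ => ?_))
      split_ifs with hij
      · subst hij; simp
      · have := h i i.2 j j.2
        rw [dist_eq_norm] at this
        have hp : 0 ≤ μ i * μ j := mul_nonneg (hμ0 i) (hμ0 j)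
        nlinarith
    have h4 : ∑ i : R, ∑ j : R, (32 * (μ i * μ j) - (if i = j then 32 * (μ i * μ i) else 0))
        = 32 - 32 * ∑ i : R, μ i * μ i := by
      simp only [Finset.sum_sub_distrib, ← Finset.mul_sum, ← Finset.sum_mul, hμ1,
        Finset.sum_ite_eq, Finset.mem_univ, if_true]
      ring
    have h5 : 0 < ∑ i : R, μ i * μ i := by
      have : ∃ i, 0 < μ i := by
        by_contra hcon
        push Not at hcon
        have : ∑ i, μ i ≤ 0 := Finset.sum_nonpos (fun i _ => hcon i)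
        linarith
      obtain ⟨i, hi⟩ := this
      exact Finset.sum_pos' (fun j _ => mul_self_nonneg _) ⟨i, Finset.mem_univ _, mul_pos hi hi⟩
    rw [h4] at h3
    linarith
  refine ⟨c, fun x hx => ?_⟩
  refine lt_of_le_of_lt ?_ hval
  set i : R := ⟨x, hx⟩ with hi
  rw [dist_eq_norm]
  -- perturbation
  have key : ∀ t : ℝ, 0 < t → t ≤ 1 →
      ‖x - c‖ ^ 2 - (S - ‖c‖ ^ 2) ≤ t * ‖x - c‖ ^ 2 := by
    intro t ht ht1
    let ν : R → ℝ := fun j => (1 - t) * μ j + t * (if j = i then 1 else 0)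
    have hν : ν ∈ stdSimplex ℝ R := by
      refine ⟨fun j => ?_, ?_⟩
      · have : 0 ≤ (1 - t) * μ j := mul_nonneg (by linarith) (hμ0 j)
        have h2 : 0 ≤ t * (if j = i then (1 : ℝ) else 0) := by
          split_ifs <;> simp [ht.le]
        simp only [ν]; linarith
      · simp only [ν, Finset.sum_add_distrib, ← Finset.mul_sum, hμ1]
        simp
    have hle := hmax hν
    simp only [Set.mem_ofPred_eq] at hle
    have e1 : ∑ j, ν j * ‖(j : E)‖ ^ 2 = (1 - t) * S + t * ‖x‖ ^ 2 := by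
      simp only [ν, add_mul, Finset.sum_add_distrib, mul_assoc, ← Finset.mul_sum]
      simp [hi, hS]
    have e2 : ∑ j, ν j • (j : E) = (1 - t) • c + t • x := by
      simp only [ν, add_smul, Finset.sum_add_distrib, mul_smul, ← Finset.smul_sum]
      simp [hi, hc]
    have hle' : (1 - t) * S + t * ‖x‖ ^ 2 - ‖(1 - t) • c + t • x‖ ^ 2 ≤ S - ‖c‖ ^ 2 := by
      rw [← e1, ← e2]; exact hle
    have e3 : ‖(1 - t) • c + t • x‖ ^ 2
        = (1 - t) ^ 2 * ‖c‖ ^ 2 + 2 * (t * (1 - t)) * inner ℝ c x + t ^ 2 * ‖x‖ ^ 2 := by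
      rw [@norm_add_sq_real, inner_smul_left, inner_smul_right, norm_smul, norm_smul, mul_pow,
        mul_pow]
      simp only [conj_trivial, Real.norm_eq_abs, sq_abs]
      ring
    have e4 : ‖x - c‖ ^ 2 = ‖x‖ ^ 2 - 2 * inner ℝ c x + ‖c‖ ^ 2 := by
      rw [@norm_sub_sq_real, real_inner_comm]
    rw [e3] at hle'
    rw [e4]
    have : t * (‖x‖ ^ 2 - 2 * inner ℝ c x + ‖c‖ ^ 2 - (S - ‖c‖ ^ 2)
        - t * (‖x‖ ^ 2 - 2 * inner ℝ c x + ‖c‖ ^ 2)) ≤ 0 := by nlinarith
    have h3 := nonpos_of_mul_nonpos_right this ht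
    linarith
  refine le_of_forall_pos_le_add (fun ε hε => ?_)
  have hq : 0 ≤ ‖x - c‖ ^ 2 := by positivity
  have ht : 0 < min 1 (ε / (‖x - c‖ ^ 2 + 1)) := lt_min one_pos (by positivity)
  have h1 := key _ ht (min_le_left _ _)
  have h2 : min 1 (ε / (‖x - c‖ ^ 2 + 1)) * ‖x - c‖ ^ 2 ≤ ε := by
    calc min 1 (ε / (‖x - c‖ ^ 2 + 1)) * ‖x - c‖ ^ 2
        ≤ ε / (‖x - c‖ ^ 2 + 1) * (‖x - c‖ ^ 2 + 1) := by
          apply mul_le_mul (min_le_right _ _) (by linarith) hq (by positivity)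
      _ = ε := by field_simp
  linarith

end Jung

section LogColor

/-- A finite colouring of the reals such that two positive reals of the same colour are nearly
equal or very different. -/
theorem logcolor (η : ℝ) (hη : 0 < η) (hη1 : η < 1) : ∃ m : ℕ, 1 ≤ m ∧ ∃ χ : ℝ → Fin m,
    ∀ a b : ℝ, 0 < a → 0 < b → χ a = χ b → a ≤ b → (1 - η) * b < a ∨ a < η * b := by
  obtain ⟨k, hk⟩ := exists_pow_lt_of_lt_one hη (show 1 - η < 1 by linarith)
  have hθ0 : 0 < 1 - η := by linarith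
  have hlog : Real.log (1 - η) < 0 := Real.log_neg hθ0 (by linarith)
  refine ⟨k + 1, by omega, fun a =>
    ⟨(⌊Real.log a / Real.log (1 - η)⌋ % ((k + 1 : ℕ) : ℤ)).toNat, ?_⟩, ?_⟩
  · have h1 := Int.emod_nonneg ⌊Real.log a / Real.log (1 - η)⌋
      (show ((k + 1 : ℕ) : ℤ) ≠ 0 by positivity)
    have h2 := Int.emod_lt_of_pos ⌊Real.log a / Real.log (1 - η)⌋
      (show (0 : ℤ) < ((k + 1 : ℕ) : ℤ) by positivity)
    omega
  · intro a b ha hb hχ hab
    simp only [Fin.mk.injEq] at hχ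
    set u := Real.log a / Real.log (1 - η) with hu
    set v := Real.log b / Real.log (1 - η) with hv
    have h1 := Int.emod_nonneg ⌊u⌋ (show ((k + 1 : ℕ) : ℤ) ≠ 0 by positivity)
    have h2 := Int.emod_nonneg ⌊v⌋ (show ((k + 1 : ℕ) : ℤ) ≠ 0 by positivity)
    have hmod : ⌊u⌋ % ((k + 1 : ℕ) : ℤ) = ⌊v⌋ % ((k + 1 : ℕ) : ℤ) := by omega
    have hdvd : ((k + 1 : ℕ) : ℤ) ∣ ⌊u⌋ - ⌊v⌋ := by
      exact Int.dvd_of_emod_eq_zero (by rw [Int.sub_emod, hmod]; simp)
    have hvu : v ≤ u := by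
      rw [hu, hv]
      exact div_le_div_of_nonpos_of_le hlog.le (Real.log_le_log ha hab)
    have hfl : ⌊v⌋ ≤ ⌊u⌋ := Int.floor_le_floor hvu
    obtain ⟨q, hq⟩ := hdvd
    have hla : Real.log a = u * Real.log (1 - η) := by
      rw [hu, div_mul_cancel₀ _ hlog.ne]
    have hlb : Real.log b = v * Real.log (1 - η) := by
      rw [hv, div_mul_cancel₀ _ hlog.ne]
    have hfu := Int.floor_le u
    have hfu' := Int.lt_floor_add_one u
    have hfv := Int.floor_le v
    have hfv' := Int.lt_floor_add_one v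
    rcases le_or_gt q 0 with hq0 | hq0
    · left
      have hz : ⌊u⌋ = ⌊v⌋ := by
        have : ((k + 1 : ℕ) : ℤ) * q ≤ 0 :=
          mul_nonpos_of_nonneg_of_nonpos (by positivity) hq0
        omega
      rw [hz] at hfu hfu'
      have hlt : u - v < 1 := by linarith
      have : Real.log ((1 - η) * b) < Real.log a := by
        rw [Real.log_mul hθ0.ne' hb.ne', hla, hlb]
        nlinarith
      exact (Real.log_lt_log_iff (mul_pos hθ0 hb) ha).1 this
    · right
      have hz : ⌊u⌋ - ⌊v⌋ ≥ ((k + 1 : ℕ) : ℤ) := by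
        rw [hq]; nlinarith [show (0 : ℤ) < ((k + 1 : ℕ) : ℤ) by positivity]
      have hz' : ((⌊u⌋ - ⌊v⌋ : ℤ) : ℝ) ≥ (k : ℝ) + 1 := by
        have : (((k + 1 : ℕ) : ℤ) : ℝ) ≤ ((⌊u⌋ - ⌊v⌋ : ℤ) : ℝ) := by exact_mod_cast hz
        push_cast at this
        push_cast
        linarith
      push_cast at hz'
      have hgt : (k : ℝ) < u - v := by linarith
      have : Real.log a < Real.log ((1 - η) ^ k * b) := by
        rw [Real.log_mul (pow_pos hθ0 k).ne' hb.ne', Real.log_pow, hla, hlb]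
        nlinarith
      have h3 := (Real.log_lt_log_iff ha (mul_pos (pow_pos hθ0 k) hb)).1 this
      calc a < (1 - η) ^ k * b := h3
        _ ≤ η * b := by
          exact mul_le_mul_of_nonneg_right hk.le hb.le

end LogColor

end Pool.Agent.Helper61.NotDR
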