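import Mathlib
import Pool.Agent.Helper1.DRDef
import Pool.Agent.Helper61.Jung

/-!
# The 33-point set is not diameter-Ramsey
-/

set_option autoImplicit false

namespace Pool.Agent.Helper61.NotDR

open Finset Pool.Agent.Helper1

/-- number of lines through two points -/
lemma lines_two : ∀ t t' : Fin 16,
    (∑ l : Fin 16, if inc l t ∧ inc l t' then 1 else 0 : ℤ) ≤ 1 + (if t' = t then 3 else 0) := by
  decide

lemma lines_one : ∀ t : Fin 16, (∑ l : Fin 16, if inc l t then 1 else 0 : ℤ) = 4 := by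
  decide

lemma line_card : ∀ l : Fin 16, (∑ t : Fin 16, if inc l t then 1 else 0 : ℤ) = 4 := by
  decide

lemma norm_vecZ : ∀ p : I, (∑ x, vecZ p x ^ 2 : ℤ) = 16 := by
  decide

/-! ### The combinatorial core -/

/-- No `{0,1}`-valued pattern. -/
lemma no_pattern (T U : Fin 16 → ℤ) (V : ℤ) (hT : ∀ t, 0 ≤ T t ∧ T t ≤ 1)
    (hU : ∀ l, 0 ≤ U l ∧ U l ≤ 1) (hV : 0 ≤ V ∧ V ≤ 1)
    (h1 : ∀ l, ∑ t, (if inc l t then T t else 0) = 2 * U l)
    (h2 : ∑ t, T t = 4 * V) : (∀ t, T t = 0) ∧ (∀ l, U l = 0) ∧ V = 0 := by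
  have hT0 : ∀ t, T t = 0 := by
    by_contra hcon
    push Not at hcon
    obtain ⟨t, ht⟩ := hcon
    have ht1 : T t = 1 := by have := hT t; omega
    -- each line through t has exactly two points
    have hl : ∀ l, inc l t → U l = 1 := by
      intro l hlt
      have : T t ≤ ∑ t', (if inc l t' then T t' else 0) := by
        have := Finset.single_le_sum (f := fun t' => if inc l t' then T t' else 0)
          (fun t' _ => by
            show (0 : ℤ) ≤ if inc l t' then T t' else 0
            split_ifs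
            · exact (hT t').1
            · exact le_refl _) (Finset.mem_univ t)
        simpa [hlt] using this
      have h3 := h1 l
      have h4 := hU l
      omega
    have e1 : ∑ l, (if inc l t then ∑ t', (if inc l t' then T t' else 0) else 0) = 8 := by
      have : ∀ l, (if inc l t then ∑ t', (if inc l t' then T t' else 0) else 0)
          = 2 * (if inc l t then 1 else 0 : ℤ) := by
        intro l
        split_ifs with hlt
        · rw [h1 l, hl l hlt]
        · rfl
      rw [Finset.sum_congr rfl (fun l _ => this l), ← Finset.mul_sum, lines_one t]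
      norm_num
    have e2 : ∑ l, (if inc l t then ∑ t', (if inc l t' then T t' else 0) else 0)
        = ∑ t', (∑ l : Fin 16, if inc l t ∧ inc l t' then 1 else 0 : ℤ) * T t' := by
      simp only [Finset.sum_mul]
      rw [Finset.sum_comm]
      refine Finset.sum_congr rfl (fun l _ => ?_)
      by_cases hlt : inc l t
      · simp only [hlt, if_true]
        refine Finset.sum_congr rfl (fun t' _ => ?_)
        by_cases hlt' : inc l t' <;> simp [hlt']
      · simp [hlt]
    have e3 : ∑ t', (∑ l : Fin 16, if inc l t ∧ inc l t' then 1 else 0 : ℤ) * T t'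
        ≤ ∑ t', (1 + (if t' = t then 3 else 0)) * T t' :=
      Finset.sum_le_sum (fun t' _ => mul_le_mul_of_nonneg_right (lines_two t t') (hT t').1)
    have e4 : ∑ t', (1 + (if t' = t then 3 else 0)) * T t' = 4 * V + 3 := by
      simp only [add_mul, one_mul, Finset.sum_add_distrib, ite_mul, zero_mul,
        Finset.sum_ite_eq', Finset.mem_univ, if_true, ht1, h2]
      norm_num
    omega
  refine ⟨hT0, fun l => ?_, ?_⟩
  · have := h1 l
    simp only [hT0, ite_self, Finset.sum_const_zero] at this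
    omega
  · simp only [hT0, Finset.sum_const_zero] at h2
    omega

/-! ### The affine relations -/

/-- Real version: `∑_{p,q} ν_p ν_q |v_p - v_q|^2 = 32` for weights with `∑ ν = 1`,
`∑ ν_p v_p = 0`. -/
lemma sum_sqd (ν : I → ℝ) (h1 : ∑ p, ν p = 1) (h0 : ∀ x, ∑ p, ν p * (vecZ p x : ℝ) = 0) :
    ∑ p, ∑ q, ν p * ν q * (sqd p q : ℝ) = 32 := by
  have hn : ∀ p, ∑ x, (vecZ p x : ℝ) ^ 2 = 16 := by
    intro p
    have := norm_vecZ p
    exact_mod_cast this
  have e1 : ∀ p q, ν p * ν q * (sqd p q : ℝ)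
      = ν q * (ν p * ∑ x, (vecZ p x : ℝ) ^ 2) + ν p * (ν q * ∑ x, (vecZ q x : ℝ) ^ 2)
        - 2 * ∑ x, (ν p * (vecZ p x : ℝ)) * (ν q * (vecZ q x : ℝ)) := by
    intro p q
    simp only [sqd, Int.cast_sum, Int.cast_pow, Int.cast_sub, Finset.mul_sum]
    rw [← Finset.sum_add_distrib, ← Finset.sum_sub_distrib]
    refine Finset.sum_congr rfl (fun x _ => ?_)
    ring
  simp only [e1, hn]
  have e2 : ∑ p, ∑ q, 2 * ∑ x, (ν p * (vecZ p x : ℝ)) * (ν q * (vecZ q x : ℝ)) = 0 := by
    have : ∀ p, ∑ q, 2 * ∑ x, (ν p * (vecZ p x : ℝ)) * (ν q * (vecZ q x : ℝ)) = 0 := by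
      intro p
      rw [← Finset.mul_sum, Finset.sum_comm]
      simp only [← Finset.mul_sum, h0, mul_zero, Finset.sum_const_zero]
    exact Finset.sum_eq_zero (fun p _ => this p)
  simp only [Finset.sum_sub_distrib, Finset.sum_add_distrib]
  rw [e2]
  simp only [← Finset.sum_mul, ← Finset.mul_sum, h1]
  norm_num

lemma depth_le {n : ℕ} (y : I → EuclideanSpace ℝ (Fin n)) (hy : IsCopy y)
    (o : EuclideanSpace ℝ (Fin n)) (ν : I → ℝ) (h1 : ∑ p, ν p = 1)
    (h0 : ∀ x, ∑ p, ν p * (vecZ p x : ℝ) = 0) :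
    ∑ p, ν p * (16 - dist (y p) o ^ 2) ≤ 0 := by
  have h := parallel_axis Finset.univ ν y o h1
  have e : ∀ p q, ν p * ν q * ‖y p - y q‖ ^ 2 = ν p * ν q * (sqd p q : ℝ) := by
    intro p q
    rw [← hy p q, dist_eq_norm]
  simp only [e, sum_sqd ν h1 h0] at h
  simp only [mul_sub, Finset.sum_sub_distrib, ← Finset.sum_mul, h1, dist_eq_norm, h]
  have := sq_nonneg ‖(∑ p, ν p • y p) - o‖
  linarith

/-- the weights -/
noncomputable def wt (s : ℝ) (l : Fin 16) : I → ℝ
  | .inl t => s * (if inc l t then 1 / 2 else 0) + (1 - s) / 12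
  | .inr (.inl l') => if l' = l then -s else 0
  | .inr (.inr _) => -(1 - s) / 3

lemma line_card_real (l : Fin 16) (c : ℝ) : ∑ t : Fin 16, (if inc l t then c else 0) = 4 * c := by
  have h := line_card l
  have h' : (∑ t : Fin 16, if inc l t then 1 else 0 : ℝ) = 4 := by exact_mod_cast h
  have : ∀ t, (if inc l t then c else 0) = (if inc l t then 1 else 0 : ℝ) * c := by
    intro t; split_ifs <;> simp
  simp only [this, ← Finset.sum_mul, h']

lemma wt_sum (s : ℝ) (l : Fin 16) : ∑ p, wt s l p = 1 := by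
  rw [Fintype.sum_sum_type, Fintype.sum_sum_type]
  simp only [wt, Finset.sum_add_distrib, ← Finset.mul_sum, line_card_real, Finset.sum_ite_eq',
    Finset.mem_univ, if_true, Finset.sum_const, Finset.card_univ, Fintype.card_fin,
    Fintype.card_unit, nsmul_eq_mul]
  push_cast
  ring

lemma wt_zero (s : ℝ) (l : Fin 16) (x : Fin 16) : ∑ p, wt s l p * (vecZ p x : ℝ) = 0 := by
  rw [Fintype.sum_sum_type, Fintype.sum_sum_type]
  simp only [wt, Finset.univ_unique, Finset.sum_singleton, ite_mul, zero_mul,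
    Finset.sum_ite_eq', Finset.mem_univ, if_true]
  simp only [vecZ, Int.cast_ite, mul_ite, Int.cast_zero, mul_zero,
    Finset.sum_ite_eq, Finset.mem_univ, if_true]
  by_cases h : inc l x
  · simp only [h, if_true]; push_cast; ring
  · simp only [h]; push_cast; simp; ring

lemma relations (a : I → ℝ)
    (ha : ∀ s : ℝ, ∀ l, ∑ p, wt s l p * a p ≤ 0) : ∃ g : ℝ, 0 ≤ g ∧
      (∀ l, a (.inr (.inl l)) = (1 / 2) * ∑ t, (if inc l t then a (.inl t) else 0) + g) ∧
      a (.inr (.inr ())) = (1 / 4) * ∑ t, a (.inl t) + 3 * g := by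
  have e : ∀ s l, ∑ p, wt s l p * a p
      = s * ((1 / 2) * ∑ t, (if inc l t then a (.inl t) else 0) - a (.inr (.inl l)))
        + (1 - s) * ((1 / 12) * ∑ t, a (.inl t) - (1 / 3) * a (.inr (.inr ()))) := by
    intro s l
    rw [Fintype.sum_sum_type, Fintype.sum_sum_type]
    simp only [wt, Finset.univ_unique, Finset.sum_singleton, ite_mul, zero_mul,
      Finset.sum_ite_eq', Finset.mem_univ, if_true]
    have : ∀ t, (s * (if inc l t then 1 / 2 else 0) + (1 - s) / 12) * a (.inl t)
        = s * (1 / 2) * (if inc l t then a (.inl t) else 0) + (1 - s) / 12 * a (.inl t) := by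
      intro t; split_ifs <;> ring
    simp only [this, Finset.sum_add_distrib, ← Finset.mul_sum]
    show _ + (_ + -(1 - s) / 3 * a (.inr (.inr ()))) = _
    ring
  set gX := (1 / 12) * ∑ t, a (.inl t) - (1 / 3) * a (.inr (.inr ())) with hgX
  refine ⟨-gX, ?_, fun l => ?_, ?_⟩
  · have := ha 0 0
    rw [e] at this
    linarith
  · set gS := (1 / 2) * ∑ t, (if inc l t then a (.inl t) else 0) - a (.inr (.inl l)) with hgS
    have hs : ∀ s : ℝ, s * gS + (1 - s) * gX ≤ 0 := by
      intro s
      have := ha s l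
      rw [e] at this
      exact this
    have heq : gS = gX := by
      by_contra hne
      have hd : gS - gX ≠ 0 := sub_ne_zero.2 hne
      have := hs ((1 - gX) / (gS - gX))
      have h2 : (1 - gX) / (gS - gX) * gS + (1 - (1 - gX) / (gS - gX)) * gX = 1 := by
        field_simp
        ring
      linarith
    linarith
  · rw [hgX]; ring

/-- Positive affine functions on the set that are nearly `{0,1}`-valued up to scaling do not
exist. -/
lemma no_mono (a : I → ℝ) (hpos : ∀ p, 0 < a p)
    (ha : ∀ s : ℝ, ∀ l, ∑ p, wt s l p * a p ≤ 0)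
    (hmono : ∀ p q, a p ≤ a q → (1 - 1 / 100) * a q < a p ∨ a p < (1 / 100) * a q) : False := by
  obtain ⟨g, hg0, hS, hW⟩ := relations a ha
  obtain ⟨p0, -, hp0⟩ := Finset.exists_max_image Finset.univ a Finset.univ_nonempty
  set A := a p0 with hA
  have hApos : 0 < A := hpos p0
  -- the rounded pattern
  let T : I → ℤ := fun p => if (1 - 1 / 100) * A < a p then 1 else 0
  have hT01 : ∀ p, 0 ≤ T p ∧ T p ≤ 1 := by
    intro p; simp only [T]; split_ifs <;> simp
  have happ : ∀ p, |a p / A - T p| ≤ 1 / 100 := by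
    intro p
    have hle : a p ≤ A := hp0 p (Finset.mem_univ p)
    have h01 := hmono p p0 hle
    have hdiv : a p / A * A = a p := by field_simp
    have hb1 : a p / A ≤ 1 := (div_le_one hApos).2 hle
    have hb0 : 0 < a p / A := div_pos (hpos p) hApos
    simp only [T]
    split_ifs with hc
    · have : 1 - 1 / 100 < a p / A := (lt_div_iff₀ hApos).2 hc
      rw [abs_le]; push_cast; constructor <;> linarith
    · rcases h01 with h | h
      · exact absurd h hc
      · have : a p / A < 1 / 100 := (div_lt_iff₀ hApos).2 h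
        rw [abs_le]; push_cast; constructor <;> linarith
  have hTp0 : T p0 = 1 := by
    simp only [T, ← hA]
    rw [if_pos]; nlinarith
  set G := g / A with hG
  have hG0 : 0 ≤ G := div_nonneg hg0 hApos.le
  -- scaled relations
  have hS' : ∀ l, a (.inr (.inl l)) / A
      = (1 / 2) * ∑ t, (if inc l t then a (.inl t) / A else 0) + G := by
    intro l
    rw [hS l, add_div, mul_div_assoc, Finset.sum_div]
    congr 2
    refine Finset.sum_congr rfl (fun t _ => ?_)
    split_ifs <;> simp
  have hW' : a (.inr (.inr ())) / A = (1 / 4) * ∑ t, a (.inl t) / A + 3 * G := by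
    rw [hW, add_div, mul_div_assoc, Finset.sum_div, hG]; ring
  -- errors of the sums
  have hsumS : ∀ l, |∑ t, (if inc l t then a (.inl t) / A else 0)
      - ((∑ t, (if inc l t then T (.inl t) else 0) : ℤ) : ℝ)| ≤ 4 / 100 := by
    intro l
    push_cast
    rw [← Finset.sum_sub_distrib]
    refine (Finset.abs_sum_le_sum_abs _ _).trans ?_
    calc ∑ t, |(if inc l t then a (.inl t) / A else 0) - (if inc l t then (T (.inl t) : ℝ) else 0)|
        ≤ ∑ t, (if inc l t then (1 / 100 : ℝ) else 0) := by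
          refine Finset.sum_le_sum (fun t _ => ?_)
          split_ifs
          · exact happ _
          · simp
      _ = 4 / 100 := by rw [line_card_real]; norm_num
  have hsumW : |∑ t, a (.inl t) / A - ((∑ t, T (.inl t) : ℤ) : ℝ)| ≤ 16 / 100 := by
    push_cast
    rw [← Finset.sum_sub_distrib]
    refine (Finset.abs_sum_le_sum_abs _ _).trans ?_
    calc ∑ t, |a (.inl t) / A - (T (.inl t) : ℝ)| ≤ ∑ _t : Fin 16, (1 / 100 : ℝ) :=
          Finset.sum_le_sum (fun t _ => happ _)
      _ = 16 / 100 := by simp; norm_num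
  -- g is small
  have hWle : a (.inr (.inr ())) / A ≤ 1 :=
    (div_le_one hApos).2 (hp0 _ (Finset.mem_univ _))
  have hsumnn : 0 ≤ ∑ t, a (.inl t) / A :=
    Finset.sum_nonneg (fun t _ => (div_pos (hpos _) hApos).le)
  have hG1 : G ≤ 1 / 3 := by linarith
  -- integrality on the lines
  have hline : ∀ l, ∑ t, (if inc l t then T (.inl t) else 0) = 2 * T (.inr (.inl l)) := by
    intro l
    have h1 := abs_le.1 (happ (.inr (.inl l)))
    have h2 := abs_le.1 (hsumS l)
    have h3 := hS' l
    set N : ℤ := ∑ t, (if inc l t then T (.inl t) else 0) with hN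
    have h4 : ((2 * T (.inr (.inl l)) - N : ℤ) : ℝ) < 1 := by push_cast; linarith
    have h5 : (-1 : ℝ) < ((2 * T (.inr (.inl l)) - N : ℤ) : ℝ) := by push_cast; linarith
    have h4' : 2 * T (.inr (.inl l)) - N < 1 := by exact_mod_cast h4
    have h5' : -1 < 2 * T (.inr (.inl l)) - N := by exact_mod_cast h5
    omega
  have hG2 : G ≤ 3 / 100 := by
    have h1 := abs_le.1 (happ (.inr (.inl 0)))
    have h2 := abs_le.1 (hsumS 0)
    have h3 := hS' 0
    have h4 := hline 0
    rw [h4] at h2
    push_cast at h2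
    linarith
  have hwhole : ∑ t, T (.inl t) = 4 * T (.inr (.inr ())) := by
    have h1 := abs_le.1 (happ (.inr (.inr ())))
    have h2 := abs_le.1 hsumW
    set N : ℤ := ∑ t, T (.inl t) with hN
    have h4 : ((4 * T (.inr (.inr ())) - N : ℤ) : ℝ) < 1 := by push_cast; linarith
    have h5 : (-1 : ℝ) < ((4 * T (.inr (.inr ())) - N : ℤ) : ℝ) := by push_cast; linarith
    have h4' : 4 * T (.inr (.inr ())) - N < 1 := by exact_mod_cast h4
    have h5' : -1 < 4 * T (.inr (.inr ())) - N := by exact_mod_cast h5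
    omega
  obtain ⟨z1, z2, z3⟩ := no_pattern (fun t => T (.inl t)) (fun l => T (.inr (.inl l)))
    (T (.inr (.inr ()))) (fun t => hT01 _) (fun l => hT01 _) (hT01 _) hline hwhole
  rcases hp : p0 with t | l | u
  · have := z1 t; rw [← hp] at this; omega
  · have := z2 l; rw [← hp] at this; omega
  · have h3 := z3
    cases u
    rw [← hp] at h3; omega

/-- **The 33-point set is not diameter-Ramsey.** -/
theorem not_dr : ∃ m : ℕ, 1 ≤ m ∧ ∀ (n : ℕ) (R : Finset (EuclideanSpace ℝ (Fin n))),
    (∀ x ∈ R, ∀ y ∈ R, dist x y ^ 2 ≤ 32) → ∃ c : EuclideanSpace ℝ (Fin n) → Fin m,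
      ∀ y : I → EuclideanSpace ℝ (Fin n), (∀ p, y p ∈ R) → IsCopy y →
        ¬ ∃ i, ∀ p, c (y p) = i := by
  obtain ⟨m, hm, χ, hχ⟩ := logcolor (1 / 100) (by norm_num) (by norm_num)
  refine ⟨m, hm, fun n R hR => ?_⟩
  rcases R.eq_empty_or_nonempty with hemp | hne
  · subst hemp
    refine ⟨fun _ => ⟨0, hm⟩, fun y hy => ?_⟩
    exact absurd (hy (.inl 0)) (by simp)
  · obtain ⟨o, ho⟩ := jung R hne hR
    refine ⟨fun x => χ (16 - dist x o ^ 2), fun y hyR hy => ?_⟩
    rintro ⟨i, hi⟩
    refine no_mono (fun p => 16 - dist (y p) o ^ 2) (fun p => ?_) (fun s l => ?_)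
      (fun p q hpq => ?_)
    · have := ho _ (hyR p); show 0 < 16 - dist (y p) o ^ 2; linarith
    · exact depth_le y hy o (wt s l) (wt_sum s l) (wt_zero s l)
    · have hp := ho _ (hyR p)
      have hq := ho _ (hyR q)
      exact hχ _ _ (by linarith) (by linarith) ((hi p).trans (hi q).symm) hpq

end Pool.Agent.Helper61.NotDR
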