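import Mathlib
import Pool.Agent.Helper1.DRDef
import Pool.Agent.Helper61.NotDR

/-!
# Final glue for S08190
-/

set_option autoImplicit false

namespace Pool.Agent.Helper61.NotDR

open Finset Pool.Agent.Helper1

/-- the 33 points in `ℝ¹⁶` -/
noncomputable def pt (p : I) : EuclideanSpace ℝ (Fin 16) :=
  WithLp.toLp 2 (fun x => (vecZ p x : ℝ))

lemma dist_pt (p q : I) : dist (pt p) (pt q) ^ 2 = (sqd p q : ℝ) := by
  rw [EuclideanSpace.dist_eq, Real.sq_sqrt (Finset.sum_nonneg (fun _ _ => sq_nonneg _))]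
  simp only [pt, sqd, Int.cast_sum, Int.cast_pow, Int.cast_sub, Real.dist_eq, sq_abs]

lemma sqd_pos : ∀ p q : I, p ≠ q → 0 < sqd p q := by decide

lemma sqd_le : ∀ p q : I, sqd p q ≤ 32 := by decide

lemma pt_inj : Function.Injective pt := by
  intro p q h
  by_contra hne
  have h1 := dist_pt p q
  rw [h, dist_self] at h1
  have h2 : (0 : ℝ) < sqd p q := by exact_mod_cast sqd_pos p q hne
  rw [← h1] at h2
  norm_num at h2

lemma dist_pt_le (p q : I) : dist (pt p) (pt q) ≤ Real.sqrt 32 := by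
  apply Real.le_sqrt_of_sq_le
  rw [dist_pt]
  exact_mod_cast sqd_le p q

lemma dist_pt_far : dist (pt (.inl 0)) (pt (.inl 1)) = Real.sqrt 32 := by
  rw [eq_comm, Real.sqrt_eq_iff_mul_self_eq (by norm_num) dist_nonneg, ← sq, dist_pt]
  have : sqd (.inl 0) (.inl 1) = 32 := by decide
  rw [this]; norm_num

open Classical in
/-- the set -/
noncomputable def PP : Finset (EuclideanSpace ℝ (Fin 16)) := Finset.univ.image pt

lemma mem_PP {x : EuclideanSpace ℝ (Fin 16)} : x ∈ PP ↔ ∃ p, pt p = x := by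
  simp only [PP, Finset.mem_image, Finset.mem_univ, true_and]

lemma diam_PP : Metric.diam (PP : Set (EuclideanSpace ℝ (Fin 16))) = Real.sqrt 32 := by
  apply le_antisymm
  · refine Metric.diam_le_of_forall_dist_le (Real.sqrt_nonneg _) ?_
    intro x hx y hy
    obtain ⟨p, rfl⟩ := mem_PP.1 (Finset.mem_coe.1 hx)
    obtain ⟨q, rfl⟩ := mem_PP.1 (Finset.mem_coe.1 hy)
    exact dist_pt_le p q
  · rw [← dist_pt_far]
    exact Metric.dist_le_diam_of_mem PP.finite_toSet.isBounded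
      (Finset.mem_coe.2 (mem_PP.2 ⟨_, rfl⟩)) (Finset.mem_coe.2 (mem_PP.2 ⟨_, rfl⟩))

theorem glue (almost : ∀ r : ℕ, 1 ≤ r → ∀ ε : ℝ, 0 < ε →
      ∃ (n : ℕ) (R : Finset (EuclideanSpace ℝ (Fin n))),
        (∀ c : EuclideanSpace ℝ (Fin n) → Fin r, ∃ y : I → EuclideanSpace ℝ (Fin n),
          (∀ p, y p ∈ R) ∧ IsCopy y ∧ ∃ i, ∀ p, c (y p) = i) ∧
        ∀ x ∈ R, ∀ y ∈ R, dist x y ^ 2 ≤ 32 + ε) :
    ¬ (∀ (d : ℕ) (P : Finset (EuclideanSpace ℝ (Fin d))),
      (∀ r : ℕ, 1 ≤ r → ∀ ε : ℝ, 0 < ε →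
        ∃ (n : ℕ) (R : Finset (EuclideanSpace ℝ (Fin n))),
          (∀ c : EuclideanSpace ℝ (Fin n) → Fin r,
            ∃ f : EuclideanSpace ℝ (Fin d) → EuclideanSpace ℝ (Fin n),
              (∀ x ∈ P, f x ∈ R) ∧
              (∀ x ∈ P, ∀ y ∈ P, dist (f x) (f y) = dist x y) ∧
              ∃ i : Fin r, ∀ x ∈ P, c (f x) = i) ∧
          Metric.diam (R : Set (EuclideanSpace ℝ (Fin n)))
            ≤ Metric.diam (P : Set (EuclideanSpace ℝ (Fin d))) + ε) →
      (∀ r : ℕ, 1 ≤ r →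
        ∃ (n : ℕ) (R : Finset (EuclideanSpace ℝ (Fin n))),
          (∀ c : EuclideanSpace ℝ (Fin n) → Fin r,
            ∃ f : EuclideanSpace ℝ (Fin d) → EuclideanSpace ℝ (Fin n),
              (∀ x ∈ P, f x ∈ R) ∧
              (∀ x ∈ P, ∀ y ∈ P, dist (f x) (f y) = dist x y) ∧
              ∃ i : Fin r, ∀ x ∈ P, c (f x) = i) ∧
          Metric.diam (R : Set (EuclideanSpace ℝ (Fin n)))
            = Metric.diam (P : Set (EuclideanSpace ℝ (Fin d))))) := by
  intro H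
  obtain ⟨m, hm, hnot⟩ := not_dr
  have hH := H 16 PP ?_ m hm
  · obtain ⟨n, R, hR, hdiam⟩ := hH
    rw [diam_PP] at hdiam
    obtain ⟨c, hc⟩ := hnot n R (fun x hx y hy => by
      have h1 : dist x y ≤ Real.sqrt 32 := by
        rw [← hdiam]
        exact Metric.dist_le_diam_of_mem R.finite_toSet.isBounded
          (Finset.mem_coe.2 hx) (Finset.mem_coe.2 hy)
      calc dist x y ^ 2 ≤ Real.sqrt 32 ^ 2 := pow_le_pow_left₀ dist_nonneg h1 2
        _ = 32 := Real.sq_sqrt (by norm_num))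
    obtain ⟨f, hf1, hf2, i, hi⟩ := hR c
    refine hc (fun p => f (pt p)) (fun p => hf1 _ (mem_PP.2 ⟨p, rfl⟩)) (fun p q => ?_)
      ⟨i, fun p => hi _ (mem_PP.2 ⟨p, rfl⟩)⟩
    rw [hf2 _ (mem_PP.2 ⟨p, rfl⟩) _ (mem_PP.2 ⟨q, rfl⟩), dist_pt]
  · intro r hr ε hε
    obtain ⟨n, R, hR, hdist⟩ := almost r hr (ε ^ 2) (by positivity)
    refine ⟨n, R, fun c => ?_, ?_⟩
    · obtain ⟨y, hy, hcopy, i, hi⟩ := hR c
      have hinv : ∀ p, Function.invFun pt (pt p) = p :=
        fun p => Function.leftInverse_invFun pt_inj p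
      refine ⟨fun x => y (Function.invFun pt x), ?_, ?_, i, ?_⟩
      · intro x hx
        exact hy _
      · intro x hx z hz
        obtain ⟨p, rfl⟩ := mem_PP.1 hx
        obtain ⟨q, rfl⟩ := mem_PP.1 hz
        simp only [hinv]
        have h1 := hcopy p q
        rw [← dist_pt] at h1
        exact (pow_left_inj₀ dist_nonneg dist_nonneg two_ne_zero).1 h1
      · intro x hx
        exact hi _
    · rw [diam_PP]
      refine Metric.diam_le_of_forall_dist_le (by positivity) ?_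
      intro x hx z hz
      have h1 := hdist x (Finset.mem_coe.1 hx) z (Finset.mem_coe.1 hz)
      have h2 : dist x z ^ 2 ≤ (Real.sqrt 32 + ε) ^ 2 := by
        have h3 : Real.sqrt 32 ^ 2 = 32 := Real.sq_sqrt (by norm_num)
        have h4 : 0 ≤ Real.sqrt 32 * ε := by positivity
        nlinarith
      exact le_of_sq_le_sq h2 (by positivity)

end Pool.Agent.Helper61.NotDR
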