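import Mathlib

set_option autoImplicit false

/-! The polynomial inequality behind the q-log-convexity of the polynomials
`∑ C(n,k)^2 C(n+k,k) q^k`. -/

namespace Pool.Agent.Helper61.Apery

/-- the symmetrised summand -/
def P (n k l : ℚ) : ℚ :=
  (n + 1) * ((n + k) * (n + 1 + k) * (n + 1 - l) ^ 2 * (n - l) ^ 2 +
    (n + l) * (n + 1 + l) * (n + 1 - k) ^ 2 * (n - k) ^ 2) -
  2 * n * (n + k) * (n + l) * (n + 1 - k) ^ 2 * (n + 1 - l) ^ 2

/-- the quadratic form of the certificate -/
def Bq (n j : ℚ) : ℚ := 24 * n ^ 2 - 8 * n * j + j ^ 2 + 32 * n + 2 * j + 64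

/-- first coefficient of the certificate -/
def al (n j : ℚ) : ℚ :=
  j * (j + 2) * (12 * n * (n + 1) - 2 * (2 * n + 1) * j - j ^ 2 - Bq n j)

def cu (n k l : ℚ) : ℚ := (k - l + 1) * (n + k) * (n + 1 - k) ^ 2 * l ^ 2 * (l + 1)

/-- the numerator of the termwise inequality -/
def key (n k l : ℚ) : ℚ :=
  4 * (k + l) ^ 2 * (k + 1) * (l + 1) * P n k l +
    cu n k l * (al n (k + l) + 4 * Bq n (k + l) * l * (k + 1)) +
    cu n l k * (al n (k + l) + 4 * Bq n (k + l) * k * (l + 1))

theorem key_symm (n k l : ℚ) : key n k l = key n l k := by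
  unfold key cu al Bq P
  ring

set_option maxRecDepth 100000 in
theorem key_main (l d m : ℕ) : 0 ≤ key ((l : ℚ) + d + m - 1) (l + d) l := by
  rcases Nat.eq_zero_or_pos d with rfl | hd
  · apply le_of_eq
    unfold key cu al Bq P
    push_cast
    ring
  · obtain ⟨d, rfl⟩ := Nat.exists_eq_add_of_le' hd
    rcases Nat.eq_zero_or_pos l with rfl | hl
    · rcases Nat.eq_zero_or_pos d with rfl | hd2
      · have : key (((0 : ℕ) : ℚ) + ((0 + 1 : ℕ) : ℚ) + m - 1) (((0 : ℕ) : ℚ) + ((0 + 1 : ℕ) : ℚ)) ((0 : ℕ) : ℚ)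
            = 48 * (m : ℚ) ^ 5 + 112 * (m : ℚ) ^ 4 + 80 * (m : ℚ) ^ 3 + 16 * (m : ℚ) ^ 2 := by
          unfold key cu al Bq P
          push_cast
          ring
        rw [this]
        positivity
      · obtain ⟨d, rfl⟩ := Nat.exists_eq_add_of_le' hd2
        unfold key cu al Bq P
        push_cast
        ring_nf
        positivity
    · obtain ⟨l, rfl⟩ := Nat.exists_eq_add_of_le' hl
      rcases Nat.eq_zero_or_pos m with rfl | hm
      · rcases Nat.eq_zero_or_pos d with rfl | hd2
        · apply le_of_eq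
          unfold key cu al Bq P
          push_cast
          ring
        · obtain ⟨d, rfl⟩ := Nat.exists_eq_add_of_le' hd2
          unfold key cu al Bq P
          push_cast
          ring_nf
          positivity
      · obtain ⟨m, rfl⟩ := Nat.exists_eq_add_of_le' hm
        unfold key cu al Bq P
        push_cast
        ring_nf
        positivity

end Pool.Agent.Helper61.Apery
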