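import Pool.Agent.Helper61.AperyKey

set_option autoImplicit false

/-! The telescoping argument for the coefficients of `A (n+2) * A n - A (n+1)^2`. -/

namespace Pool.Agent.Helper61.Apery

open Finset

/-- the coefficient of `q^k` in `A n` -/
def a (n k : ℕ) : ℚ := (n.choose k : ℚ) ^ 2 * ((n + k).choose k : ℚ)

/-- the common factor -/
def b (n k : ℕ) : ℚ := ((n + 2).choose k : ℚ) ^ 2 * ((n + k).choose k : ℚ)

theorem b_nonneg (n k : ℕ) : 0 ≤ b n k := by unfold b; positivity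

theorem b_zero (n k : ℕ) (h : n + 2 < k) : b n k = 0 := by
  unfold b; rw [Nat.choose_eq_zero_of_lt h]; simp

/-- `(n+1) C(n,k) = (n+1-k) C(n+1,k)` -/
theorem ch1 (n k : ℕ) : ((n : ℚ) + 1) * (n.choose k : ℚ) = ((n : ℚ) + 1 - k) * ((n + 1).choose k : ℚ) := by
  rcases le_or_gt k (n + 1) with h | h
  · have := Nat.choose_mul_succ_eq n k
    have h2 : ((n + 1 - k : ℕ) : ℚ) = (n : ℚ) + 1 - k := by
      rw [Nat.cast_sub h]; push_cast; ring
    rw [← h2]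
    have h3 : (n.choose k : ℚ) * ((n + 1 : ℕ) : ℚ) = ((n + 1).choose k : ℚ) * ((n + 1 - k : ℕ) : ℚ) := by
      exact_mod_cast this
    push_cast at h3 ⊢
    linarith
  · rw [Nat.choose_eq_zero_of_lt (by omega : n < k), Nat.choose_eq_zero_of_lt h]; simp

/-- `(n+1) C(n+1+k,k) = (n+1+k) C(n+k,k)` -/
theorem ch2 (n k : ℕ) : ((n : ℚ) + 1) * ((n + 1 + k).choose k : ℚ) =
    ((n : ℚ) + 1 + k) * ((n + k).choose k : ℚ) := by
  have := ch1 (n + k) k
  have e : n + k + 1 = n + 1 + k := by ring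
  rw [e] at this
  push_cast at this
  have h2 : ((n : ℚ) + k + 1 - k) = n + 1 := by ring
  rw [h2] at this
  linarith

/-- `(k+1) C(n+1+k, k+1) = (n+1+k) C(n+k,k)` -/
theorem ch3 (n k : ℕ) : ((k : ℚ) + 1) * ((n + (k + 1)).choose (k + 1) : ℚ) =
    ((n : ℚ) + 1 + k) * ((n + k).choose k : ℚ) := by
  have := Nat.add_one_mul_choose_eq (n + k) k
  have h : ((n + k + 1 : ℕ) : ℚ) * ((n + k).choose k : ℚ) =
      ((n + k + 1).choose (k + 1) : ℚ) * ((k + 1 : ℕ) : ℚ) := by exact_mod_cast this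
  have e : n + (k + 1) = n + k + 1 := by ring
  rw [e]
  push_cast at h
  linarith

/-- `(k+1) C(n+2,k+1) = (n+2-k) C(n+2,k)` -/
theorem ch4 (n k : ℕ) : ((k : ℚ) + 1) * ((n + 2).choose (k + 1) : ℚ) =
    ((n : ℚ) + 2 - k) * ((n + 2).choose k : ℚ) := by
  rcases le_or_gt k (n + 2) with h | h
  · have := Nat.choose_succ_right_eq (n + 2) k
    have h3 : ((n + 2).choose (k + 1) : ℚ) * ((k + 1 : ℕ) : ℚ) =
        ((n + 2).choose k : ℚ) * ((n + 2 - k : ℕ) : ℚ) := by exact_mod_cast this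
    rw [Nat.cast_sub h] at h3
    push_cast at h3
    linarith
  · rw [Nat.choose_eq_zero_of_lt (by omega : n + 2 < k + 1), Nat.choose_eq_zero_of_lt h]; simp

theorem b_ratio (n k : ℕ) : ((k : ℚ) + 1) ^ 3 * b n (k + 1) =
    ((n : ℚ) + 1 + k) * ((n : ℚ) + 2 - k) ^ 2 * b n k := by
  unfold b
  have h3 := ch3 n k
  have h4 := ch4 n k
  calc ((k : ℚ) + 1) ^ 3 * (((n + 2).choose (k + 1) : ℚ) ^ 2 * ((n + (k + 1)).choose (k + 1) : ℚ))
      = (((k : ℚ) + 1) * ((n + 2).choose (k + 1) : ℚ)) ^ 2 *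
        (((k : ℚ) + 1) * ((n + (k + 1)).choose (k + 1) : ℚ)) := by ring
    _ = _ := by rw [h3, h4]; ring

theorem a0 (n k : ℕ) : ((n : ℚ) + 1) ^ 2 * ((n : ℚ) + 2) ^ 2 * a n k =
    b n k * ((n : ℚ) + 2 - k) ^ 2 * ((n : ℚ) + 1 - k) ^ 2 := by
  unfold a b
  have h1 := ch1 n k
  have h2 := ch1 (n + 1) k
  push_cast at h2
  have e1 : (n : ℚ) + 1 + 1 = n + 2 := by ring
  rw [e1] at h2
  calc ((n : ℚ) + 1) ^ 2 * ((n : ℚ) + 2) ^ 2 * ((n.choose k : ℚ) ^ 2 * ((n + k).choose k : ℚ))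
      = (((n : ℚ) + 1) * (n.choose k : ℚ)) ^ 2 * ((n : ℚ) + 2) ^ 2 * ((n + k).choose k : ℚ) := by ring
    _ = ((n : ℚ) + 1 - k) ^ 2 * (((n : ℚ) + 2) * ((n + 1).choose k : ℚ)) ^ 2 *
        ((n + k).choose k : ℚ) := by rw [h1]; ring
    _ = _ := by rw [h2]; ring

theorem a1 (n k : ℕ) : ((n : ℚ) + 1) * ((n : ℚ) + 2) ^ 2 * a (n + 1) k =
    b n k * ((n : ℚ) + 1 + k) * ((n : ℚ) + 2 - k) ^ 2 := by
  unfold a b
  have h1 := ch2 n k
  have h2 := ch1 (n + 1) k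
  push_cast at h2
  have e1 : (n : ℚ) + 1 + 1 = n + 2 := by ring
  rw [e1] at h2
  calc ((n : ℚ) + 1) * ((n : ℚ) + 2) ^ 2 * (((n + 1).choose k : ℚ) ^ 2 * ((n + 1 + k).choose k : ℚ))
      = (((n : ℚ) + 2) * ((n + 1).choose k : ℚ)) ^ 2 *
        (((n : ℚ) + 1) * ((n + 1 + k).choose k : ℚ)) := by ring
    _ = _ := by rw [h1, h2]; ring

theorem a2 (n k : ℕ) : ((n : ℚ) + 1) * ((n : ℚ) + 2) * a (n + 2) k =
    b n k * ((n : ℚ) + 1 + k) * ((n : ℚ) + 2 + k) := by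
  unfold a b
  have h1 := ch2 n k
  have h2 := ch2 (n + 1) k
  push_cast at h2
  have e1 : (n : ℚ) + 1 + 1 = n + 2 := by ring
  have e2 : n + 1 + 1 = n + 2 := by ring
  rw [e1, e2] at h2
  calc ((n : ℚ) + 1) * ((n : ℚ) + 2) * (((n + 2).choose k : ℚ) ^ 2 * ((n + 2 + k).choose k : ℚ))
      = ((n + 2).choose k : ℚ) ^ 2 * ((n : ℚ) + 1) * (((n : ℚ) + 2) * ((n + 2 + k).choose k : ℚ)) := by
        ring
    _ = ((n + 2).choose k : ℚ) ^ 2 * ((n : ℚ) + 2 + k) * (((n : ℚ) + 1) * ((n + 1 + k).choose k : ℚ)) := by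
        rw [h2]; ring
    _ = _ := by rw [h1]; ring

/-- the symmetrised coefficient -/
theorem sym_eq (n k l : ℕ) :
    ((n : ℚ) + 1) ^ 3 * ((n : ℚ) + 2) ^ 4 *
      (a (n + 2) k * a n l + a (n + 2) l * a n k - 2 * (a (n + 1) k * a (n + 1) l)) =
    b n k * b n l * P ((n : ℚ) + 1) k l := by
  have h0k := a0 n k
  have h0l := a0 n l
  have h1k := a1 n k
  have h1l := a1 n l
  have h2k := a2 n k
  have h2l := a2 n l
  have e1 : ((n : ℚ) + 1) ^ 3 * ((n : ℚ) + 2) ^ 4 *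
      (a (n + 2) k * a n l + a (n + 2) l * a n k - 2 * (a (n + 1) k * a (n + 1) l)) =
      ((n : ℚ) + 2) * ((((n : ℚ) + 1) * ((n : ℚ) + 2) * a (n + 2) k) *
        (((n : ℚ) + 1) ^ 2 * ((n : ℚ) + 2) ^ 2 * a n l) +
        (((n : ℚ) + 1) * ((n : ℚ) + 2) * a (n + 2) l) *
        (((n : ℚ) + 1) ^ 2 * ((n : ℚ) + 2) ^ 2 * a n k)) -
      2 * ((n : ℚ) + 1) * ((((n : ℚ) + 1) * ((n : ℚ) + 2) ^ 2 * a (n + 1) k) *
        (((n : ℚ) + 1) * ((n : ℚ) + 2) ^ 2 * a (n + 1) l)) := by ring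
  rw [e1, h0k, h0l, h1k, h1l, h2k, h2l]
  unfold P
  ring

/-- the telescoping sequence -/
def V (n j k : ℕ) : ℚ :=
  if k ≤ j then
    b n k * b n (j - k) * (k : ℚ) ^ 2 * ((n : ℚ) + 1 + (j - k : ℕ)) *
      ((n : ℚ) + 2 - (j - k : ℕ)) ^ 2 * ((k : ℚ) - (j - k : ℕ) - 1) *
      (al ((n : ℚ) + 1) j / (((j - k : ℕ) : ℚ) + 1) + 4 * Bq ((n : ℚ) + 1) j * k)
  else 0

theorem key_nonneg (n k l : ℕ) : 0 ≤ b n k * b n l * key ((n : ℚ) + 1) k l := by
  rcases lt_or_ge (n + 2) k with h | hk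
  · rw [b_zero n k h]; simp
  rcases lt_or_ge (n + 2) l with h | hl
  · rw [b_zero n l h]; simp
  apply mul_nonneg (mul_nonneg (b_nonneg _ _) (b_nonneg _ _))
  have main : ∀ k l : ℕ, k ≤ n + 2 → l ≤ k → 0 ≤ key ((n : ℚ) + 1) k l := by
    intro k l hk hlk
    obtain ⟨d, rfl⟩ := Nat.exists_eq_add_of_le hlk
    obtain ⟨m, hm⟩ := Nat.exists_eq_add_of_le hk
    have := key_main l d m
    have e : (l : ℚ) + d + m - 1 = (n : ℚ) + 1 := by
      have : ((n + 2 : ℕ) : ℚ) = ((l + d + m : ℕ) : ℚ) := by rw [hm]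
      push_cast at this
      linarith
    rw [e] at this
    push_cast
    exact this
  rcases le_total l k with h | h
  · exact main k l hk h
  · rw [key_symm]; exact main l k hl h

theorem term_eq (n j k : ℕ) (hk : k ≤ j) :
    4 * (j : ℚ) ^ 2 * (b n k * b n (j - k) * P ((n : ℚ) + 1) k (j - k : ℕ)) +
      (V n j (k + 1) - V n j k) =
    b n k * b n (j - k) * key ((n : ℚ) + 1) k (j - k : ℕ) /
      (((k : ℚ) + 1) * (((j - k : ℕ) : ℚ) + 1)) := by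
  obtain ⟨l, rfl⟩ := Nat.exists_eq_add_of_le hk
  have e : k + l - k = l := by omega
  rw [e]
  have hk1 : (k : ℚ) + 1 ≠ 0 := by positivity
  have hl1 : (l : ℚ) + 1 ≠ 0 := by positivity
  have hV : V n (k + l) k = b n k * b n l * (k : ℚ) ^ 2 * ((n : ℚ) + 1 + l) *
      ((n : ℚ) + 2 - l) ^ 2 * ((k : ℚ) - l - 1) *
      (al ((n : ℚ) + 1) (k + l) / ((l : ℚ) + 1) + 4 * Bq ((n : ℚ) + 1) (k + l) * k) := by
    unfold V
    rw [if_pos hk, e]
    push_cast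
    rfl
  have hV1 : V n (k + l) (k + 1) = b n k * b n l * ((n : ℚ) + 1 + k) * ((n : ℚ) + 2 - k) ^ 2 *
      (l : ℚ) ^ 2 * ((k : ℚ) - l + 1) *
      (al ((n : ℚ) + 1) (k + l) + 4 * Bq ((n : ℚ) + 1) (k + l) * l * (k + 1)) / ((k : ℚ) + 1) := by
    rcases Nat.eq_zero_or_pos l with rfl | hl
    · unfold V
      rw [if_neg (by omega)]
      simp
    · obtain ⟨l, rfl⟩ := Nat.exists_eq_add_of_le' hl
      unfold V
      rw [if_pos (by omega)]
      have e2 : k + (l + 1) - (k + 1) = l := by omega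
      rw [e2]
      have hbk := b_ratio n k
      have hbl := b_ratio n l
      have hl1' : (l : ℚ) + 1 ≠ 0 := by positivity
      have e3 : b n (k + 1) = ((n : ℚ) + 1 + k) * ((n : ℚ) + 2 - k) ^ 2 * b n k / ((k : ℚ) + 1) ^ 3 := by
        rw [eq_div_iff (by positivity)]
        linarith
      have e4 : ((n : ℚ) + 1 + l) * ((n : ℚ) + 2 - l) ^ 2 * b n l = ((l : ℚ) + 1) ^ 3 * b n (l + 1) :=
        hbl.symm
      push_cast
      rw [e3]
      have e5 : ((n : ℚ) + 1 + k) * ((n : ℚ) + 2 - k) ^ 2 * b n k / ((k : ℚ) + 1) ^ 3 * b n l *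
          ((k : ℚ) + 1) ^ 2 * ((n : ℚ) + 1 + l) * ((n : ℚ) + 2 - l) ^ 2 * ((k : ℚ) + 1 - l - 1) *
          (al ((n : ℚ) + 1) (k + (l + 1)) / ((l : ℚ) + 1) +
            4 * Bq ((n : ℚ) + 1) (k + (l + 1)) * (k + 1)) =
          ((n : ℚ) + 1 + k) * ((n : ℚ) + 2 - k) ^ 2 * b n k / ((k : ℚ) + 1) ^ 3 *
          ((k : ℚ) + 1) ^ 2 * (((n : ℚ) + 1 + l) * ((n : ℚ) + 2 - l) ^ 2 * b n l) *
          ((k : ℚ) + 1 - l - 1) *
          (al ((n : ℚ) + 1) (k + (l + 1)) / ((l : ℚ) + 1) +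
            4 * Bq ((n : ℚ) + 1) (k + (l + 1)) * (k + 1)) := by ring
      rw [e5, e4]
      field_simp
      ring
  rw [hV, hV1]
  unfold key cu
  have e6 : (n : ℚ) + 1 + 1 = n + 2 := by ring
  push_cast
  field_simp
  ring

/-- nonnegativity of the symmetrised sum -/
theorem sum_nonneg_P (n j : ℕ) :
    0 ≤ ∑ k ∈ range (j + 1), b n k * b n (j - k) * P ((n : ℚ) + 1) k (j - k : ℕ) := by
  rcases Nat.eq_zero_or_pos j with rfl | hj
  · apply le_of_eq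
    simp [P]
    right
    ring
  · have htel : ∑ k ∈ range (j + 1), (V n j (k + 1) - V n j k) = 0 := by
      rw [Finset.sum_range_sub]
      have h1 : V n j (j + 1) = 0 := by unfold V; rw [if_neg (by omega)]
      have h0 : V n j 0 = 0 := by unfold V; simp
      rw [h1, h0, sub_zero]
    have hsum : 0 ≤ ∑ k ∈ range (j + 1),
        (4 * (j : ℚ) ^ 2 * (b n k * b n (j - k) * P ((n : ℚ) + 1) k (j - k : ℕ)) +
          (V n j (k + 1) - V n j k)) := by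
      apply Finset.sum_nonneg
      intro k hk
      rw [term_eq n j k (by rw [Finset.mem_range] at hk; omega)]
      apply div_nonneg (key_nonneg n k (j - k)) (by positivity)
    rw [Finset.sum_add_distrib, htel, add_zero, ← Finset.mul_sum] at hsum
    have hj' : (0 : ℚ) < 4 * (j : ℚ) ^ 2 := by positivity
    exact nonneg_of_mul_nonneg_right hsum hj'

/-- nonnegativity of the coefficients -/
theorem coeff_nonneg (n j : ℕ) :
    0 ≤ ∑ x ∈ antidiagonal j, (a (n + 2) x.1 * a n x.2 - a (n + 1) x.1 * a (n + 1) x.2) := by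
  have hswap : ∑ x ∈ antidiagonal j, (a (n + 2) x.1 * a n x.2 - a (n + 1) x.1 * a (n + 1) x.2) =
      ∑ x ∈ antidiagonal j, (a (n + 2) x.2 * a n x.1 - a (n + 1) x.2 * a (n + 1) x.1) := by
    have := Finset.Nat.sum_antidiagonal_swap (n := j)
      (f := fun x : ℕ × ℕ => a (n + 2) x.1 * a n x.2 - a (n + 1) x.1 * a (n + 1) x.2)
    rw [← this]
    rfl
  have h2 : 2 * ∑ x ∈ antidiagonal j, (a (n + 2) x.1 * a n x.2 - a (n + 1) x.1 * a (n + 1) x.2) =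
      ∑ x ∈ antidiagonal j, (a (n + 2) x.1 * a n x.2 + a (n + 2) x.2 * a n x.1 -
        2 * (a (n + 1) x.1 * a (n + 1) x.2)) := by
    rw [two_mul]
    nth_rw 2 [hswap]
    rw [← Finset.sum_add_distrib]
    apply Finset.sum_congr rfl
    intro x _
    ring
  have h3 : ((n : ℚ) + 1) ^ 3 * ((n : ℚ) + 2) ^ 4 *
      (2 * ∑ x ∈ antidiagonal j, (a (n + 2) x.1 * a n x.2 - a (n + 1) x.1 * a (n + 1) x.2)) =
      ∑ k ∈ range (j + 1), b n k * b n (j - k) * P ((n : ℚ) + 1) k (j - k : ℕ) := by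
    rw [h2, Finset.mul_sum, ← Finset.Nat.sum_antidiagonal_eq_sum_range_succ
      (fun k l => b n k * b n l * P ((n : ℚ) + 1) k l)]
    apply Finset.sum_congr rfl
    intro x _
    exact sym_eq n x.1 x.2
  have h4 := sum_nonneg_P n j
  rw [← h3] at h4
  have h5 : (0 : ℚ) < ((n : ℚ) + 1) ^ 3 * ((n : ℚ) + 2) ^ 4 := by positivity
  have h6 := nonneg_of_mul_nonneg_right h4 h5
  linarith

end Pool.Agent.Helper61.Apery
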