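import Pool.Agent.Helper61.CosetGraph

set_option autoImplicit false

/-! Finite vertex stabilisers and the absence of almost transitive 2-factors. -/

namespace Pool.Agent.Helper61

section

variable {Γ : Type} [Group Γ] {a b : Γ}

namespace Hyp

variable (H : Hyp a b)

include H

/-- if some automorphism turns an arc of one type into an arc of the other type then all arcs are
equivalent -/
theorem arc_move {φ : H.Gr ≃g H.Gr} {y f : Γ} (hf : St a f) (h0 : φ (cs b y) = cs b y)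
    (h1 : φ (cs b (y * f)) = cs b (y * f⁻¹)) (u v e g : Γ) (he : St a e) (hg : St a g) :
    ∃ ψ : H.Gr ≃g H.Gr, ψ (cs b u) = cs b v ∧ ψ (cs b (u * e)) = cs b (v * g) := by
  by_cases heg : e = g
  · refine ⟨H.Lm (v * u⁻¹), ?_, ?_⟩
    · rw [H.Lm_cs]; congr 1; group
    · rw [H.Lm_cs, heg]; congr 1; group
  · have hg' : g = e⁻¹ := by
      rcases H.St_two he he.inv hg (by
        intro h
        have h2 := H.sq he
        rw [← h] at h2
        exact H.ne_one he (mul_eq_left.1 h2)) with h | h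
      · exact absurd h.symm heg
      · exact h
    by_cases hef : e = f
    · refine ⟨((H.Lm (y * u⁻¹)).trans φ).trans (H.Lm (v * y⁻¹)), ?_, ?_⟩
      · show H.Lm (v * y⁻¹) (φ (H.Lm (y * u⁻¹) (cs b u))) = _
        rw [H.Lm_cs, inv_mul_cancel_right, h0, H.Lm_cs, inv_mul_cancel_right]
      · show H.Lm (v * y⁻¹) (φ (H.Lm (y * u⁻¹) (cs b (u * e)))) = _
        rw [H.Lm_cs, ← mul_assoc, inv_mul_cancel_right, hef, h1, H.Lm_cs, ← mul_assoc,
          inv_mul_cancel_right, hg', hef]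
    · have hef' : e = f⁻¹ := by
        rcases H.St_two hf hf.inv he (by
          intro h
          have h2 := H.sq hf
          rw [← h] at h2
          exact H.ne_one hf (mul_eq_left.1 h2)) with h | h
        · exact absurd h hef
        · exact h
      have h0' : φ.symm (cs b y) = cs b y := by
        rw [← h0]; rw [φ.symm_apply_apply]; exact h0.symm ▸ rfl
      have h1' : φ.symm (cs b (y * f⁻¹)) = cs b (y * f) := by
        rw [← h1]; exact φ.symm_apply_apply _
      refine ⟨((H.Lm (y * u⁻¹)).trans φ.symm).trans (H.Lm (v * y⁻¹)), ?_, ?_⟩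
      · show H.Lm (v * y⁻¹) (φ.symm (H.Lm (y * u⁻¹) (cs b u))) = _
        rw [H.Lm_cs, inv_mul_cancel_right, h0', H.Lm_cs, inv_mul_cancel_right]
      · show H.Lm (v * y⁻¹) (φ.symm (H.Lm (y * u⁻¹) (cs b (u * e)))) = _
        rw [H.Lm_cs, ← mul_assoc, inv_mul_cancel_right, hef', h1', H.Lm_cs, ← mul_assoc,
          inv_mul_cancel_right, hg', hef', inv_inv]

theorem arc_rep' {u v : VV b} (h : H.Gr.Adj u v) : ∃ x e, St a e ∧ u = cs b x ∧ v = cs b (x * e) := by
  obtain ⟨y, e, he, hy, hv⟩ := h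
  exact ⟨y, e, he, hy, hv⟩

theorem DD_one (hT : ¬ TT H.Gr 1) : DD H.Gr 1 := by
  intro p hp φ hfix
  by_contra hne
  apply hT
  have h0 := hfix 0 (by norm_num) (by norm_num)
  have h1 := hfix 1 (by norm_num) (by norm_num)
  have hadj := (hp 0).1
  rw [zero_add] at hadj
  obtain ⟨x, e, he, hx, hxe⟩ := H.arc_rep hadj
  have e1 := hp.ext 0
  rw [zero_add, zero_add, hx, hxe] at e1
  have e2 := (hp.map φ).ext 0
  simp only [zero_add] at e2
  rw [h0, h1, hx, hxe] at e2
  have hne' : φ (p 2) ≠ p 2 := by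
    have : ((1 : ℕ) : ℤ) + 1 = 2 := by norm_num
    rwa [this] at hne
  obtain ⟨f, hf, hpf⟩ := H.ext_cases he e1
  obtain ⟨f', hf', hpf'⟩ := H.ext_cases he e2
  have hff : f' = f⁻¹ := by
    rcases H.St_two hf hf.inv hf' (by
      intro h
      have h2 := H.sq hf
      rw [← h] at h2
      exact H.ne_one hf (mul_eq_left.1 h2)) with h | h
    · exfalso; apply hne'; rw [hpf', h, hpf]
    · exact h
  intro q r hq hr
  have hqa := (hq 0).1
  have hra := (hr 0).1
  rw [zero_add] at hqa hra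
  obtain ⟨u, g, hg, hu, hug⟩ := H.arc_rep' hqa
  obtain ⟨v, k, hk, hv, hvk⟩ := H.arc_rep' hra
  obtain ⟨ψ, hψ0, hψ1⟩ := H.arc_move (φ := φ) (y := x * b) (f := f) hf (by
    rw [H.cs_b, ← hx]; exact h1) (by
    rw [← hpf, hpf', hff]) u v g k hg hk
  refine ⟨ψ, ?_⟩
  intro i hi hi'
  rcases (by push_cast at hi'; omega : i = 0 ∨ i = 1) with rfl | rfl
  · rw [hu, hv]; exact hψ0
  · rw [hug, hvk]; exact hψ1

theorem exists_DD : ∃ s, 1 ≤ s ∧ DD H.Gr s := by
  by_contra hno
  push Not at hno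
  have : ∀ n, TT H.Gr n := by
    intro n
    induction n with
    | zero => exact H.tt0
    | succ n ih =>
      by_contra hT
      rcases Nat.eq_zero_or_pos n with rfl | hn
      · exact hno 1 (le_refl _) (H.DD_one hT)
      · exact hno n hn (DD_of_TT H.two n hn ih hT)
  exact H.not_tt25 (this 25)

theorem nbhd (x : Γ) : H.Gr.neighborSet (cs b x) =
    {cs b (x * a), cs b (x * a⁻¹), cs b (x * b * a), cs b (x * b * a⁻¹)} := by
  ext v
  simp only [SimpleGraph.mem_neighborSet, Set.mem_insert_iff, Set.mem_singleton_iff]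
  constructor
  · intro h
    obtain ⟨e, he, h1⟩ := H.adj_cases h
    rcases he with rfl | rfl <;> rcases h1 with h1 | h1 <;> simp [h1]
  · rintro (rfl | rfl | rfl | rfl)
    · exact H.adj (Or.inl rfl)
    · exact H.adj (Or.inr rfl)
    · exact H.adj' (Or.inl rfl)
    · exact H.adj' (Or.inr rfl)

theorem nbhd_finite (v : VV b) : (H.Gr.neighborSet v).Finite := by
  obtain ⟨x, rfl⟩ := cs_surj v
  rw [H.nbhd]
  exact Set.toFinite _

theorem nbhd_ncard (v : VV b) : (H.Gr.neighborSet v).ncard = 4 := by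
  obtain ⟨x, rfl⟩ := cs_surj v
  have hA : St a a := Or.inl rfl
  have hA' : St a a⁻¹ := Or.inr rfl
  have h1 : cs b (x * a) ≠ cs b (x * a⁻¹) := H.step_ne hA
  have h2 : cs b (x * a) ≠ cs b (x * b * a) := H.cross_ne hA hA
  have h3 : cs b (x * a) ≠ cs b (x * b * a⁻¹) := H.cross_ne hA hA'
  have h4 : cs b (x * a⁻¹) ≠ cs b (x * b * a) := H.cross_ne hA' hA
  have h5 : cs b (x * a⁻¹) ≠ cs b (x * b * a⁻¹) := H.cross_ne hA' hA'
  have h6 : cs b (x * b * a) ≠ cs b (x * b * a⁻¹) := H.step_ne hA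
  rw [H.nbhd, Set.ncard_insert_of_notMem (by simp [h1, h2, h3]) (Set.toFinite _),
    Set.ncard_insert_of_notMem (by simp [h4, h5]) (Set.toFinite _), Set.ncard_pair h6]

theorem reach (γ : Γ) : ∀ x : Γ, H.Gr.Reachable (cs b x) (cs b (x * γ)) := by
  have hγ : γ ∈ Subgroup.closure ({a, b} : Set Γ) := by rw [H.gen]; exact Subgroup.mem_top _
  induction hγ using Subgroup.closure_induction with
  | mem y hy =>
    intro x
    simp only [Set.mem_insert_iff, Set.mem_singleton_iff] at hy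
    rcases hy with rfl | rfl
    · exact (H.adj (Or.inl rfl)).reachable
    · rw [H.cs_b]
  | one => intro x; rw [mul_one]
  | mul y z _ _ hy hz =>
    intro x
    rw [← mul_assoc]
    exact (hy x).trans (hz (x * y))
  | inv y _ hy =>
    intro x
    have := hy (x * y⁻¹)
    rw [inv_mul_cancel_right] at this
    exact this.symm

theorem preconn : H.Gr.Preconnected := by
  intro u v
  obtain ⟨x, rfl⟩ := cs_surj u
  obtain ⟨y, rfl⟩ := cs_surj v
  have := H.reach (x⁻¹ * y) x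
  rwa [mul_inv_cancel_left] at this

theorem conn : H.Gr.Connected := by
  haveI : Nonempty (VV b) := ⟨cs b 1⟩
  exact ⟨H.preconn⟩

theorem vtrans (u v : VV b) : ∃ φ : H.Gr ≃g H.Gr, φ u = v := by
  obtain ⟨x, rfl⟩ := cs_surj u
  obtain ⟨y, rfl⟩ := cs_surj v
  refine ⟨H.Lm (y * x⁻¹), ?_⟩
  rw [H.Lm_cs, inv_mul_cancel_right]

theorem infin : Infinite (VV b) := by
  by_contra hc
  rw [not_infinite_iff_finite] at hc
  have hfi : (Subgroup.zpowers b).FiniteIndex := Subgroup.finiteIndex_of_finite_quotient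
  have htop := H.nofi _ hfi
  have ha : a ∈ Subgroup.zpowers b := by rw [htop]; exact Subgroup.mem_top _
  rcases H.mem_B.1 ha with h | h
  · exact H.a1 h
  · exact H.b_ne (Or.inl rfl) h.symm

/-- balls -/
def Ball (w : VV b) : ℕ → Set (VV b)
  | 0 => {w}
  | n + 1 => ⋃ v ∈ Ball w n, H.Gr.neighborSet v

theorem ball_finite (w : VV b) (n : ℕ) : (H.Ball w n).Finite := by
  induction n with
  | zero => exact Set.finite_singleton w
  | succ n ih => exact Set.Finite.biUnion ih (fun v _ => H.nbhd_finite v)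

theorem maps_finite (v w : VV b) : {ψ : H.Gr ≃g H.Gr | ψ v = w}.Finite := by
  obtain ⟨x, rfl⟩ := cs_surj v
  obtain ⟨s, hs, hD⟩ := H.exists_DD
  have hp := H.nb_const x (e := a) (Or.inl rfl)
  set p : ℤ → VV b := fun i : ℤ => cs b (x * (a * b) ^ i) with hpdef
  have hp0 : p 0 = cs b x := by simp [hpdef]
  have hin : ∀ ψ : H.Gr ≃g H.Gr, ψ (cs b x) = w → ∀ n : ℕ, ψ (p n) ∈ H.Ball w n := by
    intro ψ hψ n
    induction n with
    | zero =>
      show ψ (p ((0 : ℕ) : ℤ)) ∈ ({w} : Set (VV b))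
      rw [Nat.cast_zero, hp0, hψ]; rfl
    | succ n ih =>
      show ψ (p ((n + 1 : ℕ) : ℤ)) ∈ ⋃ v ∈ H.Ball w n, H.Gr.neighborSet v
      rw [Set.mem_iUnion₂]
      refine ⟨ψ (p n), ih, ?_⟩
      rw [SimpleGraph.mem_neighborSet, ψ.map_adj_iff]
      push_cast
      exact (hp n).1
  have hfin : (Set.pi Set.univ (fun i : Fin (s + 1) => H.Ball w i)).Finite :=
    Set.Finite.pi (fun i => H.ball_finite w i)
  refine Set.Finite.of_injOn (f := fun (ψ : H.Gr ≃g H.Gr) (i : Fin (s + 1)) => ψ (p (i : ℕ)))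
    ?_ ?_ hfin
  · intro ψ hψ i _
    exact hin ψ hψ i
  · intro ψ hψ χ hχ heq
    have hid := eq_id hs hD H.thru H.preconn H.cross hp (ψ.trans χ.symm) (by
      intro i hi hi'
      have := congrFun heq ⟨i.toNat, by omega⟩
      simp only [Int.toNat_of_nonneg hi] at this
      show χ.symm (ψ (p i)) = p i
      rw [this, χ.symm_apply_apply])
    apply RelIso.ext
    intro y
    have h1 : χ.symm (ψ y) = y := hid y
    rw [← h1]
    rw [χ.apply_symm_apply, h1]

/-- the elements of `Γ` preserving a graph -/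
def Pres (F : SimpleGraph (VV b)) : Subgroup Γ where
  carrier := {γ | ∀ u v, F.Adj (H.Lm γ u) (H.Lm γ v) ↔ F.Adj u v}
  mul_mem' := by
    intro x y hx hy u v
    rw [H.Lm_mul, H.Lm_mul, hx, hy]
  one_mem' := by
    intro u v
    rw [H.Lm_one, H.Lm_one]
  inv_mem' := by
    intro x hx u v
    rw [← hx, ← H.Lm_mul, ← H.Lm_mul, mul_inv_cancel, H.Lm_one, H.Lm_one]

theorem no_factor (F : SimpleGraph (VV b)) (hF : F ≤ H.Gr) (h2 : ∀ v, (F.neighborSet v).ncard = 2)
    (S : Finset (VV b))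
    (hS : ∀ v, ∃ s ∈ S, ∃ φ : H.Gr ≃g H.Gr, (∀ x y, F.Adj (φ x) (φ y) ↔ F.Adj x y) ∧ φ s = v) :
    False := by
  classical
  choose σ hσS φ hφ hφσ using hS
  -- the finite set of automorphisms
  have hfinset : (⋃ s ∈ S, {ψ : H.Gr ≃g H.Gr | ψ (cs b 1) = s}).Finite :=
    Set.Finite.biUnion S.finite_toSet (fun s _ => H.maps_finite _ s)
  let v0 : Γ → VV b := fun γ => H.Lm γ⁻¹ (cs b 1)
  let Φ : Γ → (H.Gr ≃g H.Gr) := fun γ => (H.Lm γ⁻¹).trans (φ (v0 γ)).symm
  have hΦ : ∀ γ, Φ γ ∈ ⋃ s ∈ S, {ψ : H.Gr ≃g H.Gr | ψ (cs b 1) = s} := by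
    intro γ
    rw [Set.mem_iUnion₂]
    refine ⟨σ (v0 γ), hσS _, ?_⟩
    show (φ (v0 γ)).symm (v0 γ) = σ (v0 γ)
    nth_rw 2 [← hφσ (v0 γ)]
    exact (φ (v0 γ)).symm_apply_apply _
  have hK : Finite (Γ ⧸ H.Pres F) := by
    haveI := hfinset.to_subtype
    refine Finite.of_injective
      (fun q : Γ ⧸ H.Pres F => (⟨Φ q.out, hΦ _⟩ :
        (⋃ s ∈ S, {ψ : H.Gr ≃g H.Gr | ψ (cs b 1) = s} : Set (H.Gr ≃g H.Gr)))) ?_
    intro q r hqr
    have heq : Φ q.out = Φ r.out := congrArg Subtype.val hqr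
    rw [← q.out_eq', ← r.out_eq']
    rw [QuotientGroup.eq]
    -- Lm (q⁻¹ r)
    set x := q.out with hx
    set y := r.out with hy
    have key : ∀ w, H.Lm (x⁻¹ * y) w = (φ (v0 x)) ((φ (v0 y)).symm w) := by
      intro w
      have h1 : (Φ x) (H.Lm y w) = (Φ y) (H.Lm y w) := by rw [heq]
      have h3 : (φ (v0 x)).symm (H.Lm x⁻¹ (H.Lm y w)) = (φ (v0 y)).symm (H.Lm y⁻¹ (H.Lm y w)) := h1
      rw [← H.Lm_mul, ← H.Lm_mul, inv_mul_cancel, H.Lm_one] at h3
      rw [← h3, (φ (v0 x)).apply_symm_apply]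
    intro u v
    rw [key, key, hφ]
    rw [← hφ (v0 y), (φ (v0 y)).apply_symm_apply, (φ (v0 y)).apply_symm_apply]
  have hfi : (H.Pres F).FiniteIndex := Subgroup.finiteIndex_of_finite_quotient
  have htop := H.nofi _ hfi
  have hpres : ∀ γ u v, F.Adj (H.Lm γ u) (H.Lm γ v) ↔ F.Adj u v := by
    intro γ
    have : γ ∈ H.Pres F := by rw [htop]; exact Subgroup.mem_top _
    exact this
  -- an edge of F
  have hne : (F.neighborSet (cs b 1)).Nonempty := by
    apply Set.nonempty_of_ncard_ne_zero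
    rw [h2]; norm_num
  obtain ⟨w, hw⟩ := hne
  rw [SimpleGraph.mem_neighborSet] at hw
  obtain ⟨z, e, he, hz, hwe⟩ := H.arc_rep' (hF hw)
  rw [hz, hwe] at hw
  have hall : ∀ y : Γ, F.Adj (cs b y) (cs b (y * e)) := by
    intro y
    have := (hpres (y * z⁻¹) _ _).2 hw
    rwa [H.Lm_cs, H.Lm_cs, inv_mul_cancel_right, ← mul_assoc, inv_mul_cancel_right] at this
  have hall' : ∀ y : Γ, F.Adj (cs b y) (cs b (y * e⁻¹)) := by
    intro y
    have := hall (y * e⁻¹)
    rw [inv_mul_cancel_right] at this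
    exact this.symm
  have hall2 : ∀ (y g : Γ), St a g → F.Adj (cs b y) (cs b (y * g)) := by
    intro y g hg
    rcases H.St_two he he.inv hg (by
      intro h
      have h2 := H.sq he
      rw [← h] at h2
      exact H.ne_one he (mul_eq_left.1 h2)) with h | h
    · rw [h]; exact hall y
    · rw [h]; exact hall' y
  have hsame : F.neighborSet (cs b 1) = H.Gr.neighborSet (cs b 1) := by
    ext v
    constructor
    · intro h; exact hF h
    · intro h
      obtain ⟨y, g, hg, hy, hv⟩ := H.arc_rep' h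
      show F.Adj (cs b 1) v
      rw [hy, hv]
      exact hall2 y g hg
  have h4 := H.nbhd_ncard (cs b 1)
  rw [← hsame, h2] at h4
  norm_num at h4

end Hyp

end

end Pool.Agent.Helper61
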