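import Pool.Agent.Helper61.TutteGraph

set_option autoImplicit false

/-! The line graph of the cubic coset graph of a group generated by elements of orders three and two. -/

namespace Pool.Agent.Helper61

/-- the hypotheses on the generating pair -/
structure Hyp {Γ : Type} [Group Γ] (a b : Γ) : Prop where
  a3 : a * a * a = 1
  b2 : b * b = 1
  gen : Subgroup.closure ({a, b} : Set Γ) = ⊤
  a1 : a ≠ 1
  b1 : b ≠ 1
  n2 : ∀ e e' : Γ, (e = a ∨ e = a⁻¹) → (e' = a ∨ e' = a⁻¹) → e * b * e' * b ≠ 1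
  n3 : ∀ e e' e'' : Γ, (e = a ∨ e = a⁻¹) → (e' = a ∨ e' = a⁻¹) → (e'' = a ∨ e'' = a⁻¹) →
    e * b * e' * b * e'' * b ≠ 1
  r25 : (a * b) ^ 25 = 1
  nofi : ∀ K : Subgroup Γ, K.FiniteIndex → K = ⊤

section

variable {Γ : Type} [Group Γ] {a b : Γ}

/-- vertices: left cosets of `⟨b⟩` -/
abbrev VV (b : Γ) : Type := Γ ⧸ Subgroup.zpowers b

/-- the coset of `x` -/
def cs (b x : Γ) : VV b := (x : Γ ⧸ Subgroup.zpowers b)

/-- the two steps -/
def St (a e : Γ) : Prop := e = a ∨ e = a⁻¹

theorem St.inv {e : Γ} (h : St a e) : St a e⁻¹ := by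
  rcases h with h | h
  · right; rw [h]
  · left; rw [h, inv_inv]

theorem cs_surj (v : VV b) : ∃ x, cs b x = v := QuotientGroup.mk_surjective v

namespace Hyp

variable (H : Hyp a b)

include H

theorem ainv : a⁻¹ = a * a := by
  rw [inv_eq_iff_mul_eq_one, ← mul_assoc, H.a3]

theorem binv : b⁻¹ = b := by
  rw [inv_eq_iff_mul_eq_one, H.b2]

theorem sq {e : Γ} (h : St a e) : e * e = e⁻¹ := by
  rcases h with h | h
  · rw [h, H.ainv]
  · rw [h, inv_inv, H.ainv]
    have : a * a * (a * a) = a * a * a * a := by group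
    rw [this, H.a3, one_mul]

theorem ne_one {e : Γ} (h : St a e) : e ≠ 1 := by
  rcases h with h | h
  · rw [h]; exact H.a1
  · rw [h]; exact fun hc => H.a1 (inv_eq_one.1 hc)

theorem mem_B {z : Γ} : z ∈ Subgroup.zpowers b ↔ z = 1 ∨ z = b := by
  constructor
  · intro h
    obtain ⟨k, rfl⟩ := Subgroup.mem_zpowers_iff.1 h
    rcases Int.even_or_odd' k with ⟨m, hm | hm⟩
    · left
      rw [hm, zpow_mul, zpow_two, H.b2, one_zpow]
    · right
      rw [hm, zpow_add, zpow_mul, zpow_two, H.b2, one_zpow, one_mul, zpow_one]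
  · rintro (rfl | rfl)
    · exact Subgroup.one_mem _
    · exact Subgroup.mem_zpowers _

theorem cs_eq {x y : Γ} : cs b x = cs b y ↔ y = x ∨ y = x * b := by
  unfold cs
  rw [QuotientGroup.eq, H.mem_B]
  constructor
  · rintro (h | h)
    · left; exact (inv_mul_eq_one.1 h).symm
    · right; rw [← h]; group
  · rintro (h | h)
    · left; rw [h]; group
    · right; rw [h]; group

theorem cs_b (x : Γ) : cs b (x * b) = cs b x := (H.cs_eq.2 (Or.inr rfl)).symm

/-- powers of `a`: products of steps -/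
theorem A_cases {e f : Γ} (he : St a e) (hf : St a f) : e * f = 1 ∨ e * f = e⁻¹ := by
  rcases he with rfl | rfl <;> rcases hf with rfl | rfl
  · right; exact H.sq (Or.inl rfl)
  · left; group
  · left; group
  · right; exact H.sq (Or.inr rfl)

theorem b_ne {e : Γ} (he : St a e) : b ≠ e := by
  intro h
  have h1 := H.sq he
  rw [← h, H.b2] at h1
  exact H.b1 (inv_eq_one.1 h1.symm)

/-- `b` is not a product of two steps -/
theorem b_ne2 {e f : Γ} (he : St a e) (hf : St a f) : b ≠ e * f := by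
  intro h
  rcases H.A_cases he hf with h1 | h1
  · exact H.b1 (h.trans h1)
  · exact H.b_ne he.inv (h.trans h1)

/-- `b` is not a product of three steps -/
theorem b_ne3 {e f g : Γ} (he : St a e) (hf : St a f) (hg : St a g) : b ≠ e * f * g := by
  intro h
  rcases H.A_cases he hf with h1 | h1
  · rw [h1, one_mul] at h; exact H.b_ne hg h
  · rw [h1] at h; exact H.b_ne2 he.inv hg h

/-- the graph -/
def Gr : SimpleGraph (VV b) where
  Adj u v := ∃ x e, St a e ∧ u = cs b x ∧ v = cs b (x * e)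
  symm := ⟨by
    rintro u v ⟨x, e, he, hu, hv⟩
    exact ⟨x * e, e⁻¹, he.inv, hv, by rw [mul_inv_cancel_right]; exact hu⟩⟩
  loopless := ⟨by
    rintro u ⟨x, e, he, hu, hv⟩
    rw [hu, H.cs_eq] at hv
    rcases hv with h | h
    · exact H.ne_one he (mul_eq_left.1 h)
    · exact H.b_ne he (mul_left_cancel h).symm⟩

theorem adj {x e : Γ} (he : St a e) : H.Gr.Adj (cs b x) (cs b (x * e)) := ⟨x, e, he, rfl, rfl⟩

theorem adj' {x e : Γ} (he : St a e) : H.Gr.Adj (cs b x) (cs b (x * b * e)) :=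
  ⟨x * b, e, he, (H.cs_b x).symm, rfl⟩

theorem adj_cases {x : Γ} {v : VV b} (h : H.Gr.Adj (cs b x) v) :
    ∃ e, St a e ∧ (v = cs b (x * e) ∨ v = cs b (x * b * e)) := by
  obtain ⟨y, e, he, hy, hv⟩ := h
  rcases H.cs_eq.1 hy with h | h
  · exact ⟨e, he, Or.inl (by rw [hv, h])⟩
  · exact ⟨e, he, Or.inr (by rw [hv, h])⟩

theorem cross_ne {x e e' : Γ} (he : St a e) (he' : St a e') :
    cs b (x * e) ≠ cs b (x * b * e') := by
  intro h
  rcases H.cs_eq.1 h with h | h
  · rw [mul_assoc] at h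
    have h1 := mul_left_cancel h
    apply H.b_ne2 he he'.inv
    rw [← h1]; group
  · rw [mul_assoc, mul_assoc] at h
    have h1 := mul_left_cancel h
    apply H.n2 e⁻¹ e' he.inv he'
    rw [mul_assoc, mul_assoc e⁻¹, ← mul_assoc b, h1]
    rw [mul_assoc e, H.b2]; group

theorem cross_nadj {x e e' : Γ} (he : St a e) (he' : St a e') :
    ¬ H.Gr.Adj (cs b (x * e)) (cs b (x * b * e')) := by
  intro h
  obtain ⟨f, hf, h | h⟩ := H.adj_cases h
  · rcases H.cs_eq.1 h with h | h
    · -- x e f = x b e'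
      rw [mul_assoc, mul_assoc] at h
      have h1 := mul_left_cancel h
      apply H.b_ne3 he hf he'.inv
      rw [h1]; group
    · -- x e f = x b e' b
      rw [mul_assoc, mul_assoc, mul_assoc] at h
      have h1 := mul_left_cancel h
      rcases H.A_cases he hf with h2 | h2
      · rw [h2] at h1
        apply H.ne_one he'
        have : e' = b * (b * (e' * b)) * b := by
          have : b * (b * (e' * b)) * b = (b * b) * e' * (b * b) := by group
          rw [this, H.b2]; group
        rw [this, ← h1]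
        rw [mul_one, H.b2]
      · rw [h2] at h1
        apply H.n2 e e' he he'
        rw [mul_assoc, mul_assoc, ← h1]; group
  · rcases H.cs_eq.1 h with h | h
    · -- x e b f = x b e'
      have h1 : e * b * f = b * e' := by
        apply mul_left_cancel (a := x)
        rw [← mul_assoc, ← mul_assoc, ← mul_assoc]; exact h
      -- f e'^{-1} = b e^{-1} b
      have h2 : f * e'⁻¹ = b * e⁻¹ * b := by
        have : f = b⁻¹ * e⁻¹ * (e * b * f) := by group
        rw [this, h1, H.binv]; group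
      rcases H.A_cases hf he'.inv with h3 | h3
      · rw [h3] at h2
        apply H.ne_one he.inv
        have : e⁻¹ = b * (b * e⁻¹ * b) * b := by
          have : b * (b * e⁻¹ * b) * b = (b * b) * e⁻¹ * (b * b) := by group
          rw [this, H.b2]; group
        rw [this, ← h2, mul_one, H.b2]
      · rw [h3] at h2
        apply H.n2 f e⁻¹ hf he.inv
        have : f * b * e⁻¹ * b = f * (b * e⁻¹ * b) := by group
        rw [this, ← h2]; group
    · -- x e b f = x b e' b
      have h1 : e * b * f = b * e' * b := by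
        apply mul_left_cancel (a := x)
        have h4 : x * (e * b * f) = x * e * b * f := by group
        have h5 : x * (b * e' * b) = x * b * e' * b := by group
        rw [h4, h5]; exact h
      apply H.n3 e'⁻¹ e f he'.inv he hf
      have : e'⁻¹ * b * e * b * f * b = e'⁻¹ * b * (e * b * f) * b := by group
      rw [this, h1]
      have : e'⁻¹ * b * (b * e' * b) * b = e'⁻¹ * (b * b) * e' * (b * b) := by group
      rw [this, H.b2]; group

theorem step_ne {x e : Γ} (he : St a e) : cs b (x * e) ≠ cs b (x * e⁻¹) := by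
  intro h
  rcases H.cs_eq.1 h with h | h
  · have h1 := mul_left_cancel h
    have h2 := H.sq he
    rw [h1] at h2
    exact H.ne_one he (mul_eq_left.1 h2)
  · rw [mul_assoc] at h
    have h1 := mul_left_cancel h
    apply H.b_ne2 he.inv he.inv
    have h3 : b = e⁻¹ * (e * b) := by group
    rw [← h1] at h3
    exact h3

theorem step_adj {x e : Γ} (he : St a e) : H.Gr.Adj (cs b (x * e)) (cs b (x * e⁻¹)) := by
  have := H.adj (x := x * e) he
  rwa [mul_assoc, H.sq he] at this

theorem arc_rep {u v : VV b} (h : H.Gr.Adj u v) : ∃ x e, St a e ∧ v = cs b x ∧ u = cs b (x * e) := by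
  obtain ⟨y, e, he, hy, hv⟩ := h
  exact ⟨y * e, e⁻¹, he.inv, hv, by rw [mul_inv_cancel_right]; exact hy⟩

theorem ext_cs {x e f : Γ} (he : St a e) (hf : St a f) :
    Ext H.Gr (cs b (x * e)) (cs b x) (cs b (x * b * f)) :=
  ⟨H.adj' hf, H.cross_nadj he hf, H.cross_ne he hf⟩

theorem ext_cases {x e : Γ} {w : VV b} (he : St a e) (h : Ext H.Gr (cs b (x * e)) (cs b x) w) :
    ∃ f, St a f ∧ w = cs b (x * b * f) := by
  obtain ⟨h1, h2, h3⟩ := h
  obtain ⟨f, hf, hw | hw⟩ := H.adj_cases h1
  · exfalso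
    by_cases hfe : f = e
    · rw [hw, hfe] at h3; exact h3 rfl
    · have hfe' : f = e⁻¹ := by
        rcases he with rfl | rfl <;> rcases hf with rfl | rfl
        · exact absurd rfl hfe
        · rfl
        · rw [inv_inv]
        · exact absurd rfl hfe
      apply h2
      rw [hw, hfe']
      exact H.step_adj he
  · exact ⟨f, hf, hw⟩

theorem St_two {e f g : Γ} (he : St a e) (hf : St a f) (hg : St a g) (h : e ≠ f) :
    g = e ∨ g = f := by
  rcases he with rfl | rfl <;> rcases hf with rfl | rfl <;> rcases hg with rfl | rfl <;>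
    simp_all

theorem two : Two H.Gr := by
  intro u v w₁ w₂ w huv h1 h2 hne hw
  obtain ⟨x, e, he, rfl, rfl⟩ := H.arc_rep huv
  obtain ⟨f₁, hf₁, rfl⟩ := H.ext_cases he h1
  obtain ⟨f₂, hf₂, rfl⟩ := H.ext_cases he h2
  obtain ⟨f, hf, rfl⟩ := H.ext_cases he hw
  have hne' : f₁ ≠ f₂ := by
    rintro rfl; exact hne rfl
  rcases H.St_two hf₁ hf₂ hf hne' with rfl | rfl
  · left; rfl
  · right; rfl

/-- constant sign path -/
theorem nb_const (x : Γ) {e : Γ} (he : St a e) : NB H.Gr (fun i : ℤ => cs b (x * (e * b) ^ i)) := by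
  intro i
  set y := x * (e * b) ^ i with hy
  have e1 : x * (e * b) ^ (i + 1) = y * e * b := by
    rw [zpow_add, zpow_one, hy]; group
  have e2 : x * (e * b) ^ (i + 2) = y * e * b * e * b := by
    rw [zpow_add, zpow_two, hy]; group
  simp only [e1, e2]
  rw [H.cs_b, H.cs_b]
  refine ⟨H.adj he, ?_, ?_⟩
  · have := H.cross_nadj (x := y * e) he.inv he
    rwa [mul_inv_cancel_right] at this
  · have := H.cross_ne (x := y * e) he.inv he
    rwa [mul_inv_cancel_right] at this

theorem thru : Thru H.Gr := by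
  rintro u v ⟨x, e, he, rfl, rfl⟩
  refine ⟨_, H.nb_const x he, ?_, ?_⟩
  · simp
  · simp only [zpow_one]
    rw [← mul_assoc, H.cs_b]

theorem cross (u v w : VV b) (huv : H.Gr.Adj u v) (hvw : H.Gr.Adj v w) :
    Ext H.Gr u v w ∨ ∃ t, Ext H.Gr u v t ∧ Ext H.Gr t v w := by
  obtain ⟨x, e, he, rfl, rfl⟩ := H.arc_rep huv
  obtain ⟨f, hf, rfl | rfl⟩ := H.adj_cases hvw
  · right
    refine ⟨cs b (x * b * a), H.ext_cs he (Or.inl rfl), ?_⟩
    have := H.ext_cs (x := x * b) (e := a) (f := f) (Or.inl rfl) hf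
    rw [H.cs_b, mul_assoc x b b, H.b2, mul_one] at this
    exact this
  · left
    exact H.ext_cs he hf

/-- left multiplication -/
def Lm (γ : Γ) : H.Gr ≃g H.Gr where
  toEquiv := MulAction.toPerm γ
  map_rel_iff' := by
    intro u v
    have key : ∀ (δ : Γ) (u v : VV b), H.Gr.Adj u v → H.Gr.Adj (δ • u) (δ • v) := by
      rintro δ u v ⟨x, e, he, rfl, rfl⟩
      refine ⟨δ * x, e, he, rfl, ?_⟩
      rw [mul_assoc]; rfl
    constructor
    · intro h
      have := key γ⁻¹ _ _ h
      simpa using this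
    · exact key γ u v

theorem Lm_cs (γ x : Γ) : H.Lm γ (cs b x) = cs b (γ * x) := rfl

theorem Lm_mul (γ δ : Γ) (v : VV b) : H.Lm (γ * δ) v = H.Lm γ (H.Lm δ v) := by
  obtain ⟨x, rfl⟩ := cs_surj v
  rw [Lm_cs, Lm_cs, Lm_cs, mul_assoc]

theorem Lm_one (v : VV b) : H.Lm 1 v = v := by
  obtain ⟨x, rfl⟩ := cs_surj v
  rw [Lm_cs, one_mul]

theorem tt0 : TT H.Gr 0 := by
  intro p q _ _
  obtain ⟨x, hx⟩ := cs_surj (p 0)
  obtain ⟨y, hy⟩ := cs_surj (q 0)
  refine ⟨H.Lm (y * x⁻¹), ?_⟩
  intro i hi hi'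
  have : i = 0 := by push_cast at hi'; omega
  rw [this, ← hx, ← hy, Lm_cs]
  congr 1; group

theorem not_tt25 : ¬ TT H.Gr 25 := by
  intro hT
  have hp := H.nb_const 1 (e := a) (Or.inl rfl)
  -- the second path
  have hr := H.nb_const ((a * b) ^ (24 : ℤ)) (e := a⁻¹) (Or.inr rfl)
  have hp' := hp.shift 23
  have hglue := hp'.glue hr (by
    simp only [zpow_zero, mul_one, one_mul]
    norm_num) (by
    simp only [zpow_one, one_mul]
    have h23 : (0 : ℤ) + 23 = 23 := by norm_num
    have h24 : (1 : ℤ) + 23 = 24 := by norm_num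
    rw [h23, h24]
    -- let x = (ab)^23 a
    have e0 : (a * b) ^ (23 : ℤ) = ((a * b) ^ (23 : ℤ) * a) * a⁻¹ := by group
    have e1 : cs b ((a * b) ^ (24 : ℤ)) = cs b ((a * b) ^ (23 : ℤ) * a) := by
      rw [show (24 : ℤ) = 23 + 1 by norm_num, zpow_add, zpow_one, ← mul_assoc, H.cs_b]
    have e2 : cs b ((a * b) ^ (24 : ℤ) * (a⁻¹ * b)) = cs b ((a * b) ^ (23 : ℤ) * a * b * a⁻¹) := by
      rw [← mul_assoc, H.cs_b]
      rw [show (24 : ℤ) = 23 + 1 by norm_num, zpow_add, zpow_one]
      congr 1; group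
    rw [e1, e2]
    nth_rw 1 [e0]
    exact H.ext_cs (Or.inr rfl) (Or.inr rfl))
  have hq := hglue.shift (-23)
  obtain ⟨φ, hφ⟩ := hT _ _ hp hq
  have h0 := hφ 0 (le_refl _) (by norm_num)
  have h25 := hφ 25 (by norm_num) (by norm_num)
  have hz : (a * b) ^ (25 : ℤ) = 1 := by
    have := H.r25
    exact_mod_cast this
  have hz24 : (a * b) ^ (24 : ℤ) = (a * b)⁻¹ := by
    rw [show (24 : ℤ) = 25 + (-1) by norm_num, zpow_add, hz, one_mul, zpow_neg_one]
  simp only [zpow_zero, one_mul] at h0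
  simp only [hz, one_mul] at h25
  rw [h0] at h25
  rw [if_pos (by norm_num), if_neg (by norm_num)] at h25
  rw [show (0 : ℤ) + -23 + 23 = 0 by norm_num, show (25 : ℤ) + -23 - 1 = 1 by norm_num, zpow_zero,
    zpow_one, hz24] at h25
  have e3 : (a * b)⁻¹ * (a⁻¹ * b) = b * a * b := by
    rw [mul_inv_rev, H.binv]
    have : b * a⁻¹ * (a⁻¹ * b) = b * (a⁻¹ * a⁻¹) * b := by group
    rw [this, H.sq (e := a⁻¹) (Or.inr rfl), inv_inv]
  rw [e3] at h25
  rcases H.cs_eq.1 h25 with h | h
  · apply H.a1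
    have : a = b * (b * a * b) * b := by
      have : b * (b * a * b) * b = (b * b) * a * (b * b) := by group
      rw [this, H.b2]; group
    rw [this, h, mul_one, H.b2]
  · apply H.a1
    rw [one_mul] at h
    have h1 : b * a * b = 1 * b := by rw [h, one_mul]
    have h2 := mul_right_cancel h1
    have h3 := mul_eq_one_iff_eq_inv.1 h2
    exfalso
    apply H.b_ne (e := a⁻¹) (Or.inr rfl)
    exact h3

end Hyp

end

end Pool.Agent.Helper61
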