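import Mathlib

set_option autoImplicit false

/-! Finite quotients of groups with compressible rigid stabilisers. -/

namespace Pool.Agent.Helper61

theorem surj_conj {Γ F : Type*} [Group Γ] [Group F] [Finite F] (q : Γ →* F) (P : Subgroup Γ)
    (g : Γ) (hg : ∀ p ∈ P, g * p * g⁻¹ ∈ P) (y : F) (hy : y ∈ P.map q) :
    ∃ p ∈ P, q (g * p * g⁻¹) = y := by
  have hmap : ∀ z ∈ P.map q, q g * z * (q g)⁻¹ ∈ P.map q := by
    intro z hz
    obtain ⟨p, hp, rfl⟩ := Subgroup.mem_map.1 hz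
    refine Subgroup.mem_map.2 ⟨g * p * g⁻¹, hg p hp, by simp⟩
  let f : P.map q → P.map q := fun z => ⟨q g * z.1 * (q g)⁻¹, hmap z.1 z.2⟩
  have hinj : Function.Injective f := by
    intro z z' h
    have h1 : q g * z.1 * (q g)⁻¹ = q g * z'.1 * (q g)⁻¹ := congrArg Subtype.val h
    have h2 := mul_right_cancel h1
    exact Subtype.ext (mul_left_cancel h2)
  obtain ⟨z, hz⟩ := (Finite.injective_iff_surjective.1 hinj) ⟨y, hy⟩
  obtain ⟨p, hp, hpz⟩ := Subgroup.mem_map.1 z.2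
  refine ⟨p, hp, ?_⟩
  have := congrArg Subtype.val hz
  change q g * z.1 * (q g)⁻¹ = y at this
  rw [← this, ← hpz]
  simp

theorem rist_comm {Γ F : Type*} [Group Γ] [Group F] [Finite F] (q : Γ →* F) (P : Subgroup Γ)
    (g h : Γ) (hg : ∀ p ∈ P, g * p * g⁻¹ ∈ P) (hh : ∀ p ∈ P, h * p * h⁻¹ ∈ P)
    (hc : ∀ p ∈ P, ∀ p' ∈ P, Commute (g * p * g⁻¹) (h * p' * h⁻¹)) :
    ∀ p ∈ P, ∀ p' ∈ P, Commute (q p) (q p') := by
  intro p hp p' hp'
  obtain ⟨r, hr, hr'⟩ := surj_conj q P g hg (q p) (Subgroup.mem_map_of_mem q hp)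
  obtain ⟨s, hs, hs'⟩ := surj_conj q P h hh (q p') (Subgroup.mem_map_of_mem q hp')
  rw [← hr', ← hs']
  exact (hc r hr s hs).map q

theorem trivial_of_rel {F : Type*} [Group F] (α β : F) (hα : α * α * α = 1) (hβ : β * β = 1)
    (hc : Commute β (α * β * α⁻¹)) (h25 : (α * β) ^ 25 = 1) : α = 1 ∧ β = 1 := by
  have hinv : α⁻¹ = α * α := by
    rw [inv_eq_iff_mul_eq_one, ← mul_assoc, hα]
  set β1 := α * β * α⁻¹ with hβ1
  set β2 := α⁻¹ * β * α with hβ2
  have e12 : α * β1 * α⁻¹ = β2 := by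
    rw [hβ1, hβ2, hinv]
    have h1 : α * (α * β * (α * α)) * (α * α) = α * α * β * α * (α * α * α) := by group
    rw [h1, hα, mul_one]
  have e20 : α * β2 * α⁻¹ = β := by rw [hβ2]; group
  have c01 : Commute β β1 := hc
  have c12 : Commute β1 β2 := by
    have h := c01.map (MulAut.conj α).toMonoidHom
    simp only [MulEquiv.toMonoidHom_eq_coe, MonoidHom.coe_coe, MulAut.conj_apply] at h
    rwa [e12, ← hβ1] at h
  have c20 : Commute β2 β := by
    have h := c12.map (MulAut.conj α).toMonoidHom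
    simp only [MulEquiv.toMonoidHom_eq_coe, MonoidHom.coe_coe, MulAut.conj_apply] at h
    rwa [e12, e20] at h
  have s1 : β1 * β1 = 1 := by
    rw [hβ1]
    have : α * β * α⁻¹ * (α * β * α⁻¹) = α * (β * β) * α⁻¹ := by group
    rw [this, hβ]; group
  have s2 : β2 * β2 = 1 := by
    rw [hβ2]
    have : α⁻¹ * β * α * (α⁻¹ * β * α) = α⁻¹ * (β * β) * α := by group
    rw [this, hβ]; group
  have h3 : (α * β) ^ 3 = β1 * β2 * β := by
    have h1 : (α * β) ^ 3 = (α * β * α⁻¹) * (α * α * β * α⁻¹ * α⁻¹) * (α * α * α * β) := by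
      simp only [pow_succ, pow_zero, one_mul]
      group
    rw [h1, hα, one_mul]
    congr 1
    congr 1
    rw [hβ2, hinv]
    have h2 : α * α * β * (α * α) * (α * α) = α * α * β * α * (α * α * α) := by group
    rw [h2, hα, mul_one]
  have h6 : (α * β) ^ 6 = 1 := by
    have h1 : (α * β) ^ 6 = ((α * β) ^ 3) ^ 2 := by rw [← pow_mul]
    rw [h1, h3]
    have c : Commute (β1 * β2) β := (Commute.mul_left c01.symm c20)
    rw [c.mul_pow, c12.mul_pow, pow_two, pow_two, pow_two, s1, s2, hβ]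
    simp
  have h1 : α * β = 1 := by
    have : (α * β) ^ 25 = ((α * β) ^ 6) ^ 4 * (α * β) := by rw [← pow_mul, ← pow_succ]
    rw [h6, one_pow, one_mul] at this
    rw [← this, h25]
  have h2 : α = β := by
    have := mul_eq_one_iff_eq_inv.1 h1
    rw [this]
    rw [inv_eq_iff_mul_eq_one]
    exact hβ
  have hα1 : α = 1 := by
    have h3 : α * α = 1 := by rw [h2]; exact hβ
    have h4 := hα
    rw [h3, one_mul] at h4
    exact h4
  exact ⟨hα1, by rw [← h2]; exact hα1⟩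

end Pool.Agent.Helper61
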