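import Mathlib

/-!
# Kimura Hadamard matrices of dihedral type: definitions
-/

set_option autoImplicit false

namespace Pool.Agent.Helper61.Kimura

open Matrix

/-- `M_T`: the `±1` matrix indexed by the dihedral group of order `2k` with entry `1` at `(u, v)`
exactly when `u⁻¹ v ∈ T`. -/
def grpMat {k : ℕ} (T : Finset (DihedralGroup k)) :
    Matrix (DihedralGroup k) (DihedralGroup k) ℤ :=
  Matrix.of fun u v => if u⁻¹ * v ∈ T then 1 else -1

/-- The array of four blocks of the Kimura matrix. -/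
def blocks {k : ℕ} (A B C D : Matrix (DihedralGroup k) (DihedralGroup k) ℤ) :
    Fin 4 → Fin 4 → Matrix (DihedralGroup k) (DihedralGroup k) ℤ :=
  ![![A, B, C, D], ![-B, A, D, -C], ![-C, -D, A, B], ![D, -C, B, -A]]

/-- The matrix of order `8k+4` of the problem: four border rows and columns and a `4 × 4` array of
blocks indexed by the dihedral group of order `2k`. -/
def kimura {k : ℕ} (T : Fin 4 → Finset (DihedralGroup k)) :
    Matrix (Fin 4 ⊕ Fin 4 × DihedralGroup k) (Fin 4 ⊕ Fin 4 × DihedralGroup k) ℤ :=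
  Matrix.of fun i j => match i, j with
  | .inl a, .inl b => !![1, 1, 1, 1; 1, 1, -1, -1; 1, -1, 1, -1; 1, -1, -1, 1] a b
  | .inl a, .inr (b, _) => !![1, 1, 1, 1; 1, 1, -1, -1; 1, -1, 1, -1; -1, 1, 1, -1] a b
  | .inr (a, _), .inl b => !![1, 1, 1, -1; 1, 1, -1, 1; 1, -1, 1, 1; 1, -1, -1, -1] a b
  | .inr (a, u), .inr (b, v) =>
      blocks (grpMat (T 0)) (grpMat (T 1)) (grpMat (T 2)) (grpMat (T 3)) a b u v

/-- Hadamard matrices: entries `±1` and `H Hᵀ = n I`. -/
def IsHadamard {ι : Type*} [Fintype ι] [DecidableEq ι] (H : Matrix ι ι ℤ) : Prop :=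
  (∀ i j, H i j = 1 ∨ H i j = -1) ∧ H * Hᵀ = (Fintype.card ι : ℤ) • (1 : Matrix ι ι ℤ)

/-- Signed permutation matrices: entries in `{0, 1, -1}`, exactly one nonzero entry in each row
and in each column. -/
def IsSignedPerm {ι : Type*} (R : Matrix ι ι ℤ) : Prop :=
  (∀ i j, R i j = 0 ∨ R i j = 1 ∨ R i j = -1) ∧ (∀ i, ∃! j, R i j ≠ 0) ∧ (∀ j, ∃! i, R i j ≠ 0)

/-- `Aut(H)`: pairs `(R, S)` of signed permutation matrices with `R H Sᵀ = H`. -/
def autSet {ι : Type*} [Fintype ι] (H : Matrix ι ι ℤ) : Set (Matrix ι ι ℤ × Matrix ι ι ℤ) :=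
  {p | IsSignedPerm p.1 ∧ IsSignedPerm p.2 ∧ p.1 * H * p.2ᵀ = H}

end Pool.Agent.Helper61.Kimura
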