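import Mathlib
import Pool.Agent.Helper61.KimuraDef

/-!
# The order of an element divides the number of automorphisms
-/

set_option autoImplicit false

namespace Pool.Agent.Helper61.Kimura

open Matrix

variable {ι : Type*} [Fintype ι] [DecidableEq ι]

/-- the signed permutation matrix with `s b` at position `(σ b, b)` -/
def spm (σ : Equiv.Perm ι) (s : ι → ℤ) : Matrix ι ι ℤ :=
  Matrix.of fun a b => if a = σ b then s b else 0

lemma spm_mul (σ τ : Equiv.Perm ι) (s t : ι → ℤ) :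
    spm σ s * spm τ t = spm (σ * τ) (fun b => s (τ b) * t b) := by
  ext a b
  simp only [spm, Matrix.mul_apply, Matrix.of_apply, ite_mul, zero_mul, mul_ite, mul_zero,
    Equiv.Perm.mul_apply]
  rw [Finset.sum_eq_single (τ b)]
  · by_cases h : a = σ (τ b) <;> simp [h]
  · intro c _ hc
    split_ifs <;> simp_all
  · simp

lemma spm_one : spm (1 : Equiv.Perm ι) (fun _ => 1) = 1 := by
  ext a b
  by_cases h : a = b
  · subst h; simp [spm]
  · simp [spm, h]

lemma spm_pow (σ : Equiv.Perm ι) (s : ι → ℤ) (n : ℕ) :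
    spm σ s ^ n = spm (σ ^ n) (fun b => ∏ m ∈ Finset.range n, s ((σ ^ m) b)) := by
  induction n with
  | zero => simp [spm_one]
  | succ n ih =>
    rw [pow_succ, ih, spm_mul, pow_succ]
    congr 1
    ext b
    rw [Finset.prod_range_succ']
    simp [pow_succ]

/-- signed permutation matrices are orthogonal -/
lemma IsSignedPerm.mul_transpose {R : Matrix ι ι ℤ} (h : IsSignedPerm R) : R * Rᵀ = 1 := by
  obtain ⟨h1, h2, h3⟩ := h
  ext a b
  rw [Matrix.mul_apply]
  by_cases hab : a = b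
  · subst hab
    obtain ⟨j, hj, hu⟩ := h2 a
    rw [Finset.sum_eq_single j]
    · have := h1 a j
      simp only [Matrix.transpose_apply, Matrix.one_apply_eq]
      rcases this with h | h | h
      · exact absurd h hj
      · rw [h]; norm_num
      · rw [h]; norm_num
    · intro c _ hc
      have : R a c = 0 := by
        by_contra hne
        exact hc (hu c hne)
      simp [this]
    · simp
  · rw [Matrix.one_apply_ne hab]
    refine Finset.sum_eq_zero (fun j _ => ?_)
    rw [Matrix.transpose_apply]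
    by_contra hne
    have ha : R a j ≠ 0 := left_ne_zero_of_mul hne
    have hb : R b j ≠ 0 := right_ne_zero_of_mul hne
    obtain ⟨i, _, hi⟩ := h3 j
    exact hab ((hi a ha).trans (hi b hb).symm)

omit [Fintype ι] [DecidableEq ι] in
lemma isSignedPerm_transpose {R : Matrix ι ι ℤ} (h : IsSignedPerm R) : IsSignedPerm Rᵀ :=
  ⟨fun i j => h.1 j i, fun i => h.2.2 i, fun j => h.2.1 j⟩

lemma IsSignedPerm.transpose_mul {R : Matrix ι ι ℤ} (h : IsSignedPerm R) : Rᵀ * R = 1 := by
  have := (isSignedPerm_transpose h).mul_transpose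
  rwa [Matrix.transpose_transpose] at this

omit [Fintype ι] in
lemma isSignedPerm_spm (σ : Equiv.Perm ι) (s : ι → ℤ) (hs : ∀ i, s i = 1 ∨ s i = -1) :
    IsSignedPerm (spm σ s) := by
  have hne : ∀ i, s i ≠ 0 := by
    intro i; rcases hs i with h | h <;> rw [h] <;> norm_num
  refine ⟨fun i j => ?_, fun i => ?_, fun j => ?_⟩
  · simp only [spm, Matrix.of_apply]
    split_ifs
    · right; exact hs j
    · left; rfl
  · refine ⟨σ⁻¹ i, ?_, ?_⟩
    · simp [spm, hne]
    · intro j hj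
      simp only [spm, Matrix.of_apply, ne_eq, ite_eq_right_iff, Classical.not_imp] at hj
      rw [hj.1]; simp
  · refine ⟨σ j, ?_, ?_⟩
    · simp [spm, hne]
    · intro i hi
      simp only [spm, Matrix.of_apply, ne_eq, ite_eq_right_iff, Classical.not_imp] at hi
      exact hi.1

/-- every signed permutation matrix is of the form `spm` -/
lemma IsSignedPerm.exists_spm {R : Matrix ι ι ℤ} (h : IsSignedPerm R) :
    ∃ (σ : Equiv.Perm ι) (s : ι → ℤ), (∀ i, s i = 1 ∨ s i = -1) ∧ R = spm σ s := by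
  obtain ⟨h1, h2, h3⟩ := h
  choose f hf hfu using h3
  have hinj : Function.Injective f := by
    intro j j' hjj
    obtain ⟨c, hc, hcu⟩ := h2 (f j)
    have e1 := hcu j (hf j)
    have e2 := hcu j' (by rw [hjj]; exact hf j')
    rw [e1, e2]
  have hbij : Function.Bijective f := Finite.injective_iff_bijective.1 hinj
  refine ⟨Equiv.ofBijective f hbij, fun j => R (f j) j, fun j => ?_, ?_⟩
  · rcases h1 (f j) j with h | h | h
    · exact absurd h (hf j)
    · left; exact h
    · right; exact h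
  · ext a b
    simp only [spm, Matrix.of_apply, Equiv.ofBijective_apply]
    split_ifs with hab
    · rw [hab]
    · by_contra hne
      exact hab (hfu b a hne)

lemma IsSignedPerm.mul {R S : Matrix ι ι ℤ} (hR : IsSignedPerm R) (hS : IsSignedPerm S) :
    IsSignedPerm (R * S) := by
  obtain ⟨σ, s, hs, rfl⟩ := hR.exists_spm
  obtain ⟨τ, t, ht, rfl⟩ := hS.exists_spm
  rw [spm_mul]
  refine isSignedPerm_spm _ _ (fun i => ?_)
  rcases hs (τ i) with h | h <;> rcases ht i with h' | h' <;> rw [h, h'] <;> norm_num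

/-- The automorphism group as a subgroup of pairs of units of the matrix ring. -/
def autGroup (H : Matrix ι ι ℤ) : Subgroup ((Matrix ι ι ℤ)ˣ × (Matrix ι ι ℤ)ˣ) where
  carrier := {u | IsSignedPerm (u.1 : Matrix ι ι ℤ) ∧ IsSignedPerm (u.2 : Matrix ι ι ℤ) ∧
    (u.1 : Matrix ι ι ℤ) * H * (u.2 : Matrix ι ι ℤ)ᵀ = H}
  mul_mem' := by
    rintro u v ⟨h1, h2, h3⟩ ⟨k1, k2, k3⟩
    refine ⟨?_, ?_, ?_⟩
    · simpa using h1.mul k1
    · simpa using h2.mul k2
    · simp only [Prod.fst_mul, Prod.snd_mul, Units.val_mul, Matrix.transpose_mul]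
      calc (u.1 : Matrix ι ι ℤ) * v.1 * H * ((v.2 : Matrix ι ι ℤ)ᵀ * (u.2 : Matrix ι ι ℤ)ᵀ)
          = (u.1 : Matrix ι ι ℤ) * ((v.1 : Matrix ι ι ℤ) * H * (v.2 : Matrix ι ι ℤ)ᵀ)
            * (u.2 : Matrix ι ι ℤ)ᵀ := by simp only [Matrix.mul_assoc]
        _ = H := by rw [k3, h3]
  one_mem' := by
    have : IsSignedPerm (1 : Matrix ι ι ℤ) := by
      rw [← spm_one]
      exact isSignedPerm_spm _ _ (fun _ => Or.inl rfl)
    exact ⟨this, this, by simp⟩
  inv_mem' := by
    rintro u ⟨h1, h2, h3⟩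
    have e1 : ((u.1⁻¹ : (Matrix ι ι ℤ)ˣ) : Matrix ι ι ℤ) = (u.1 : Matrix ι ι ℤ)ᵀ :=
      Units.inv_eq_of_mul_eq_one_right h1.mul_transpose
    have e2 : ((u.2⁻¹ : (Matrix ι ι ℤ)ˣ) : Matrix ι ι ℤ) = (u.2 : Matrix ι ι ℤ)ᵀ :=
      Units.inv_eq_of_mul_eq_one_right h2.mul_transpose
    refine ⟨?_, ?_, ?_⟩
    · rw [Prod.fst_inv, e1]; exact isSignedPerm_transpose h1
    · rw [Prod.snd_inv, e2]; exact isSignedPerm_transpose h2
    · rw [Prod.fst_inv, Prod.snd_inv, e1, e2, Matrix.transpose_transpose]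
      calc (u.1 : Matrix ι ι ℤ)ᵀ * H * (u.2 : Matrix ι ι ℤ)
          = (u.1 : Matrix ι ι ℤ)ᵀ * ((u.1 : Matrix ι ι ℤ) * H * (u.2 : Matrix ι ι ℤ)ᵀ)
            * (u.2 : Matrix ι ι ℤ) := by rw [h3]
        _ = ((u.1 : Matrix ι ι ℤ)ᵀ * (u.1 : Matrix ι ι ℤ)) * H
            * ((u.2 : Matrix ι ι ℤ)ᵀ * (u.2 : Matrix ι ι ℤ)) := by
              simp only [Matrix.mul_assoc]
        _ = H := by rw [h1.transpose_mul, h2.transpose_mul]; simp

/-- the unit of a signed permutation matrix -/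
def IsSignedPerm.unit {R : Matrix ι ι ℤ} (h : IsSignedPerm R) : (Matrix ι ι ℤ)ˣ :=
  ⟨R, Rᵀ, h.mul_transpose, h.transpose_mul⟩

lemma card_autSet (H : Matrix ι ι ℤ) : Nat.card (autSet H) = Nat.card (autGroup H) := by
  refine Nat.card_congr ⟨fun p => ⟨(p.2.1.unit, p.2.2.1.unit), p.2⟩,
    fun u => ⟨(u.1.1, u.1.2), u.2⟩, fun p => ?_, fun u => ?_⟩
  · rfl
  · apply Subtype.ext
    apply Prod.ext
    · exact Units.ext rfl
    · exact Units.ext rfl

/-- An automorphism whose third power is not the identity and whose ninth power is forces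
`9 ∣ |Aut(H)|`. -/
theorem nine_dvd (H R S : Matrix ι ι ℤ) (hR : IsSignedPerm R) (hS : IsSignedPerm S)
    (h : R * H * Sᵀ = H) (hR9 : R ^ 9 = 1) (hS9 : S ^ 9 = 1) (hR3 : R ^ 3 ≠ 1) :
    9 ∣ Nat.card (autSet H) := by
  rw [card_autSet]
  let g : autGroup H := ⟨(hR.unit, hS.unit), hR, hS, h⟩
  have h9 : g ^ 3 ^ (1 + 1) = 1 := by
    apply Subtype.ext
    apply Prod.ext
    · apply Units.ext
      show (R : Matrix ι ι ℤ) ^ 3 ^ (1 + 1) = 1
      exact hR9
    · apply Units.ext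
      show (S : Matrix ι ι ℤ) ^ 3 ^ (1 + 1) = 1
      exact hS9
  have h3 : ¬ g ^ 3 ^ 1 = 1 := by
    intro h3
    apply hR3
    have := congrArg (fun u : autGroup H => ((u : (Matrix ι ι ℤ)ˣ × (Matrix ι ι ℤ)ˣ).1 :
      Matrix ι ι ℤ)) h3
    exact this
  have ho : orderOf g = 3 ^ (1 + 1) := by
    have : Fact (Nat.Prime 3) := ⟨by norm_num⟩
    exact orderOf_eq_prime_pow h3 h9
  have := orderOf_dvd_natCard g
  rw [ho] at this
  simpa using this

end Pool.Agent.Helper61.Kimura
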