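import Mathlib

/-!
# Finite verification for a Kimura Hadamard matrix of order 300

The eight `{1,-1}`-sequences of length 37 are encoded as bit masks; `agr m n s` counts the
agreements of one sequence with the cyclic shift of another one.
-/

set_option autoImplicit false

namespace Pool.Agent.Helper61.Kimura

/-- masks of the rotations `r x` of the four sets -/
def pm : Fin 4 → ℕ := ![104604510584, 95772741083, 27148235449, 103589027331]

/-- masks of the reflections `sr x` of the four sets -/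
def qm : Fin 4 → ℕ := ![60209969122, 130366544540, 72991465306, 100380978362]

/-- number of agreements of `m` with the shift of `n` by `s`, positions below `x` -/
def agr (m n s : ℕ) : ℕ → ℕ
  | 0 => 0
  | x + 1 => agr m n s x + (if m.testBit x = n.testBit ((x + s) % 37) then 1 else 0)

theorem chk0r : ∀ s < 37,
    agr (pm 0) (pm 0) ((37 - s) % 37) 37 + agr (qm 0) (qm 0) s 37
    + agr (pm 1) (pm 1) ((37 - s) % 37) 37 + agr (qm 1) (qm 1) s 37
    + agr (pm 2) (pm 2) ((37 - s) % 37) 37 + agr (qm 2) (qm 2) s 37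
    + agr (pm 3) (pm 3) ((37 - s) % 37) 37 + agr (qm 3) (qm 3) s 37
      = 146 + (if s = 0 then 150 else 0) := by
  decide +kernel

theorem chk0s : ∀ s < 37,
    agr (pm 0) (qm 0) s 37 + agr (qm 0) (pm 0) ((37 - s) % 37) 37
    + agr (pm 1) (qm 1) s 37 + agr (qm 1) (pm 1) ((37 - s) % 37) 37
    + agr (pm 2) (qm 2) s 37 + agr (qm 2) (pm 2) ((37 - s) % 37) 37
    + agr (pm 3) (qm 3) s 37 + agr (qm 3) (pm 3) ((37 - s) % 37) 37 = 146 := by
  decide +kernel

/-- rotation part of the correlation of the sets `i` and `j` -/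
def cr (i j : Fin 4) (s : ℕ) : ℕ :=
  agr (pm i) (pm j) ((37 - s) % 37) 37 + agr (qm i) (qm j) s 37

/-- reflection part of the correlation of the sets `i` and `j` -/
def cs (i j : Fin 4) (s : ℕ) : ℕ :=
  agr (pm i) (qm j) s 37 + agr (qm i) (pm j) ((37 - s) % 37) 37

theorem chk1r : ∀ s < 37, cr 0 1 s + cr 3 2 s = cr 1 0 s + cr 2 3 s := by decide +kernel
theorem chk1s : ∀ s < 37, cs 0 1 s + cs 3 2 s = cs 1 0 s + cs 2 3 s := by decide +kernel
theorem chk2r : ∀ s < 37, cr 0 2 s + cr 1 3 s = cr 2 0 s + cr 3 1 s := by decide +kernel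
theorem chk2s : ∀ s < 37, cs 0 2 s + cs 1 3 s = cs 2 0 s + cs 3 1 s := by decide +kernel
theorem chk3r : ∀ s < 37, cr 0 3 s + cr 2 1 s = cr 3 0 s + cr 1 2 s := by decide +kernel
theorem chk3s : ∀ s < 37, cs 0 3 s + cs 2 1 s = cs 3 0 s + cs 1 2 s := by decide +kernel

end Pool.Agent.Helper61.Kimura
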