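import Mathlib
import Pool.Agent.Helper61.KimuraDef
import Pool.Agent.Helper61.KimuraAut
import Pool.Agent.Helper61.KimuraCheck

/-!
# A Kimura Hadamard matrix of order 300 with an automorphism of order 9
-/

set_option autoImplicit false

namespace Pool.Agent.Helper61.Kimura

open Matrix

abbrev DG := DihedralGroup 37

/-- membership in the four sets -/
def memb (i : Fin 4) : DG → Bool
  | .r x => (pm i).testBit x.val
  | .sr x => (qm i).testBit x.val

/-- the four sets -/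
def TT (i : Fin 4) : Finset DG := Finset.univ.filter (fun g => memb i g = true)

/-- the `±1` function of the set `TT i` -/
def eps (i : Fin 4) (g : DG) : ℤ := if memb i g then 1 else -1

lemma grpMat_TT (i : Fin 4) (u v : DG) : grpMat (TT i) u v = eps i (u⁻¹ * v) := by
  simp [grpMat, TT, eps]

/-! ### Sums over the dihedral group -/

lemma sum_dihedral (f : DG → ℤ) :
    ∑ w, f w = ∑ x : ZMod 37, f (.r x) + ∑ x : ZMod 37, f (.sr x) := by
  let e : ZMod 37 ⊕ ZMod 37 ≃ DG :=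
    { toFun := fun s => match s with
        | .inl x => .r x
        | .inr x => .sr x
      invFun := fun g => match g with
        | .r x => .inl x
        | .sr x => .inr x
      left_inv := by rintro (x | x) <;> rfl
      right_inv := by rintro (x | x) <;> rfl }
  rw [← e.sum_comp, Fintype.sum_sum_type]
  rfl

/-- sign of a bit -/
def sg (m : ℕ) (x : ℕ) : ℤ := if m.testBit x then 1 else -1

lemma agr_eq (m n s : ℕ) (N : ℕ) :
    ∑ x ∈ Finset.range N, sg m x * sg n ((x + s) % 37) = 2 * (agr m n s N : ℤ) - N := by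
  induction N with
  | zero => simp [agr]
  | succ N ih =>
    rw [Finset.sum_range_succ, ih, agr]
    simp only [sg]
    cases m.testBit N <;> cases n.testBit ((N + s) % 37) <;> simp <;> ring

lemma sum_corr (m n : ℕ) (a : ZMod 37) :
    ∑ x : ZMod 37, sg m x.val * sg n (x + a).val = 2 * (agr m n a.val 37 : ℤ) - 37 := by
  have h : ∀ x : ZMod 37, (x + a).val = (x.val + a.val) % 37 := fun x => ZMod.val_add x a
  simp only [h]
  have := Fin.sum_univ_eq_sum_range (fun x => sg m x * sg n ((x + a.val) % 37)) 37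
  rw [agr_eq] at this
  exact this

/-- the correlation of the sets `i` and `j` -/
def cc (i j : Fin 4) (t : DG) : ℤ := ∑ w, eps i w * eps j (t⁻¹ * w)

lemma val_neg37 (a : ZMod 37) : (-a).val = (37 - a.val) % 37 := by
  rw [ZMod.neg_val']

lemma cc_r (i j : Fin 4) (a : ZMod 37) :
    cc i j (.r a) = 2 * (cr i j a.val : ℤ) - 74 := by
  rw [cc, sum_dihedral]
  have e1 : ∀ x : ZMod 37, eps i (.r x) * eps j ((DihedralGroup.r a)⁻¹ * .r x)
      = sg (pm i) x.val * sg (pm j) (x + (-a)).val := by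
    intro x
    rw [DihedralGroup.inv_r, DihedralGroup.r_mul_r, neg_add_eq_sub, sub_eq_add_neg]
    rfl
  have e2 : ∀ x : ZMod 37, eps i (.sr x) * eps j ((DihedralGroup.r a)⁻¹ * .sr x)
      = sg (qm i) x.val * sg (qm j) (x + a).val := by
    intro x
    rw [DihedralGroup.inv_r, DihedralGroup.r_mul_sr, sub_neg_eq_add]
    rfl
  simp only [e1, e2, sum_corr, val_neg37, cr]
  push_cast
  ring

lemma cc_sr (i j : Fin 4) (a : ZMod 37) :
    cc i j (.sr a) = 2 * (cs i j a.val : ℤ) - 74 := by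
  rw [cc, sum_dihedral]
  have e1 : ∀ x : ZMod 37, eps i (.r x) * eps j ((DihedralGroup.sr a)⁻¹ * .r x)
      = sg (pm i) x.val * sg (qm j) (x + a).val := by
    intro x
    rw [DihedralGroup.inv_sr, DihedralGroup.sr_mul_r, add_comm a x]
    rfl
  have e2 : ∀ x : ZMod 37, eps i (.sr x) * eps j ((DihedralGroup.sr a)⁻¹ * .sr x)
      = sg (qm i) x.val * sg (pm j) (x + (-a)).val := by
    intro x
    rw [DihedralGroup.inv_sr, DihedralGroup.sr_mul_sr, sub_eq_add_neg]
    rfl
  simp only [e1, e2, sum_corr, val_neg37, cs]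
  push_cast
  ring

lemma cc0 (t : DG) : cc 0 0 t + cc 1 1 t + cc 2 2 t + cc 3 3 t = (if t = 1 then 300 else 0) - 4 := by
  rcases t with a | a
  · have h := chk0r a.val (ZMod.val_lt a)
    have h1 : (DihedralGroup.r a = (1 : DG)) ↔ a.val = 0 := by
      rw [DihedralGroup.one_def, DihedralGroup.r.injEq, ZMod.val_eq_zero]
    simp only [cc_r, h1, cr]
    split_ifs with h0
    · rw [if_pos h0] at h
      have h' := congrArg (fun n : ℕ => (n : ℤ)) h
      push_cast at h' ⊢
      linarith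
    · rw [if_neg h0] at h
      have h' := congrArg (fun n : ℕ => (n : ℤ)) h
      push_cast at h' ⊢
      linarith
  · have h := chk0s a.val (ZMod.val_lt a)
    have h1 : (DihedralGroup.sr a : DG) ≠ 1 := by
      rw [DihedralGroup.one_def]; exact fun h => by cases h
    simp only [cc_sr, if_neg h1, cs]
    have h' := congrArg (fun n : ℕ => (n : ℤ)) h
    push_cast at h' ⊢
    linarith

lemma cc1 (t : DG) : cc 0 1 t + cc 3 2 t = cc 1 0 t + cc 2 3 t := by
  rcases t with a | a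
  · have h := congrArg (fun n : ℕ => (n : ℤ)) (chk1r a.val (ZMod.val_lt a))
    simp only [cc_r]; push_cast at h ⊢; linarith
  · have h := congrArg (fun n : ℕ => (n : ℤ)) (chk1s a.val (ZMod.val_lt a))
    simp only [cc_sr]; push_cast at h ⊢; linarith

lemma cc2 (t : DG) : cc 0 2 t + cc 1 3 t = cc 2 0 t + cc 3 1 t := by
  rcases t with a | a
  · have h := congrArg (fun n : ℕ => (n : ℤ)) (chk2r a.val (ZMod.val_lt a))
    simp only [cc_r]; push_cast at h ⊢; linarith
  · have h := congrArg (fun n : ℕ => (n : ℤ)) (chk2s a.val (ZMod.val_lt a))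
    simp only [cc_sr]; push_cast at h ⊢; linarith

lemma cc3 (t : DG) : cc 0 3 t + cc 2 1 t = cc 3 0 t + cc 1 2 t := by
  rcases t with a | a
  · have h := congrArg (fun n : ℕ => (n : ℤ)) (chk3r a.val (ZMod.val_lt a))
    simp only [cc_r]; push_cast at h ⊢; linarith
  · have h := congrArg (fun n : ℕ => (n : ℤ)) (chk3s a.val (ZMod.val_lt a))
    simp only [cc_sr]; push_cast at h ⊢; linarith

lemma sum_eps (i : Fin 4) : ∑ w, eps i w = if i = 0 then -2 else 0 := by
  rw [sum_dihedral]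
  fin_cases i <;> decide +kernel

/-- row sums of the blocks -/
lemma sum_grp (i : Fin 4) (u : DG) : ∑ v, grpMat (TT i) u v = if i = 0 then -2 else 0 := by
  rw [← sum_eps i]
  simp only [grpMat_TT]
  exact Fintype.sum_equiv (Equiv.mulLeft u⁻¹) _ _ (fun v => rfl)

/-- products of the rows of two blocks -/
lemma sum_grp_grp (i j : Fin 4) (u u' : DG) :
    ∑ v, grpMat (TT i) u v * grpMat (TT j) u' v = cc i j (u⁻¹ * u') := by
  simp only [grpMat_TT, cc]
  refine Fintype.sum_equiv (Equiv.mulLeft u⁻¹) _ _ (fun v => ?_)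
  simp only [Equiv.coe_mulLeft]
  congr 2
  group

/-! ### The Hadamard property -/

/-- border tables -/
def tl : Fin 4 → Fin 4 → ℤ := ![![1, 1, 1, 1], ![1, 1, -1, -1], ![1, -1, 1, -1], ![1, -1, -1, 1]]
def tr : Fin 4 → Fin 4 → ℤ := ![![1, 1, 1, 1], ![1, 1, -1, -1], ![1, -1, 1, -1], ![-1, 1, 1, -1]]
def bl : Fin 4 → Fin 4 → ℤ := ![![1, 1, 1, -1], ![1, 1, -1, 1], ![1, -1, 1, 1], ![1, -1, -1, -1]]
/-- block index and block sign -/
def bi : Fin 4 → Fin 4 → Fin 4 := ![![0, 1, 2, 3], ![1, 0, 3, 2], ![2, 3, 0, 1], ![3, 2, 1, 0]]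
def bs : Fin 4 → Fin 4 → ℤ := ![![1, 1, 1, 1], ![-1, 1, 1, -1], ![-1, -1, 1, 1], ![1, -1, 1, -1]]

lemma kim_tl (a b : Fin 4) : kimura TT (.inl a) (.inl b) = tl a b := rfl

lemma kim_tr (a b : Fin 4) (v : DG) : kimura TT (.inl a) (.inr (b, v)) = tr a b := rfl

lemma kim_bl (a b : Fin 4) (u : DG) : kimura TT (.inr (a, u)) (.inl b) = bl a b := rfl

lemma blocks_eq (M : Fin 4 → Matrix DG DG ℤ) : ∀ a b : Fin 4,
    blocks (M 0) (M 1) (M 2) (M 3) a b = bs a b • M (bi a b)
  | 0, 0 => (one_smul ℤ (M 0)).symm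
  | 0, 1 => (one_smul ℤ (M 1)).symm
  | 0, 2 => (one_smul ℤ (M 2)).symm
  | 0, 3 => (one_smul ℤ (M 3)).symm
  | 1, 0 => (neg_one_smul ℤ (M 1)).symm
  | 1, 1 => (one_smul ℤ (M 0)).symm
  | 1, 2 => (one_smul ℤ (M 3)).symm
  | 1, 3 => (neg_one_smul ℤ (M 2)).symm
  | 2, 0 => (neg_one_smul ℤ (M 2)).symm
  | 2, 1 => (neg_one_smul ℤ (M 3)).symm
  | 2, 2 => (one_smul ℤ (M 0)).symm
  | 2, 3 => (one_smul ℤ (M 1)).symm
  | 3, 0 => (one_smul ℤ (M 3)).symm
  | 3, 1 => (neg_one_smul ℤ (M 2)).symm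
  | 3, 2 => (one_smul ℤ (M 1)).symm
  | 3, 3 => (neg_one_smul ℤ (M 0)).symm

lemma kim_bb (a b : Fin 4) (u v : DG) :
    kimura TT (.inr (a, u)) (.inr (b, v)) = bs a b * grpMat (TT (bi a b)) u v := by
  show blocks (grpMat (TT 0)) (grpMat (TT 1)) (grpMat (TT 2)) (grpMat (TT 3)) a b u v = _
  rw [blocks_eq (fun i => grpMat (TT i))]
  rfl

lemma grpMat_pm (i : Fin 4) (u v : DG) : grpMat (TT i) u v = 1 ∨ grpMat (TT i) u v = -1 := by
  simp only [grpMat, Matrix.of_apply]
  split_ifs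
  · left; rfl
  · right; rfl

lemma kimura_entries (i j : Fin 4 ⊕ Fin 4 × DG) : kimura TT i j = 1 ∨ kimura TT i j = -1 := by
  rcases i with a | ⟨a, u⟩ <;> rcases j with b | ⟨b, v⟩
  · rw [kim_tl]; revert a b; decide
  · rw [kim_tr]; revert a b; decide
  · rw [kim_bl]; revert a b; decide
  · rw [kim_bb]
    have h : bs a b = 1 ∨ bs a b = -1 := by revert a b; decide
    rcases h with h | h <;> rcases grpMat_pm (bi a b) u v with h' | h' <;> rw [h, h'] <;> norm_num

/-- the diagonal sums of correlations -/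
lemma block_diag (t : DG) : ∀ a : Fin 4,
    (∑ b, bl a b * bl a b) + ∑ b, bs a b * bs a b * cc (bi a b) (bi a b) t
      = if t = 1 then 300 else 0 := by
  have k0 := cc0 t
  intro a
  have e : (∑ b, bl a b * bl a b) = 4 := by revert a; decide
  have e2 : ∀ b, bs a b * bs a b = 1 := by revert a; decide
  rw [e]
  simp only [e2, one_mul]
  have e3 : ∑ b, cc (bi a b) (bi a b) t = cc 0 0 t + cc 1 1 t + cc 2 2 t + cc 3 3 t := by
    rw [Fin.sum_univ_four]
    match a with
    | 0 => rfl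
    | 1 => show cc 1 1 t + cc 0 0 t + cc 3 3 t + cc 2 2 t = _; ring
    | 2 => show cc 2 2 t + cc 3 3 t + cc 0 0 t + cc 1 1 t = _; ring
    | 3 => show cc 3 3 t + cc 2 2 t + cc 1 1 t + cc 0 0 t = _; ring
  rw [e3, k0]
  ring

lemma block_off (t : DG) : ∀ a a' : Fin 4, a ≠ a' →
    (∑ b, bl a b * bl a' b) + ∑ b, bs a b * bs a' b * cc (bi a b) (bi a' b) t = 0 := by
  have k1 := cc1 t
  have k2 := cc2 t
  have k3 := cc3 t
  intro a a' hne
  have e : (∑ b, bl a b * bl a' b) = 0 := by revert a a'; decide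
  rw [e, Fin.sum_univ_four, zero_add]
  match a, a', hne with
  | 0, 0, h => exact absurd rfl h
  | 0, 1, _ =>
    show 1 * (-1) * cc 0 1 t + 1 * 1 * cc 1 0 t + 1 * 1 * cc 2 3 t + 1 * (-1) * cc 3 2 t = 0
    linarith
  | 0, 2, _ =>
    show 1 * (-1) * cc 0 2 t + 1 * (-1) * cc 1 3 t + 1 * 1 * cc 2 0 t + 1 * 1 * cc 3 1 t = 0
    linarith
  | 0, 3, _ =>
    show 1 * 1 * cc 0 3 t + 1 * (-1) * cc 1 2 t + 1 * 1 * cc 2 1 t + 1 * (-1) * cc 3 0 t = 0
    linarith
  | 1, 0, _ =>
    show (-1) * 1 * cc 1 0 t + 1 * 1 * cc 0 1 t + 1 * 1 * cc 3 2 t + (-1) * 1 * cc 2 3 t = 0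
    linarith
  | 1, 1, h => exact absurd rfl h
  | 1, 2, _ =>
    show (-1) * (-1) * cc 1 2 t + 1 * (-1) * cc 0 3 t + 1 * 1 * cc 3 0 t + (-1) * 1 * cc 2 1 t = 0
    linarith
  | 1, 3, _ =>
    show (-1) * 1 * cc 1 3 t + 1 * (-1) * cc 0 2 t + 1 * 1 * cc 3 1 t + (-1) * (-1) * cc 2 0 t = 0
    linarith
  | 2, 0, _ =>
    show (-1) * 1 * cc 2 0 t + (-1) * 1 * cc 3 1 t + 1 * 1 * cc 0 2 t + 1 * 1 * cc 1 3 t = 0
    linarith
  | 2, 1, _ =>
    show (-1) * (-1) * cc 2 1 t + (-1) * 1 * cc 3 0 t + 1 * 1 * cc 0 3 t + 1 * (-1) * cc 1 2 t = 0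
    linarith
  | 2, 2, h => exact absurd rfl h
  | 2, 3, _ =>
    show (-1) * 1 * cc 2 3 t + (-1) * (-1) * cc 3 2 t + 1 * 1 * cc 0 1 t + 1 * (-1) * cc 1 0 t = 0
    linarith
  | 3, 0, _ =>
    show 1 * 1 * cc 3 0 t + (-1) * 1 * cc 2 1 t + 1 * 1 * cc 1 2 t + (-1) * 1 * cc 0 3 t = 0
    linarith
  | 3, 1, _ =>
    show 1 * (-1) * cc 3 1 t + (-1) * 1 * cc 2 0 t + 1 * 1 * cc 1 3 t + (-1) * (-1) * cc 0 2 t = 0
    linarith
  | 3, 2, _ =>
    show 1 * (-1) * cc 3 2 t + (-1) * (-1) * cc 2 3 t + 1 * 1 * cc 1 0 t + (-1) * 1 * cc 0 1 t = 0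
    linarith
  | 3, 3, h => exact absurd rfl h

lemma kimura_rows (i i' : Fin 4 ⊕ Fin 4 × DG) :
    ∑ j, kimura TT i j * kimura TT i' j = if i = i' then 300 else 0 := by
  rw [Fintype.sum_sum_type, Fintype.sum_prod_type]
  rcases i with a | ⟨a, u⟩ <;> rcases i' with a' | ⟨a', u'⟩
  · simp only [kim_tl, kim_tr, Sum.inl.injEq, Finset.sum_const, Finset.card_univ,
      DihedralGroup.card, nsmul_eq_mul]
    rw [← Finset.mul_sum]
    revert a a'
    decide
  · simp only [kim_tl, kim_tr, kim_bl, kim_bb, reduceCtorEq, if_false]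
    have e : ∀ b, ∑ v, tr a b * (bs a' b * grpMat (TT (bi a' b)) u' v)
        = tr a b * (bs a' b * (if bi a' b = 0 then -2 else 0)) := by
      intro b
      rw [← Finset.mul_sum, ← Finset.mul_sum, sum_grp]
    simp only [e]
    clear e
    revert a a'
    decide
  · simp only [kim_tl, kim_tr, kim_bl, kim_bb, reduceCtorEq, if_false]
    have e : ∀ b, ∑ v, (bs a b * grpMat (TT (bi a b)) u v) * tr a' b
        = (bs a b * (if bi a b = 0 then -2 else 0)) * tr a' b := by
      intro b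
      rw [← Finset.sum_mul, ← Finset.mul_sum, sum_grp]
    simp only [e]
    clear e
    revert a a'
    decide
  · simp only [kim_bl, kim_bb, Sum.inr.injEq, Prod.mk.injEq]
    have e : ∀ b, ∑ v, (bs a b * grpMat (TT (bi a b)) u v) * (bs a' b * grpMat (TT (bi a' b)) u' v)
        = bs a b * bs a' b * cc (bi a b) (bi a' b) (u⁻¹ * u') := by
      intro b
      rw [← sum_grp_grp, Finset.mul_sum]
      exact Finset.sum_congr rfl (fun v _ => by ring)
    simp only [e]
    by_cases haa : a = a'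
    · subst haa
      rw [block_diag]
      have ht : u⁻¹ * u' = 1 ↔ u = u' := inv_mul_eq_one
      by_cases hu : u = u'
      · rw [if_pos (ht.2 hu), if_pos ⟨rfl, hu⟩]
      · rw [if_neg (fun h => hu (ht.1 h)), if_neg (fun h => hu h.2)]
    · rw [block_off _ _ _ haa, if_neg (fun h => haa h.1)]

theorem isHadamard_kimura : IsHadamard (kimura TT) := by
  refine ⟨kimura_entries, ?_⟩
  ext i j
  have hcard : Fintype.card (Fin 4 ⊕ Fin 4 × DG) = 300 := by
    rw [Fintype.card_sum, Fintype.card_prod, DihedralGroup.card]; simp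
  rw [Matrix.mul_apply, hcard]
  simp only [Matrix.transpose_apply, Matrix.smul_apply, Matrix.one_apply, smul_eq_mul]
  rw [kimura_rows]
  split_ifs <;> norm_num

/-! ### The automorphism of order 9 -/

/-- the automorphism `x ↦ x^7`, `y ↦ y` of the dihedral group -/
def phi : Equiv.Perm DG where
  toFun g := match g with
    | .r x => .r (7 * x)
    | .sr x => .sr (7 * x)
  invFun g := match g with
    | .r x => .r (16 * x)
    | .sr x => .sr (16 * x)
  left_inv := by
    have h : (16 : ZMod 37) * 7 = 1 := by decide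
    rintro (x | x) <;> simp [← mul_assoc, h]
  right_inv := by
    have h : (7 : ZMod 37) * 16 = 1 := by decide
    rintro (x | x) <;> simp [← mul_assoc, h]

/-- the permutation of the block rows and block columns -/
def pb : Equiv.Perm (Fin 4) where
  toFun := ![0, 2, 3, 1]
  invFun := ![0, 3, 1, 2]
  left_inv := by decide
  right_inv := by decide

/-- the permutation of the border columns -/
def pl : Equiv.Perm (Fin 4) where
  toFun := ![2, 0, 1, 3]
  invFun := ![1, 2, 0, 3]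
  left_inv := by decide
  right_inv := by decide

/-- the signs of the rows -/
def sr4 : Fin 4 → ℤ := ![1, 1, -1, -1]

/-- row permutation -/
def rho : Equiv.Perm (Fin 4 ⊕ Fin 4 × DG) := Equiv.sumCongr pb (Equiv.prodCongr pb phi)

/-- column permutation -/
def sigma : Equiv.Perm (Fin 4 ⊕ Fin 4 × DG) := Equiv.sumCongr pl (Equiv.prodCongr pb phi)

/-- row signs -/
def sgn : Fin 4 ⊕ Fin 4 × DG → ℤ
  | .inl a => sr4 a
  | .inr (a, _) => sr4 a

lemma phi_mul (g h : DG) : phi (g * h) = phi g * phi h := by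
  rcases g with x | x <;> rcases h with y | y <;>
    simp only [phi, Equiv.coe_fn_mk, DihedralGroup.r_mul_r, DihedralGroup.r_mul_sr,
      DihedralGroup.sr_mul_r, DihedralGroup.sr_mul_sr, mul_add, mul_sub]

lemma phi_inv (g : DG) : phi g⁻¹ = (phi g)⁻¹ := by
  rcases g with x | x
  · simp only [phi, Equiv.coe_fn_mk, DihedralGroup.inv_r, mul_neg]
  · simp only [phi, Equiv.coe_fn_mk, DihedralGroup.inv_sr]

lemma memb_phi_aux : ∀ i : Fin 4, ∀ x : ZMod 37,
    (pm (pb i)).testBit (7 * x).val = (pm i).testBit x.val ∧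
    (qm (pb i)).testBit (7 * x).val = (qm i).testBit x.val := by
  decide +kernel

lemma memb_phi (i : Fin 4) (g : DG) : memb (pb i) (phi g) = memb i g := by
  rcases g with x | x
  · exact (memb_phi_aux i x).1
  · exact (memb_phi_aux i x).2

lemma grp_phi (i : Fin 4) (u v : DG) :
    grpMat (TT (pb i)) (phi u) (phi v) = grpMat (TT i) u v := by
  rw [grpMat_TT, grpMat_TT, ← phi_inv, ← phi_mul, eps, eps, memb_phi]

lemma kimura_sym (i j : Fin 4 ⊕ Fin 4 × DG) :
    kimura TT (rho i) (sigma j) = sgn i * kimura TT i j := by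
  rcases i with a | ⟨a, u⟩ <;> rcases j with b | ⟨b, v⟩
  · show tl (pb a) (pl b) = sr4 a * tl a b
    revert a b; decide
  · show tr (pb a) (pb b) = sr4 a * tr a b
    revert a b; decide
  · show bl (pb a) (pl b) = sr4 a * bl a b
    revert a b; decide
  · show kimura TT (.inr (pb a, phi u)) (.inr (pb b, phi v)) = sr4 a * _
    rw [kim_bb, kim_bb]
    have h1 : bs (pb a) (pb b) = sr4 a * bs a b := by revert a b; decide
    have h2 : bi (pb a) (pb b) = pb (bi a b) := by revert a b; decide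
    rw [h1, h2, grp_phi, mul_assoc]

lemma sgn_pm (i : Fin 4 ⊕ Fin 4 × DG) : sgn i = 1 ∨ sgn i = -1 := by
  rcases i with a | ⟨a, u⟩
  · show sr4 a = 1 ∨ sr4 a = -1
    revert a; decide
  · show sr4 a = 1 ∨ sr4 a = -1
    revert a; decide

/-- the automorphism equation -/
lemma aut_eq : spm rho sgn * kimura TT * (spm sigma (fun _ => 1))ᵀ = kimura TT := by
  ext i j
  obtain ⟨i, rfl⟩ := rho.surjective i
  obtain ⟨j, rfl⟩ := sigma.surjective j
  rw [Matrix.mul_apply]
  have e1 : ∀ k, (spm rho sgn * kimura TT) (rho i) k = sgn i * kimura TT i k := by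
    intro k
    rw [Matrix.mul_apply, Finset.sum_eq_single i]
    · simp [spm]
    · intro b _ hb
      have : rho i ≠ rho b := fun h => hb (rho.injective h).symm
      simp [spm, this]
    · simp
  simp only [e1]
  rw [Finset.sum_eq_single j]
  · rw [kimura_sym]
    simp [spm]
  · intro b _ hb
    have : sigma j ≠ sigma b := fun h => hb (sigma.injective h).symm
    simp [spm, this]
  · simp

lemma phi_pow (n : ℕ) (x : ZMod 37) :
    (phi ^ n) (.r x) = .r (7 ^ n * x) ∧ (phi ^ n) (.sr x) = .sr (7 ^ n * x) := by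
  induction n with
  | zero => simp
  | succ n ih =>
    rw [pow_succ', Equiv.Perm.mul_apply, Equiv.Perm.mul_apply, ih.1, ih.2]
    constructor
    · show DihedralGroup.r (7 * (7 ^ n * x)) = _
      congr 1; ring
    · show DihedralGroup.sr (7 * (7 ^ n * x)) = _
      congr 1; ring

lemma rho_pow (n : ℕ) (i : Fin 4 ⊕ Fin 4 × DG) : (rho ^ n) i = match i with
    | .inl a => .inl ((pb ^ n) a)
    | .inr (a, u) => .inr ((pb ^ n) a, (phi ^ n) u) := by
  induction n with
  | zero => rcases i with a | ⟨a, u⟩ <;> rfl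
  | succ n ih =>
    rw [pow_succ', Equiv.Perm.mul_apply, ih]
    rcases i with a | ⟨a, u⟩
    · rw [pow_succ']; rfl
    · rw [pow_succ', pow_succ']; rfl

lemma sigma_pow (n : ℕ) (i : Fin 4 ⊕ Fin 4 × DG) : (sigma ^ n) i = match i with
    | .inl a => .inl ((pl ^ n) a)
    | .inr (a, u) => .inr ((pb ^ n) a, (phi ^ n) u) := by
  induction n with
  | zero => rcases i with a | ⟨a, u⟩ <;> rfl
  | succ n ih =>
    rw [pow_succ', Equiv.Perm.mul_apply, ih]
    rcases i with a | ⟨a, u⟩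
    · rw [pow_succ']; rfl
    · rw [pow_succ' pb, pow_succ' phi]; rfl

lemma phi9 (u : DG) : (phi ^ 9) u = u := by
  have h : (7 : ZMod 37) ^ 9 = 1 := by decide
  rcases u with x | x
  · rw [(phi_pow 9 x).1, h, one_mul]
  · rw [(phi_pow 9 x).2, h, one_mul]

lemma pb9 : pb ^ 9 = 1 := by decide
lemma pl9 : pl ^ 9 = 1 := by decide

lemma rho9 : rho ^ 9 = 1 := by
  ext i
  rw [rho_pow]
  rcases i with a | ⟨a, u⟩
  · simp [pb9]
  · simp [pb9, phi9]

lemma sigma9 : sigma ^ 9 = 1 := by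
  ext i
  rw [sigma_pow]
  rcases i with a | ⟨a, u⟩
  · simp [pl9]
  · simp [pb9, phi9]

lemma sgn_rho (n : ℕ) (i : Fin 4 ⊕ Fin 4 × DG) : sgn ((rho ^ n) i) = match i with
    | .inl a => sr4 ((pb ^ n) a)
    | .inr (a, _) => sr4 ((pb ^ n) a) := by
  rw [rho_pow]
  rcases i with a | ⟨a, u⟩ <;> rfl

lemma prod9 : ∀ a : Fin 4, ∏ m ∈ Finset.range 9, sr4 ((pb ^ m) a) = 1 := by decide

lemma R9 : (spm rho sgn) ^ 9 = 1 := by
  rw [spm_pow, rho9, ← spm_one]
  congr 1
  ext i
  simp only [sgn_rho]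
  rcases i with a | ⟨a, u⟩
  · exact prod9 a
  · exact prod9 a

lemma S9 : (spm sigma (fun _ => (1 : ℤ))) ^ 9 = 1 := by
  rw [spm_pow, sigma9, ← spm_one]
  congr 1

lemma R3 : (spm rho sgn) ^ 3 ≠ 1 := by
  intro h
  have h1 := congrFun (congrFun h (.inr (0, .r 1))) (.inr (0, .r 1))
  rw [Matrix.one_apply_eq, spm_pow] at h1
  have h2 : (rho ^ 3) (.inr (0, .r 1)) = .inr ((pb ^ 3) 0, .r (7 ^ 3 * 1)) := by
    rw [rho_pow, ← (phi_pow 3 1).1]
  have h3 : (DihedralGroup.r (1 : ZMod 37)) ≠ .r (7 ^ 3 * 1) := by decide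
  have h4 : (.inr (0, .r 1) : Fin 4 ⊕ Fin 4 × DG) ≠ .inr ((pb ^ 3) 0, .r (7 ^ 3 * 1)) := by
    intro h4
    rw [Sum.inr.injEq, Prod.mk.injEq] at h4
    exact h3 h4.2
  simp only [spm, Matrix.of_apply, h2] at h1
  rw [if_neg h4] at h1
  exact zero_ne_one h1

theorem nine_dvd_aut : 9 ∣ Nat.card (autSet (kimura TT)) :=
  nine_dvd (kimura TT) (spm rho sgn) (spm sigma (fun _ => 1))
    (isSignedPerm_spm _ _ sgn_pm) (isSignedPerm_spm _ _ (fun _ => Or.inl rfl))
    aut_eq R9 S9 R3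

end Pool.Agent.Helper61.Kimura
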