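import Mathlib

set_option autoImplicit false

/-! Prefix-replacement maps of the Cantor space `ℕ → Bool` and a kernel-checkable calculus for them. -/

namespace Pool.Agent.Helper61

abbrev Om : Type := ℕ → Bool

/-- prepend a finite word to a stream -/
def app : List Bool → Om → Om
  | [], x => x
  | c :: u, x => fun n => Nat.casesOn n c (app u x)

/-- first `n` letters -/
def pre (n : ℕ) (x : Om) : List Bool := List.ofFn (fun i : Fin n => x i)

/-- drop the first `n` letters -/
def dropS (n : ℕ) (x : Om) : Om := fun k => x (k + n)

theorem app_nil (x : Om) : app [] x = x := rfl

theorem app_append (u v : List Bool) (x : Om) : app (u ++ v) x = app u (app v x) := by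
  induction u with
  | nil => rfl
  | cons c u ih =>
    show app (c :: (u ++ v)) x = app (c :: u) (app v x)
    funext n
    cases n with
    | zero => rfl
    | succ n => show app (u ++ v) x n = app u (app v x) n; rw [ih]

theorem pre_app (u : List Bool) (x : Om) : pre u.length (app u x) = u := by
  induction u with
  | nil => rfl
  | cons c u ih =>
    unfold pre
    rw [List.length_cons, List.ofFn_succ]
    congr 1

theorem dropS_app (u : List Bool) (x : Om) : dropS u.length (app u x) = x := by
  induction u with
  | nil => rfl
  | cons c u ih =>
    funext k
    show app (c :: u) x (k + (u.length + 1)) = x k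
    show app u x (k + u.length) = x k
    exact congrFun ih k

theorem app_pre_dropS (n : ℕ) (x : Om) : app (pre n x) (dropS n x) = x := by
  induction n generalizing x with
  | zero => rfl
  | succ n ih =>
    unfold pre
    rw [List.ofFn_succ]
    funext k
    cases k with
    | zero => rfl
    | succ k =>
      have := congrFun (ih (fun m => x (m + 1))) k
      exact this

theorem app_injective {u v : List Bool} {x y : Om} (hl : u.length = v.length)
    (h : app u x = app v y) : u = v ∧ x = y := by
  have h1 := pre_app u x
  have h2 := pre_app v y
  have h3 := dropS_app u x
  have h4 := dropS_app v y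
  rw [h, hl] at h1 h3
  exact ⟨by rw [← h1, h2], by rw [← h3, h4]⟩

theorem length_pre (n : ℕ) (x : Om) : (pre n x).length = n := by simp [pre]

/-- `x` lies in the cone of `u` -/
def inC (u : List Bool) (x : Om) : Prop := ∃ y, x = app u y

theorem inC_app {u v : List Bool} (h : u <+: v) (x : Om) : inC u (app v x) := by
  obtain ⟨w, rfl⟩ := h
  exact ⟨app w x, app_append _ _ _⟩

theorem prefix_of_inC {u v : List Bool} {x : Om} (h : inC u (app v x)) (hl : u.length ≤ v.length) :
    u <+: v := by
  obtain ⟨y, hy⟩ := h
  have hv : v = v.take u.length ++ v.drop u.length := (List.take_append_drop _ _).symm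
  rw [hv, app_append] at hy
  have := app_injective (by rw [List.length_take]; omega) hy
  rw [← this.1]
  exact List.take_prefix _ _

/-- tables of prefix replacements, first match wins -/
abbrev Tab : Type := List (List Bool × List Bool)

/-- the action of a table -/
def act : Tab → Om → Om
  | [], x => x
  | (s, d) :: T, x => if pre s.length x = s then app d (dropS s.length x) else act T x

/-- symbolic evaluation on a cone -/
def ev : Tab → List Bool → Option (List Bool)
  | [], _ => none
  | (s, d) :: T, u =>
    if s.isPrefixOf u then some (d ++ u.drop s.length)
    else if u.isPrefixOf s then none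
    else ev T u

theorem ev_sound (T : Tab) (u v : List Bool) (h : ev T u = some v) (x : Om) :
    act T (app u x) = app v x := by
  induction T with
  | nil => simp [ev] at h
  | cons p T ih =>
    obtain ⟨s, d⟩ := p
    unfold ev at h
    unfold act
    split_ifs at h with h1 h2
    · rw [List.isPrefixOf_iff_prefix] at h1
      obtain ⟨w, rfl⟩ := h1
      rw [List.drop_left] at h
      rw [app_append, pre_app, if_pos rfl, dropS_app]
      rw [← app_append]
      congr 1
      exact Option.some.inj h
    · rw [if_neg]
      · exact ih h
      · intro hc
        have hx : inC s (app u x) := ⟨dropS s.length (app u x), by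
          conv_lhs => rw [← app_pre_dropS s.length (app u x), hc]⟩
        rcases Nat.le_total s.length u.length with hl | hl
        · exact h1 (List.isPrefixOf_iff_prefix.2 (prefix_of_inC hx hl))
        · apply h2
          rw [List.isPrefixOf_iff_prefix]
          obtain ⟨y, hy⟩ := hx
          have : inC u (app s y) := ⟨x, hy.symm⟩
          exact prefix_of_inC this hl

/-- symbolic evaluation of a composition (the last table of the list is applied first) -/
def evs : List Tab → List Bool → Option (List Bool)
  | [], u => some u
  | T :: Ts, u => (evs Ts u).bind (ev T)

/-- composition of actions (the last table of the list is applied first) -/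
def acts : List Tab → Om → Om
  | [], x => x
  | T :: Ts, x => act T (acts Ts x)

theorem evs_sound (Ts : List Tab) (u v : List Bool) (h : evs Ts u = some v) (x : Om) :
    acts Ts (app u x) = app v x := by
  induction Ts generalizing v with
  | nil =>
    simp only [evs, Option.some.injEq] at h
    subst h
    rfl
  | cons T Ts ih =>
    unfold evs at h
    rw [Option.bind_eq_some_iff] at h
    obtain ⟨w, hw, hv⟩ := h
    unfold acts
    rw [ih w hw]
    exact ev_sound T w v hv x

/-- adaptive check of a property of symbolic values -/
def chk (f : List Bool → Option Bool) : ℕ → List Bool → Bool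
  | 0, _ => false
  | n + 1, u =>
    match f u with
    | some b => b
    | none => chk f n (u ++ [false]) && chk f n (u ++ [true])

theorem app_snoc (u : List Bool) (x : Om) : app u x = app (u ++ [x 0]) (dropS 1 x) := by
  rw [app_append]
  congr 1
  funext n
  cases n with
  | zero => rfl
  | succ n => rfl

theorem chk_sound (f : List Bool → Option Bool) (Q : Om → Prop)
    (hf : ∀ u, f u = some true → ∀ x, Q (app u x)) (n : ℕ) (u : List Bool)
    (h : chk f n u = true) (x : Om) : Q (app u x) := by
  induction n generalizing u x with
  | zero => simp [chk] at h
  | succ n ih =>
    unfold chk at h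
    split at h
    · rename_i b hb
      subst h
      exact hf u hb x
    · rw [Bool.and_eq_true] at h
      rw [app_snoc]
      cases hx : x 0
      · exact ih _ h.1 _
      · exact ih _ h.2 _

/-- does the composition act as the identity? -/
def idf (Ts : List Tab) (u : List Bool) : Option Bool :=
  match evs Ts u with
  | some v => some (decide (v = u))
  | none => none

theorem acts_id (Ts : List Tab) (n : ℕ) (h : chk (idf Ts) n [] = true) (x : Om) : acts Ts x = x := by
  refine chk_sound (idf Ts) (fun x => acts Ts x = x) ?_ n [] h x
  intro u hu x
  unfold idf at hu
  split at hu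
  · rename_i v hv
    simp only [Option.some.injEq, decide_eq_true_eq] at hu
    subst hu
    exact evs_sound Ts v v hv x
  · simp at hu

/-- does the composition map the complement of the cone `E` into the union of the cones of `R`? -/
def mapf (E : List Bool) (R : List (List Bool)) (Ts : List Tab) (u : List Bool) : Option Bool :=
  if E.isPrefixOf u then some true
  else if u.isPrefixOf E then none
  else match evs Ts u with
    | some v => if R.any (fun r => r.isPrefixOf v) then some true else none
    | none => none

theorem acts_map (E : List Bool) (R : List (List Bool)) (Ts : List Tab) (n : ℕ)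
    (h : chk (mapf E R Ts) n [] = true) (x : Om) (hx : ¬ inC E x) : ∃ r ∈ R, inC r (acts Ts x) := by
  have := chk_sound (mapf E R Ts) (fun x => ¬ inC E x → ∃ r ∈ R, inC r (acts Ts x)) ?_ n [] h x
  · exact this hx
  · intro u hu x hx
    unfold mapf at hu
    split_ifs at hu with h1 h2
    · exact absurd (inC_app (List.isPrefixOf_iff_prefix.1 h1) x) hx
    · split at hu
      · rename_i v hv
        split_ifs at hu with h3
        rw [List.any_eq_true] at h3
        obtain ⟨r, hr, hrv⟩ := h3
        refine ⟨r, hr, ?_⟩
        rw [evs_sound Ts u v hv x]
        exact inC_app (List.isPrefixOf_iff_prefix.1 hrv) x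
      · simp at hu

/-- two cones are disjoint -/
def inc (u v : List Bool) : Bool := !(u.isPrefixOf v) && !(v.isPrefixOf u)

theorem inc_sound {u v : List Bool} (h : inc u v = true) {x : Om} (hu : inC u x) (hv : inC v x) :
    False := by
  unfold inc at h
  rw [Bool.and_eq_true, Bool.not_eq_true', Bool.not_eq_true'] at h
  obtain ⟨y, rfl⟩ := hu
  rcases Nat.le_total v.length u.length with hl | hl
  · have := prefix_of_inC hv hl
    rw [← List.isPrefixOf_iff_prefix] at this
    rw [this] at h
    simp at h
  · obtain ⟨z, hz⟩ := hv
    have : inC u (app v z) := ⟨y, hz.symm⟩
    have := prefix_of_inC this hl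
    rw [← List.isPrefixOf_iff_prefix] at this
    rw [this] at h
    simp at h

end Pool.Agent.Helper61
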