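import Mathlib

set_option autoImplicit false

/-! Non-backtracking paths in graphs without ambiguity, and Tutte's argument. -/

namespace Pool.Agent.Helper61

section Paths

variable {V : Type} (G : SimpleGraph V)

/-- bi-infinite paths that never use two edges of one triangle and never backtrack -/
def NB (p : ℤ → V) : Prop :=
  ∀ i : ℤ, G.Adj (p i) (p (i + 1)) ∧ ¬ G.Adj (p i) (p (i + 2)) ∧ p i ≠ p (i + 2)

/-- `w` is a right extension of the arc `(u, v)` -/
def Ext (u v w : V) : Prop := G.Adj v w ∧ ¬ G.Adj u w ∧ u ≠ w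

variable {G}

theorem NB.map {p : ℤ → V} (h : NB G p) (φ : G ≃g G) : NB G (fun i => φ (p i)) := by
  intro i
  obtain ⟨h1, h2, h3⟩ := h i
  refine ⟨φ.map_adj_iff.2 h1, fun hc => h2 (φ.map_adj_iff.1 hc), fun hc => h3 (φ.injective hc)⟩

theorem NB.shift {p : ℤ → V} (h : NB G p) (k : ℤ) : NB G (fun i => p (i + k)) := by
  intro i
  have := h (i + k)
  have e1 : i + k + 1 = i + 1 + k := by ring
  have e2 : i + k + 2 = i + 2 + k := by ring
  rw [e1, e2] at this
  exact this

theorem NB.rev {p : ℤ → V} (h : NB G p) (k : ℤ) : NB G (fun i => p (k - i)) := by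
  intro i
  have h1 := h (k - i - 2)
  have h2 := h (k - i - 1)
  have e1 : k - i - 1 + 1 = k - i := by ring
  have e2 : k - i - 2 + 2 = k - i := by ring
  have e3 : k - (i + 1) = k - i - 1 := by ring
  have e4 : k - (i + 2) = k - i - 2 := by ring
  rw [e1] at h2
  rw [e2] at h1
  simp only [e3, e4]
  exact ⟨h2.1.symm, fun hc => h1.2.1 hc.symm, fun hc => h1.2.2 hc.symm⟩

theorem NB.ext {p : ℤ → V} (h : NB G p) (i : ℤ) : Ext G (p i) (p (i + 1)) (p (i + 2)) := by
  have h1 := (h (i + 1)).1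
  have e : i + 1 + 1 = i + 2 := by ring
  rw [e] at h1
  exact ⟨h1, (h i).2.1, (h i).2.2⟩

theorem NB.glue {p q : ℤ → V} (hp : NB G p) (hq : NB G q) (h0 : q 0 = p 1)
    (h1 : Ext G (p 0) (p 1) (q 1)) : NB G (fun i => if i ≤ 1 then p i else q (i - 1)) := by
  intro i
  by_cases hi : i ≤ -1
  · have e0 : i ≤ 1 := by omega
    have e1 : i + 1 ≤ 1 := by omega
    have e2 : i + 2 ≤ 1 := by omega
    simp only [if_pos e0, if_pos e1, if_pos e2]
    exact hp i
  · by_cases hi0 : i = 0
    · subst hi0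
      have e2 : ¬ ((0 : ℤ) + 2 ≤ 1) := by omega
      have e0 : (0 : ℤ) ≤ 1 := by omega
      have e1 : (0 : ℤ) + 1 ≤ 1 := by omega
      simp only [if_pos e0, if_pos e1, if_neg e2]
      have e3 : (0 : ℤ) + 2 - 1 = 1 := by ring
      rw [e3]
      exact ⟨(hp 0).1, h1.2.1, h1.2.2⟩
    · by_cases hi1 : i = 1
      · subst hi1
        have e0 : (1 : ℤ) ≤ 1 := le_refl _
        have e1 : ¬ ((1 : ℤ) + 1 ≤ 1) := by omega
        have e2 : ¬ ((1 : ℤ) + 2 ≤ 1) := by omega
        simp only [if_pos e0, if_neg e1, if_neg e2]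
        have := hq 0
        rw [h0] at this
        have e3 : (1 : ℤ) + 1 - 1 = 0 + 1 := by ring
        have e4 : (1 : ℤ) + 2 - 1 = 0 + 2 := by ring
        rw [e3, e4]
        exact this
      · have e0 : ¬ (i ≤ 1) := by omega
        have e1 : ¬ (i + 1 ≤ 1) := by omega
        have e2 : ¬ (i + 2 ≤ 1) := by omega
        simp only [if_neg e0, if_neg e1, if_neg e2]
        have := hq (i - 1)
        have e3 : i + 1 - 1 = i - 1 + 1 := by ring
        have e4 : i + 2 - 1 = i - 1 + 2 := by ring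
        rw [e3, e4]
        exact this

theorem NB.mix {p q : ℤ → V} (hp : NB G p) (hq : NB G q) (h0 : p 0 = q 0) (h1 : p 1 = q 1) :
    NB G (fun i => if i ≤ 1 then p i else q i) := by
  have := hp.glue (hq.shift 1) (by simp [h1]) (by
    have := hq.ext 0
    simp only [zero_add] at this
    rw [h0, h1]
    exact this)
  have e : (fun i => if i ≤ 1 then p i else q (i - 1 + 1)) = (fun i => if i ≤ 1 then p i else q i) := by
    funext i
    have : i - 1 + 1 = i := by ring
    rw [this]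
  rw [e] at this
  exact this

variable (G)

/-- transitivity on paths of length `s` -/
def TT (s : ℕ) : Prop :=
  ∀ p q : ℤ → V, NB G p → NB G q → ∃ φ : G ≃g G, ∀ i : ℤ, 0 ≤ i → i ≤ s → φ (p i) = q i

/-- determinism: an automorphism fixing a path of length `s` fixes the next vertex -/
def DD (s : ℕ) : Prop :=
  ∀ p : ℤ → V, NB G p → ∀ φ : G ≃g G, (∀ i : ℤ, 0 ≤ i → i ≤ s → φ (p i) = p i) →
    φ (p (s + 1)) = p (s + 1)

/-- at most two right extensions of each arc -/
def Two : Prop :=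
  ∀ u v w₁ w₂ w : V, G.Adj u v → Ext G u v w₁ → Ext G u v w₂ → w₁ ≠ w₂ → Ext G u v w →
    w = w₁ ∨ w = w₂

/-- every arc lies on a path -/
def Thru : Prop := ∀ u v : V, G.Adj u v → ∃ p, NB G p ∧ p 0 = u ∧ p 1 = v

variable {G}

theorem DD_of_TT (h2 : Two G) (s : ℕ) (hs : 1 ≤ s) (hT : TT G s) (hT' : ¬ TT G (s + 1)) :
    DD G s := by
  intro p hp φ hfix
  by_contra hne
  apply hT'
  -- any path can be moved to `p` on `[0, s+1]`
  have key : ∀ q : ℤ → V, NB G q → ∃ ψ : G ≃g G, ∀ i : ℤ, 0 ≤ i → i ≤ (s + 1 : ℕ) → ψ (q i) = p i := by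
    intro q hq
    obtain ⟨ψ, hψ⟩ := hT q p hq hp
    have hs1 : (s : ℤ) - 1 + 1 = s := by ring
    have hs2 : (s : ℤ) - 1 + 2 = s + 1 := by ring
    have e1 : Ext G (p (s - 1)) (p s) (p (s + 1)) := by
      have := hp.ext (s - 1); rwa [hs1, hs2] at this
    have e2 : Ext G (p (s - 1)) (p s) (φ (p (s + 1))) := by
      have := (hp.map φ).ext (s - 1)
      rw [hs1, hs2] at this
      rwa [hfix (s - 1) (by omega) (by omega), hfix s (by omega) (by omega)] at this
    have e3 : Ext G (p (s - 1)) (p s) (ψ (q (s + 1))) := by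
      have := (hq.map ψ).ext (s - 1)
      rw [hs1, hs2] at this
      rwa [hψ (s - 1) (by omega) (by omega), hψ s (by omega) (by omega)] at this
    have hadj : G.Adj (p (s - 1)) (p s) := by
      have := (hp (s - 1)).1; rwa [hs1] at this
    rcases h2 _ _ _ _ _ hadj e1 e2 (Ne.symm hne) e3 with h | h
    · refine ⟨ψ, ?_⟩
      intro i hi hi'
      by_cases hi2 : i ≤ s
      · exact hψ i hi hi2
      · have : i = s + 1 := by push_cast at hi'; omega
        rw [this]; exact h
    · refine ⟨ψ.trans φ.symm, ?_⟩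
      intro i hi hi'
      show φ.symm (ψ (q i)) = p i
      by_cases hi2 : i ≤ s
      · rw [hψ i hi hi2]
        have := congrArg φ.symm (hfix i hi hi2)
        rw [φ.symm_apply_apply] at this
        exact this.symm
      · have : i = s + 1 := by push_cast at hi'; omega
        rw [this, h]
        exact φ.symm_apply_apply _
  intro q r hq hr
  obtain ⟨ψ, hψ⟩ := key q hq
  obtain ⟨χ, hχ⟩ := key r hr
  refine ⟨ψ.trans χ.symm, ?_⟩
  intro i hi hi'
  show χ.symm (ψ (q i)) = r i
  rw [hψ i hi hi', ← hχ i hi hi']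
  exact χ.symm_apply_apply _

theorem fix_right {s : ℕ} (hD : DD G s) {p : ℤ → V} (hp : NB G p) (φ : G ≃g G)
    (hfix : ∀ i : ℤ, 0 ≤ i → i ≤ s → φ (p i) = p i) (n : ℕ) :
    ∀ i : ℤ, 0 ≤ i → i ≤ s + n → φ (p i) = p i := by
  induction n with
  | zero => intro i hi hi'; exact hfix i hi (by simpa using hi')
  | succ n ih =>
    intro i hi hi'
    by_cases hi2 : i ≤ s + n
    · exact ih i hi hi2
    · have hi3 : i = s + 1 + n := by push_cast at hi'; omega
      have := hD (fun i => p (i + n)) (hp.shift n) φ (by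
        intro j hj hj'
        exact ih (j + n) (by omega) (by omega))
      rw [hi3]
      exact this

theorem fix_all {s : ℕ} (hD : DD G s) {p : ℤ → V} (hp : NB G p) (φ : G ≃g G)
    (hfix : ∀ i : ℤ, 0 ≤ i → i ≤ s → φ (p i) = p i) (i : ℤ) : φ (p i) = p i := by
  rcases le_total 0 i with hi | hi
  · exact fix_right hD hp φ hfix i.toNat i hi (by omega)
  · have := fix_right hD (hp.rev s) φ (by
      intro j hj hj'
      exact hfix _ (by omega) (by omega)) (-i).toNat (s - i) (by omega) (by omega)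
    have e : (s : ℤ) - (s - i) = i := by ring
    rw [e] at this
    exact this

/-- `fix_all` for windows at any place -/
theorem fix_all' {s : ℕ} (hD : DD G s) {p : ℤ → V} (hp : NB G p) (φ : G ≃g G) (k : ℤ)
    (hfix : ∀ i : ℤ, k ≤ i → i ≤ k + s → φ (p i) = p i) (i : ℤ) : φ (p i) = p i := by
  have := fix_all hD (hp.shift k) φ (by
    intro j hj hj'
    exact hfix (j + k) (by omega) (by omega)) (i - k)
  have e : i - k + k = i := by ring
  rw [e] at this
  exact this

/-- the arc `(u, v)` lies on a path fixed pointwise by `φ` -/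
def Good (φ : G ≃g G) (u v : V) : Prop :=
  ∃ p, NB G p ∧ p 0 = u ∧ p 1 = v ∧ ∀ i, φ (p i) = p i

theorem Good.all {s : ℕ} (hs : 1 ≤ s) (hD : DD G s) {φ : G ≃g G} {u v : V} (h : Good φ u v)
    {q : ℤ → V} (hq : NB G q) (h0 : q 0 = u) (h1 : q 1 = v) (i : ℤ) : φ (q i) = q i := by
  obtain ⟨p, hp, p0, p1, hfix⟩ := h
  have hr := hp.mix hq (by rw [p0, h0]) (by rw [p1, h1])
  have hrfix : ∀ i, φ ((fun i => if i ≤ 1 then p i else q i) i) = (fun i => if i ≤ 1 then p i else q i) i := by
    apply fix_all' hD hr φ (1 - s)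
    intro j _ hj'
    have : j ≤ 1 := by omega
    simp only [if_pos this]
    exact hfix j
  apply fix_all' hD hq φ 0
  intro j hj _
  have := hrfix j
  by_cases hj1 : j ≤ 1
  · rcases (by omega : j = 0 ∨ j = 1) with rfl | rfl
    · rw [h0, ← p0]; exact hfix 0
    · rw [h1, ← p1]; exact hfix 1
  · simp only [if_neg hj1] at this
    exact this

theorem Good.symm {φ : G ≃g G} {u v : V} (h : Good φ u v) : Good φ v u := by
  obtain ⟨p, hp, p0, p1, hfix⟩ := h
  refine ⟨_, hp.rev 1, ?_, ?_, fun i => hfix _⟩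
  · simpa using p1
  · simpa using p0

theorem Good.next {s : ℕ} (hs : 1 ≤ s) (hD : DD G s) (hT : Thru G) {φ : G ≃g G} {u v w : V}
    (h : Good φ u v) (hw : Ext G u v w) : Good φ v w := by
  obtain ⟨p, hp, p0, p1, hfix⟩ := h
  obtain ⟨q, hq, q0, q1⟩ := hT v w hw.1
  have hr := hp.glue hq (by rw [q0, p1]) (by rw [p0, p1, q1]; exact hw)
  have hall := Good.all hs hD ⟨p, hp, p0, p1, hfix⟩ hr (by simpa using p0) (by simpa using p1)
  refine ⟨_, hr.shift 1, ?_, ?_, fun i => hall _⟩
  · simpa using p1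
  · simp only [show ¬ ((1 : ℤ) + 1 ≤ 1) by omega, if_false]
    have e : (1 : ℤ) + 1 - 1 = 1 := by ring
    rw [e, q1]

/-- an automorphism fixing a window of a path is the identity -/
theorem eq_id {s : ℕ} (hs : 1 ≤ s) (hD : DD G s) (hT : Thru G) (hconn : G.Preconnected)
    (hcross : ∀ u v w : V, G.Adj u v → G.Adj v w → Ext G u v w ∨
      ∃ t, Ext G u v t ∧ Ext G t v w)
    {p : ℤ → V} (hp : NB G p) (φ : G ≃g G)
    (hfix : ∀ i : ℤ, 0 ≤ i → i ≤ s → φ (p i) = p i) (x : V) : φ x = x := by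
  have hgood0 : Good φ (p 0) (p 1) := ⟨p, hp, rfl, rfl, fix_all hD hp φ hfix⟩
  have hstep : ∀ v w : V, (∃ u, Good φ u v) → G.Adj v w → (∃ u, Good φ u w) := by
    rintro v w ⟨u, hu⟩ hvw
    have huv : G.Adj u v := by
      obtain ⟨q, hq, q0, q1, _⟩ := hu
      have := (hq 0).1
      rwa [zero_add, q0, q1] at this
    rcases hcross u v w huv hvw with h | ⟨t, ht1, ht2⟩
    · exact ⟨v, hu.next hs hD hT h⟩
    · have h1 := hu.next hs hD hT ht1
      have h2 := h1.symm
      exact ⟨v, h2.next hs hD hT ht2⟩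
  have hall : ∀ x : V, ∃ u, Good φ u x := by
    intro x
    obtain ⟨w⟩ := hconn (p 1) x
    have : ∀ {y z : V} (w : G.Walk y z), (∃ u, Good φ u y) → ∃ u, Good φ u z := by
      intro y z w
      induction w with
      | nil => exact fun h => h
      | cons hadj _ ih => exact fun h => ih (hstep _ _ h hadj)
    exact this w ⟨p 0, hgood0⟩
  obtain ⟨u, q, _, _, q1, hq⟩ := hall x
  rw [← q1]
  exact hq 1

end Paths

end Pool.Agent.Helper61
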