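import Pool.Agent.Helper61.VPair
import Pool.Agent.Helper61.FinQuot

set_option autoImplicit false

/-! The subgroup of Thompson's group `V` generated by the pair has no proper finite-index subgroup. -/

namespace Pool.Agent.Helper61

/-- the group -/
abbrev Gm : Type := ↥(Subgroup.closure ({pa, pb} : Set (Equiv.Perm Om)))

def ga : Gm := ⟨pa, Subgroup.subset_closure (by simp)⟩
def gb : Gm := ⟨pb, Subgroup.subset_closure (by simp)⟩

theorem closure_Gm : Subgroup.closure ({ga, gb} : Set Gm) = ⊤ := by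
  have h := Subgroup.closure_closure_coe_preimage (k := ({pa, pb} : Set (Equiv.Perm Om)))
  rw [← h]
  congr 1
  ext x
  simp only [Set.mem_insert_iff, Set.mem_singleton_iff, Set.mem_preimage]
  constructor
  · rintro (h | h)
    · left; rw [h]; rfl
    · right; rw [h]; rfl
  · rintro (h | h)
    · left; exact Subtype.ext h
    · right; exact Subtype.ext h

theorem ga3 : ga * ga * ga = 1 := Subtype.ext pa3
theorem gb2 : gb * gb = 1 := Subtype.ext pb2
theorem gab25 : (ga * gb) ^ 25 = 1 := Subtype.ext pab25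

/-- lift of letters -/
def lperm : Lt → Gm
  | .a => ga
  | .A => ga⁻¹
  | .b => gb

theorem coe_lperm (l : Lt) : ((lperm l : Gm) : Equiv.Perm Om) = perm l := by
  cases l <;> rfl

theorem coe_prod (w : List Lt) : (((w.map lperm).prod : Gm) : Equiv.Perm Om) = (w.map perm).prod := by
  induction w with
  | nil => rfl
  | cons l w ih =>
    rw [List.map_cons, List.prod_cons, Subgroup.coe_mul, ih, coe_lperm, List.map_cons, List.prod_cons]

theorem pinv (u : Equiv.Perm Om) (x : Om) : u (u⁻¹ x) = x := u.apply_symm_apply x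

/-- elements fixing the cone `E` pointwise -/
def PE : Subgroup Gm where
  carrier := {γ | ∀ x, inC cE x → (γ : Equiv.Perm Om) x = x}
  one_mem' := by intro x _; rfl
  mul_mem' := by
    intro p q hp hq x hx
    show (p : Equiv.Perm Om) ((q : Equiv.Perm Om) x) = x
    rw [hq x hx, hp x hx]
  inv_mem' := by
    intro p hp x hx
    show (p : Equiv.Perm Om)⁻¹ x = x
    rw [Equiv.Perm.inv_eq_iff_eq]
    exact (hp x hx).symm

def gg : Gm := (wg.map lperm).prod
def gh : Gm := (wh.map lperm).prod

theorem gg_map (x : Om) (hx : ¬ inC cE x) : ∃ r ∈ Rg, inC r ((gg : Equiv.Perm Om) x) := by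
  unfold gg
  rw [coe_prod, prod_apply]
  exact acts_map cE Rg _ 40 ck_g x hx

theorem gh_map (x : Om) (hx : ¬ inC cE x) : ∃ r ∈ Rh, inC r ((gh : Equiv.Perm Om) x) := by
  unfold gh
  rw [coe_prod, prod_apply]
  exact acts_map cE Rh _ 40 ck_h x hx

/-- if `u` maps the complement of `E` off `E` then `u⁻¹` maps `E` into `E` -/
theorem inv_mem_cone (u : Gm) (hu : ∀ x, ¬ inC cE x → ¬ inC cE ((u : Equiv.Perm Om) x)) (x : Om)
    (hx : inC cE x) : inC cE ((u : Equiv.Perm Om)⁻¹ x) := by
  by_contra hc
  have := hu _ hc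
  rw [pinv] at this
  exact this hx

theorem conj_mem (u : Gm) (hu : ∀ x, ¬ inC cE x → ¬ inC cE ((u : Equiv.Perm Om) x)) (p : Gm)
    (hp : p ∈ PE) : u * p * u⁻¹ ∈ PE := by
  intro x hx
  show (u : Equiv.Perm Om) ((p : Equiv.Perm Om) ((u : Equiv.Perm Om)⁻¹ x)) = x
  rw [hp _ (inv_mem_cone u hu x hx), pinv]

theorem gg_off (x : Om) (hx : ¬ inC cE x) : ¬ inC cE ((gg : Equiv.Perm Om) x) := by
  obtain ⟨r, hr, hrx⟩ := gg_map x hx
  intro hc
  have := ck_gE
  rw [List.all_eq_true] at this
  exact inc_sound (this r hr) hc hrx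

theorem gh_off (x : Om) (hx : ¬ inC cE x) : ¬ inC cE ((gh : Equiv.Perm Om) x) := by
  obtain ⟨r, hr, hrx⟩ := gh_map x hx
  intro hc
  have := ck_hE
  rw [List.all_eq_true] at this
  exact inc_sound (this r hr) hc hrx

theorem disj_images (x y : Om) (hx : ¬ inC cE x) (hy : ¬ inC cE y) :
    (gg : Equiv.Perm Om) x ≠ (gh : Equiv.Perm Om) y := by
  intro h
  obtain ⟨r, hr, hrx⟩ := gg_map x hx
  obtain ⟨s, hs, hsy⟩ := gh_map y hy
  rw [h] at hrx
  have h1 := ck_gh
  rw [List.all_eq_true] at h1
  have h2 := h1 r hr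
  rw [List.all_eq_true] at h2
  exact inc_sound (h2 s hs) hrx hsy

/-- the support of a conjugate -/
theorem supp_conj (u p : Gm) (hp : p ∈ PE) (x : Om)
    (hx : ((u * p * u⁻¹ : Gm) : Equiv.Perm Om) x ≠ x) : ¬ inC cE ((u : Equiv.Perm Om)⁻¹ x) := by
  intro hc
  apply hx
  show (u : Equiv.Perm Om) ((p : Equiv.Perm Om) ((u : Equiv.Perm Om)⁻¹ x)) = x
  rw [hp _ hc, pinv]

theorem comm_conj (p p' : Gm) (hp : p ∈ PE) (hp' : p' ∈ PE) :
    Commute (gg * p * gg⁻¹) (gh * p' * gh⁻¹) := by
  have hd : Equiv.Perm.Disjoint ((gg * p * gg⁻¹ : Gm) : Equiv.Perm Om)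
      ((gh * p' * gh⁻¹ : Gm) : Equiv.Perm Om) := by
    intro x
    by_contra hc
    rw [not_or] at hc
    have h1 := supp_conj gg p hp x hc.1
    have h2 := supp_conj gh p' hp' x hc.2
    apply disj_images _ _ h1 h2
    rw [pinv, pinv]
  have := hd.commute
  exact Subtype.ext this

theorem gb_mem : gb ∈ PE := by
  intro x hx
  obtain ⟨y, rfl⟩ := hx
  have h := evs_sound _ _ _ ck_bE y
  have h1 := prod_apply [Lt.b] (app cE y)
  rw [h] at h1
  have h2 : ([Lt.b].map perm).prod = pb := by simp [perm]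
  rw [h2] at h1
  exact h1

theorem gaba_mem : ga * gb * ga⁻¹ ∈ PE := by
  intro x hx
  obtain ⟨y, rfl⟩ := hx
  have h := evs_sound _ _ _ ck_abAE y
  have h1 := prod_apply [Lt.a, Lt.b, Lt.A] (app cE y)
  rw [h] at h1
  have h2 : ([Lt.a, Lt.b, Lt.A].map perm).prod = pa * pb * pa⁻¹ := by simp [perm, mul_assoc]
  have h3 : ((ga * gb * ga⁻¹ : Gm) : Equiv.Perm Om) = pa * pb * pa⁻¹ := by
    simp only [Subgroup.coe_mul, Subgroup.coe_inv]
    rfl
  rw [h2] at h1
  rw [h3]
  exact h1

theorem no_finite_index (K : Subgroup Gm) (hK : K.FiniteIndex) : K = ⊤ := by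
  have : K.normalCore.FiniteIndex := inferInstance
  have hfin : Finite (Gm ⧸ K.normalCore) := Subgroup.finite_quotient_of_finiteIndex
  let q := QuotientGroup.mk' K.normalCore
  have hc := rist_comm q PE gg gh (fun p hp => conj_mem gg gg_off p hp)
    (fun p hp => conj_mem gh gh_off p hp) (fun p hp p' hp' => comm_conj p p' hp hp')
    gb gb_mem _ gaba_mem
  have h3 : q ga * q ga * q ga = 1 := by rw [← map_mul, ← map_mul, ga3, map_one]
  have h2 : q gb * q gb = 1 := by rw [← map_mul, gb2, map_one]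
  have h25 : (q ga * q gb) ^ 25 = 1 := by rw [← map_mul, ← map_pow, gab25, map_one]
  have hcc : Commute (q gb) (q ga * q gb * (q ga)⁻¹) := by
    rw [← map_inv, ← map_mul, ← map_mul]; exact hc
  obtain ⟨e1, e2⟩ := trivial_of_rel (q ga) (q gb) h3 h2 hcc h25
  have hker : Subgroup.closure ({ga, gb} : Set Gm) ≤ K.normalCore := by
    rw [Subgroup.closure_le]
    intro x hx
    simp only [Set.mem_insert_iff, Set.mem_singleton_iff] at hx
    rcases hx with rfl | rfl
    · exact (QuotientGroup.eq_one_iff _).1 e1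
    · exact (QuotientGroup.eq_one_iff _).1 e2
  rw [closure_Gm] at hker
  exact top_le_iff.1 (hker.trans K.normalCore_le)

/-! No short relations. -/

theorem lprod_ne_one (w : List Lt) (u : List Bool) (h : mv w u = true) : (w.map lperm).prod ≠ 1 := by
  intro hc
  apply ne_one_of_mv w u h
  rw [← coe_prod, hc]
  rfl

theorem n1a : ga * gb ≠ 1 := by
  have := lprod_ne_one [.a, .b] [false, false] (by decide +kernel)
  simpa [lperm] using this

theorem n1A : ga⁻¹ * gb ≠ 1 := by
  have := lprod_ne_one [.A, .b] [false, false] (by decide +kernel)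
  simpa [lperm] using this

theorem n0a : ga ≠ 1 := by
  have := lprod_ne_one [.a] [false] (by decide +kernel)
  simpa [lperm] using this

theorem n0b : gb ≠ 1 := by
  have := lprod_ne_one [.b] [false, false] (by decide +kernel)
  simpa [lperm] using this

theorem n2 (e e' : Gm) (he : e = ga ∨ e = ga⁻¹) (he' : e' = ga ∨ e' = ga⁻¹) :
    e * gb * e' * gb ≠ 1 := by
  rcases he with rfl | rfl <;> rcases he' with rfl | rfl
  · have := lprod_ne_one [.a, .b, .a, .b] [false, true] (by decide +kernel)
    simpa [lperm, mul_assoc] using this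
  · have := lprod_ne_one [.a, .b, .A, .b] [false, false, true] (by decide +kernel)
    simpa [lperm, mul_assoc] using this
  · have := lprod_ne_one [.A, .b, .a, .b] [false, false, true, false] (by decide +kernel)
    simpa [lperm, mul_assoc] using this
  · have := lprod_ne_one [.A, .b, .A, .b] [false, true] (by decide +kernel)
    simpa [lperm, mul_assoc] using this

theorem n3 (e e' e'' : Gm) (he : e = ga ∨ e = ga⁻¹) (he' : e' = ga ∨ e' = ga⁻¹)
    (he'' : e'' = ga ∨ e'' = ga⁻¹) : e * gb * e' * gb * e'' * gb ≠ 1 := by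
  rcases he with rfl | rfl <;> rcases he' with rfl | rfl <;> rcases he'' with rfl | rfl
  · have := lprod_ne_one [.a, .b, .a, .b, .a, .b] [false, false, false] (by decide +kernel)
    simpa [lperm, mul_assoc] using this
  · have := lprod_ne_one [.a, .b, .a, .b, .A, .b] [false, true] (by decide +kernel)
    simpa [lperm, mul_assoc] using this
  · have := lprod_ne_one [.a, .b, .A, .b, .a, .b] [false, true] (by decide +kernel)
    simpa [lperm, mul_assoc] using this
  · have := lprod_ne_one [.a, .b, .A, .b, .A, .b] [false, true] (by decide +kernel)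
    simpa [lperm, mul_assoc] using this
  · have := lprod_ne_one [.A, .b, .a, .b, .a, .b] [false, false, false] (by decide +kernel)
    simpa [lperm, mul_assoc] using this
  · have := lprod_ne_one [.A, .b, .a, .b, .A, .b] [false, true] (by decide +kernel)
    simpa [lperm, mul_assoc] using this
  · have := lprod_ne_one [.A, .b, .A, .b, .a, .b] [false, true] (by decide +kernel)
    simpa [lperm, mul_assoc] using this
  · have := lprod_ne_one [.A, .b, .A, .b, .A, .b] [false, true] (by decide +kernel)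
    simpa [lperm, mul_assoc] using this

end Pool.Agent.Helper61
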