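import Pool.Agent.Helper61.PrefixMaps

set_option autoImplicit false

/-! An explicit pair of elements of Thompson's group `V` of orders three and two. -/

namespace Pool.Agent.Helper61

def TA : Tab :=
  [([false], [true,false]),
   ([true,false], [true,true]),
   ([true,true], [false])]

def TA' : Tab :=
  [([true,false], [false]),
   ([true,true], [true,false]),
   ([false], [true,true])]

def TB : Tab :=
  [([false,false], [false,true]),
   ([false,true], [false,false]),
   ([true,false,false], [true,false,true,false]),
   ([true,false,true,false], [true,false,false]),
   ([true,false,true,true,true], [true,true,true,false,false]),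
   ([true,true,true,false,false], [true,false,true,true,true]),
   ([true,true,false], [true,true,true,false,true]),
   ([true,true,true,false,true], [true,true,false]),
   ([true,false,true,true,false], [true,false,true,true,false]),
   ([true,true,true,true], [true,true,true,true])]

/-- letters -/
inductive Lt
  | a | A | b

open Lt

def tab : Lt → Tab
  | .a => TA
  | .A => TA'
  | .b => TB

def ckId (w : List Lt) : Bool := chk (idf (w.map tab)) 40 []

theorem ckId_sound (w : List Lt) (h : ckId w = true) (x : Om) : acts (w.map tab) x = x :=
  acts_id _ _ h x

theorem ck_aA : ckId [.a, .A] = true := by decide +kernel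
theorem ck_Aa : ckId [.A, .a] = true := by decide +kernel
theorem ck_bb : ckId [.b, .b] = true := by decide +kernel
theorem ck_aaa : ckId [.a, .a, .a] = true := by decide +kernel

/-- the element of order three -/
def pa : Equiv.Perm Om where
  toFun := act TA
  invFun := act TA'
  left_inv := ckId_sound [.A, .a] ck_Aa
  right_inv := ckId_sound [.a, .A] ck_aA

/-- the element of order two -/
def pb : Equiv.Perm Om where
  toFun := act TB
  invFun := act TB
  left_inv := ckId_sound [.b, .b] ck_bb
  right_inv := ckId_sound [.b, .b] ck_bb

def perm : Lt → Equiv.Perm Om
  | .a => pa
  | .A => pa⁻¹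
  | .b => pb

theorem perm_apply (l : Lt) (x : Om) : perm l x = act (tab l) x := by
  cases l <;> rfl

theorem prod_apply (w : List Lt) (x : Om) : (w.map perm).prod x = acts (w.map tab) x := by
  induction w with
  | nil => rfl
  | cons l w ih =>
    rw [List.map_cons, List.prod_cons, Equiv.Perm.mul_apply, ih, perm_apply]
    rfl

theorem prod_eq_one (w : List Lt) (h : ckId w = true) : (w.map perm).prod = 1 := by
  apply Equiv.ext
  intro x
  rw [prod_apply, ckId_sound w h]
  rfl

def rep : ℕ → List Lt → List Lt
  | 0, _ => []
  | n + 1, w => w ++ rep n w

theorem prod_rep (n : ℕ) (w : List Lt) : ((rep n w).map perm).prod = ((w.map perm).prod) ^ n := by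
  induction n with
  | zero => simp [rep]
  | succ n ih => rw [rep, List.map_append, List.prod_append, ih, pow_succ']

theorem ck_ab25 : ckId (rep 25 [.a, .b]) = true := by decide +kernel

theorem pa3 : pa * pa * pa = 1 := by
  have := prod_eq_one [.a, .a, .a] ck_aaa
  simpa [perm, mul_assoc] using this

theorem pb2 : pb * pb = 1 := by
  have := prod_eq_one [.b, .b] ck_bb
  simpa [perm] using this

theorem pab25 : (pa * pb) ^ 25 = 1 := by
  have := prod_eq_one _ ck_ab25
  rw [prod_rep] at this
  simpa [perm] using this

/-- a word moves some cone off itself -/
def mv (w : List Lt) (u : List Bool) : Bool :=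
  match evs (w.map tab) u with
  | some v => inc u v
  | none => false

theorem ne_one_of_mv (w : List Lt) (u : List Bool) (h : mv w u = true) : (w.map perm).prod ≠ 1 := by
  intro hc
  unfold mv at h
  split at h
  · rename_i v hv
    have h1 : acts (w.map tab) (app u (fun _ => false)) = app v (fun _ => false) := evs_sound _ _ _ hv _
    rw [← prod_apply, hc] at h1
    have h2 : app u (fun _ => false) = app v (fun _ => false) := h1
    exact inc_sound h ⟨_, rfl⟩ ⟨_, h2⟩
  · simp at h

def wg : List Lt := [.a, .b, .a, .b, .A, .b, .a, .b, .a, .b, .A, .b, .A, .b, .A, .b, .a, .b, .a, .b, .A, .b, .a, .b, .a, .b, .a, .b, .a]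

def wh : List Lt := [.b, .A, .b, .a, .b, .a, .b, .A, .b, .A, .b, .A, .b, .a, .b, .a, .b, .A, .b, .a, .b, .a, .b, .a, .b, .a]

/-- the word `E` -/
def cE : List Bool := [true,true,true,true,false]

def Rg : List (List Bool) :=
  [[false,true,false,true,true],
   [false,true,true,false],
   [true,false,false,false,true,false,false,false],
   [true,false,false,false,true,false,true,false],
   [true,false,false,false,true,false,true,true,false],
   [true,false,false,false,true,false,true,true,true,true],
   [true,true,true,false,false,false,true],
   [true,true,true,false,false,true],
   [true,true,true,false,true,true],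
   [true,true,true,true,true]]

def Rh : List (List Bool) :=
  [[false,false,false,false,true],
   [false,false,false,true],
   [false,false,true,true],
   [true,false,false,true],
   [true,false,true,false,false],
   [true,false,true,true,false],
   [true,true,true,false,true,false,false,false],
   [true,true,true,false,true,false,true,false],
   [true,true,true,false,true,false,true,true,false],
   [true,true,true,false,true,false,true,true,true,true]]

theorem ck_g : chk (mapf cE Rg (wg.map tab)) 40 [] = true := by decide +kernel
theorem ck_h : chk (mapf cE Rh (wh.map tab)) 40 [] = true := by decide +kernel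
theorem ck_gE : Rg.all (fun r => inc cE r) = true := by decide +kernel
theorem ck_hE : Rh.all (fun r => inc cE r) = true := by decide +kernel
theorem ck_gh : Rg.all (fun r => Rh.all (fun s => inc r s)) = true := by decide +kernel

theorem ck_bE : evs ([Lt.b].map tab) cE = some cE := by decide +kernel
theorem ck_abAE : evs ([Lt.a, Lt.b, Lt.A].map tab) cE = some cE := by decide +kernel

end Pool.Agent.Helper61
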